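import Pool.Agent.Lib.MP_240c17_al.Q2.Abc.Spec
import Pool.Agent.Lib.MP_240c17_al.Q2.Fin

/-!
# MP_240c17, project Q2, stage ABC: assembly
-/

set_option autoImplicit false

namespace Pool.Agent.Lib.MP_240c17_al.Q2.Abc

universe u

open Pool.Agent.Lib.MP_240c17_al Pool.Agent.Lib.MP_240c17_al.Two TensorProduct

/-- the images of the generators generate -/
theorem Asm_span {k : Type u} [Field k] {G : Type u} [LieRing G] [LieAlgebra k G] {n : ℕ}
    (π : FreeLieAlgebra k (Fin n) →ₗ⁅k⁆ G) (hπ : Function.Surjective π) :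
    LieSubalgebra.lieSpan k G (Set.range fun i => π (FreeLieAlgebra.of k i)) = ⊤ := by
  rw [eq_top_iff]
  intro g _
  obtain ⟨w, rfl⟩ := hπ g
  let K := LieSubalgebra.lieSpan k G (Set.range fun i => π (FreeLieAlgebra.of k i))
  have hmem : ∀ i, π (FreeLieAlgebra.of k i) ∈ K := fun i =>
    LieSubalgebra.subset_lieSpan ⟨i, rfl⟩
  let f : FreeLieAlgebra k (Fin n) →ₗ⁅k⁆ K :=
    FreeLieAlgebra.lift k fun i => ⟨π (FreeLieAlgebra.of k i), hmem i⟩
  have h1 : K.incl.comp f = π := by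
    refine FreeLieAlgebra.hom_ext ?_
    intro i
    rw [LieHom.comp_apply, FreeLieAlgebra.lift_of_apply]
    rfl
  have h2 : (K.incl.comp f) w = π w := by rw [h1]
  rw [← h2]
  exact (f w).2

/-- members of the variety contain the verbal ideal in the kernel -/
theorem Asm_verbal {k : Type u} [Field k] {G : Type u} [LieRing G] [LieAlgebra k G] {n : ℕ}
    {Id : Set (FreeLieAlgebra k ℕ)} (hG : InVariety Id G)
    (π : FreeLieAlgebra k (Fin n) →ₗ⁅k⁆ G) : verbalIdeal Id n ≤ π.ker := by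
  unfold verbalIdeal
  rw [LieSubmodule.lieSpan_le]
  rintro w ⟨g, hg, ρ, rfl⟩
  show FreeLieAlgebra.lift k ρ g ∈ π.ker
  rw [LieHom.mem_ker, ← LieHom.comp_apply,
    ← FreeLieAlgebra.lift_comp_of (π.comp (FreeLieAlgebra.lift k ρ))]
  exact hG g hg _

/-- an absolutely finitely presented member is relatively finitely presented -/
theorem Asm_rel {k : Type u} [Field k] {G : Type u} [LieRing G] [LieAlgebra k G]
    {Id : Set (FreeLieAlgebra k ℕ)} (hG : InVariety Id G) (h : AbsFP k G) :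
    RelFinitelyPresented Id G := by
  obtain ⟨n, π, S, hπ, hS⟩ := h
  refine ⟨n, π, S, hπ, ?_⟩
  rw [← hS]
  exact (sup_eq_right.mpr (Asm_verbal hG π)).symm

/-- the sufficiency in the absolute reading -/
theorem abc_of (hGne : S_Gne.{u}) (hGid : S_Gid.{u}) (hGL : S_GL.{u}) (hN2c : S_N2c.{u})
    (hJD : S_JD.{u}) (hDer : S_Der.{u}) (hSt : S_St.{u}) (hSy : S_Sy.{u}) (hFin : S_Fin.{u})
    (hLn : S_Ln.{u}) (hRF : S_RF.{u})
    (k : Type u) [Field k] [Infinite k] (h2 : (2 : k) ≠ 0) (Id : Set (FreeLieAlgebra k ℕ))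
    (hN : ∀ (L : Type u) [LieRing L] [LieAlgebra k L], InVariety Id L → IsN2A L)
    (hI : NoId Id)
    (L₀ : Type u) [LieRing L₀] [LieAlgebra k L₀] (hL₀ : IsN2A L₀) (hL₁ : ¬InVariety Id L₀)
    (G : Type u) [LieRing G] [LieAlgebra k G] (hG : InVariety Id G) (hfp : AbsFP k G) :
    ResiduallyFiniteDimensional k G := by
  -- a power of the determinant
  have hH2 : ¬InVariety Id (H2 k) := fun h => hL₁ (hN2c k h2 Id h L₀ hL₀)
  obtain ⟨q, hq, hq0⟩ := hGne k Id hI hH2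
  obtain ⟨P, hP, hP2⟩ := hGid k Id
  have hPne : P ≠ ⊥ := by
    rintro rfl
    rw [← hP] at hq
    exact hq0 hq
  obtain ⟨d₀, hd₀⟩ := hGL k P hP2 hPne
  have hodd : ∃ d, Odd d ∧ det4 k ^ d ∈ VG Id := by
    rcases Nat.even_or_odd d₀ with he | ho
    · refine ⟨d₀ + 1, he.add_one, ?_⟩
      rw [← hP, pow_succ]
      exact P.mul_mem_right _ hd₀
    · refine ⟨d₀, ho, ?_⟩
      rw [← hP]
      exact hd₀
  obtain ⟨d, hd, hdV⟩ := hodd
  obtain ⟨n, π, S, hπ, hS⟩ := hfp
  have hspan := Asm_span π hπ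
  obtain ⟨M, _, _, mk, X, hder, hX, hM⟩ := hDer k G n (fun i => π (FreeLieAlgebra.of k i)) hspan
  have hGN : IsN2A G := hN G hG
  have hst := hSt k G n π S M mk X d hX hπ hS hder hd
    (fun p q a b ha hb => hJD k Id d hdV G hG hGN _ _ a b ha hb)
  have hsy : ∀ p q j j' i : Fin n, ∃ S : Finset (M ⊗[k] M), ∀ w : M ⊗[k] M,
      (Lt (X i) - Rt (X i)) (e0 X d p q j j' w) ∈
        Two.gen (fun i => Sg (X i)) (S : Set (M ⊗[k] M)) :=
    fun p q j j' i => hSy k h2 M n X d p q j j' hX (hst p q j j') i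
  rcases hFin k h2 M n X d hX hM hsy with hfg | hline
  · exact hRF k G n (fun i => π (FreeLieAlgebra.of k i)) M mk X hspan hGN hder hX hM hfg
  · exact absurd hline (hLn k G n π S M mk X hπ hS hder hGN)

end Pool.Agent.Lib.MP_240c17_al.Q2.Abc
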