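import Pool.Agent.Lib.MP_240c17_al.Q2.Abc.Spec

/-!
# MP_240c17, project Q2, stage ABC: determinants vanish and no line
-/

set_option autoImplicit false

namespace Pool.Agent.Lib.MP_240c17_al.Q2.Abc

universe u

open Pool.Agent.Lib.MP_240c17_al Pool.Agent.Lib.MP_240c17_al.Two TensorProduct

/-- a transcendental element gives a line -/
theorem C4_line {k A L F : Type u} [Field k] [CommRing A] [Algebra k A] [Field L] [Algebra k L]
    [Field F] [Algebra k F] [Algebra L F] [IsScalarTower k L F] {n : ℕ} (x : Fin n → A)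
    (hx : Algebra.adjoin k (Set.range x) = ⊤) (f : A →ₐ[k] F) (u : F) (hu : Transcendental L u)
    (θ : Fin n → L) (hθ : ∀ l, f (x l) = algebraMap L F (θ l) * u) (i : Fin n) (hi : θ i ≠ 0) :
    Line k x := by
  let Φ : Polynomial L →ₐ[k] F := (Polynomial.aeval u : Polynomial L →ₐ[L] F).restrictScalars k
  have hΦ : Function.Injective Φ := transcendental_iff_injective.1 hu
  have hΦ1 : ∀ l, Φ (Polynomial.C (θ l) * Polynomial.X) = f (x l) := by
    intro l
    rw [hθ l]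
    change Polynomial.aeval u (Polynomial.C (θ l) * Polynomial.X) = _
    rw [map_mul, Polynomial.aeval_C, Polynomial.aeval_X]
  have hr : ∀ a, f a ∈ Φ.range := by
    intro a
    have h1 : Algebra.adjoin k (Set.range x) ≤ Φ.range.comap f := by
      rw [Algebra.adjoin_le_iff]
      rintro _ ⟨l, rfl⟩
      exact ⟨_, hΦ1 l⟩
    rw [hx] at h1
    exact h1 (Algebra.mem_top : a ∈ ⊤)
  let χ : A →ₐ[k] Polynomial L :=
    ((AlgEquiv.ofInjective Φ hΦ).symm : Φ.range →ₐ[k] Polynomial L).comp (f.codRestrict Φ.range hr)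
  have hχ : ∀ a, Φ (χ a) = f a := by
    intro a
    have h1 : (AlgEquiv.ofInjective Φ hΦ) (χ a) = f.codRestrict Φ.range hr a :=
      AlgEquiv.apply_symm_apply _ _
    exact congrArg Subtype.val h1
  exact ⟨L, inferInstance, inferInstance, θ, χ, fun l => hΦ ((hχ (x l)).trans (hΦ1 l).symm), i, hi⟩

/-- no line: an algebraic relation -/
theorem C4_key {k A F : Type u} [Field k] [CommRing A] [Algebra k A] [Field F] [Algebra k F]
    {n : ℕ} (x : Fin n → A) (hx : Algebra.adjoin k (Set.range x) = ⊤) (hL : ¬Line k x)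
    (f g : A →ₐ[k] F) (hdet : ∀ p q, f (x p) * g (x q) = f (x q) * g (x p)) (i : Fin n)
    (hi : f (x i) ≠ 0) (h2 : ∃ j, g (x j) ≠ 0) :
    ∃ G : Polynomial A, (∃ l, g (G.coeff l) ≠ 0) ∧ (G.sum fun l c => f (x i) ^ l * g c) = 0 := by
  obtain ⟨j, hj⟩ := h2
  have hgi : g (x i) ≠ 0 := by
    intro h0
    have h1 := hdet i j
    rw [h0, mul_zero] at h1
    exact mul_ne_zero hi hj h1
  have : FaithfulSMul ↥g.range F :=
    (faithfulSMul_iff_algebraMap_injective _ _).2 Subtype.val_injective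
  let _ : Algebra (FractionRing ↥g.range) F := FractionRing.liftAlgebra ↥g.range F
  have hst : IsScalarTower ↥g.range (FractionRing ↥g.range) F :=
    FractionRing.isScalarTower_liftAlgebra ↥g.range F
  have : IsScalarTower k (FractionRing ↥g.range) F := by
    refine IsScalarTower.of_algebraMap_eq fun c => ?_
    rw [IsScalarTower.algebraMap_apply k ↥g.range (FractionRing ↥g.range) c,
      ← IsScalarTower.algebraMap_apply ↥g.range (FractionRing ↥g.range) F]
    rfl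
  -- the elements of the range
  let v : Fin n → ↥g.range := fun l => ⟨g (x l), ⟨x l, rfl⟩⟩
  let θ : Fin n → FractionRing ↥g.range := fun l =>
    algebraMap _ _ (v l) / algebraMap _ _ (v i)
  have hθ1 : ∀ l, algebraMap (FractionRing ↥g.range) F (θ l) = g (x l) / g (x i) := by
    intro l
    change algebraMap (FractionRing ↥g.range) F (algebraMap _ _ (v l) / algebraMap _ _ (v i)) = _
    rw [map_div₀, ← IsScalarTower.algebraMap_apply ↥g.range (FractionRing ↥g.range) F,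
      ← IsScalarTower.algebraMap_apply ↥g.range (FractionRing ↥g.range) F]
    rfl
  have halg : IsAlgebraic (FractionRing ↥g.range) (f (x i)) := by
    by_contra hc
    refine hL (C4_line (L := FractionRing ↥g.range) x hx f (f (x i)) hc θ (fun l => ?_) i ?_)
    · rw [hθ1 l, div_mul_eq_mul_div, eq_div_iff hgi, mul_comm (g (x l))]
      exact hdet l i
    · intro h0
      have h1 := hθ1 i
      rw [h0, map_zero, div_self hgi] at h1
      exact zero_ne_one h1
  rw [← IsFractionRing.isAlgebraic_iff ↥g.range (FractionRing ↥g.range) F] at halg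
  obtain ⟨P, hP0, hP⟩ := halg
  obtain ⟨G, hG⟩ := Polynomial.map_surjective (g.rangeRestrict : A →+* ↥g.range)
    g.rangeRestrict_surjective P
  refine ⟨G, ?_, ?_⟩
  · by_contra hc
    push Not at hc
    apply hP0
    rw [← hG]
    ext l
    rw [Polynomial.coeff_map, Polynomial.coeff_zero]
    have h3 : ((g.rangeRestrict (G.coeff l) : ↥g.range) : F) = ((0 : ↥g.range) : F) := hc l
    exact congrArg Subtype.val (Subtype.ext h3)
  · rw [← hG, Polynomial.aeval_def, Polynomial.eval₂_map, Polynomial.eval₂_eq_sum] at hP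
    rw [← hP]
    refine Finset.sum_congr rfl fun l _ => ?_
    exact mul_comm _ _

/-- the left statement -/
theorem C4_left (hMp : S_Mp.{u}) {k A : Type u} [Field k] [CommRing A] [Algebra k A] {n : ℕ}
    (x : Fin n → A) (Q : Ideal (A ⊗[k] A)) (hx : Algebra.adjoin k (Set.range x) = ⊤)
    (hL : ¬Line k x) (hQ : Q ∈ minimalPrimes (A ⊗[k] A))
    (hdet : ∀ p q, x p ⊗ₜ[k] x q - x q ⊗ₜ[k] x p ∈ Q)
    (h2 : ∃ j, (1 : A) ⊗ₜ[k] x j ∉ Q) (i : Fin n) :
    ∃ p : Polynomial k, p ≠ 0 ∧ (Polynomial.aeval (x i) p) ⊗ₜ[k] (1 : A) ∈ Q := by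
  by_cases hi : x i ⊗ₜ[k] (1 : A) ∈ Q
  · refine ⟨Polynomial.X, Polynomial.X_ne_zero, ?_⟩
    rw [Polynomial.aeval_X]
    exact hi
  have hQp : Q.IsPrime := hQ.1.1
  let π : A ⊗[k] A →ₐ[k] FractionRing ((A ⊗[k] A) ⧸ Q) :=
    (IsScalarTower.toAlgHom k ((A ⊗[k] A) ⧸ Q) (FractionRing ((A ⊗[k] A) ⧸ Q))).comp
      (Ideal.Quotient.mkₐ k Q)
  have hπ : ∀ z, π z = 0 ↔ z ∈ Q := by
    intro z
    change algebraMap ((A ⊗[k] A) ⧸ Q) (FractionRing ((A ⊗[k] A) ⧸ Q))
      (Ideal.Quotient.mk Q z) = 0 ↔ _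
    rw [map_eq_zero_iff _ (IsFractionRing.injective ((A ⊗[k] A) ⧸ Q)
      (FractionRing ((A ⊗[k] A) ⧸ Q))), Ideal.Quotient.eq_zero_iff_mem]
  let f : A →ₐ[k] FractionRing ((A ⊗[k] A) ⧸ Q) := π.comp Algebra.TensorProduct.includeLeft
  let g : A →ₐ[k] FractionRing ((A ⊗[k] A) ⧸ Q) := π.comp Algebra.TensorProduct.includeRight
  have hfg : ∀ a b, f a * g b = π (a ⊗ₜ[k] b) := by
    intro a b
    change π (a ⊗ₜ[k] (1 : A)) * π ((1 : A) ⊗ₜ[k] b) = _
    rw [← map_mul, Algebra.TensorProduct.tmul_mul_tmul, mul_one, one_mul]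
  obtain ⟨j, hj⟩ := h2
  obtain ⟨G, ⟨l, hl⟩, hG⟩ := C4_key x hx hL f g (fun p q => by
      rw [hfg, hfg, ← sub_eq_zero, ← map_sub]
      exact (hπ _).2 (hdet p q)) i (fun h0 => hi ((hπ _).1 h0)) ⟨j, fun h0 => hj ((hπ _).1 h0)⟩
  by_contra hc
  push Not at hc
  refine hMp k A Q (x i) hQ hc G ⟨l, fun h0 => hl ((hπ _).2 h0)⟩ ?_
  rw [← hπ, Polynomial.sum_def, map_sum]
  rw [Polynomial.sum_def] at hG
  rw [← hG]
  refine Finset.sum_congr rfl fun e _ => ?_
  rw [← hfg, map_pow]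

theorem tC4 : S_Mp.{u} → S_C4.{u} := by
  intro hMp k _ A _ _ n x Q hx hL hQ hdet h1 h2 i
  refine ⟨C4_left hMp x Q hx hL hQ hdet h2 i, ?_⟩
  let e : A ⊗[k] A ≃ₐ[k] A ⊗[k] A := Algebra.TensorProduct.comm k A A
  have he : ∀ a b : A, e (a ⊗ₜ[k] b) = b ⊗ₜ[k] a := fun a b => rfl
  let Q' : Ideal (A ⊗[k] A) := Q.comap (e : A ⊗[k] A →+* A ⊗[k] A)
  have hQ' : Q' ∈ minimalPrimes (A ⊗[k] A) := by
    have h3 := Ideal.minimalPrimes_comap_of_surjective
      (f := (e : A ⊗[k] A →+* A ⊗[k] A)) e.surjective (I := (⊥ : Ideal (A ⊗[k] A))) hQ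
    have h4 : (⊥ : Ideal (A ⊗[k] A)).comap (e : A ⊗[k] A →+* A ⊗[k] A) = ⊥ :=
      Ideal.comap_bot_of_injective _ e.injective
    rw [h4] at h3
    exact h3
  obtain ⟨j, hj⟩ := h1
  obtain ⟨p, hp0, hp⟩ := C4_left hMp x Q' hx hL hQ' (fun p q => by
    change e (x p ⊗ₜ[k] x q - x q ⊗ₜ[k] x p) ∈ Q
    rw [map_sub, he, he]
    exact hdet q p) ⟨j, hj⟩ i
  exact ⟨p, hp0, hp⟩

end Pool.Agent.Lib.MP_240c17_al.Q2.Abc
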