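import Pool.Agent.Lib.MP_240c17_al.Q2.Abc.Spec

/-!
# MP_240c17, project Q2, stage ABC: integrality over the diagonal (author helper12)
-/

set_option autoImplicit false

namespace Pool.Agent.Lib.MP_240c17_al.Q2.Abc

universe u

open Pool.Agent.Lib.MP_240c17_al Pool.Agent.Lib.MP_240c17_al.Two TensorProduct

section

variable {k : Type u} [Field k] {A : Type u} [CommRing A] [Algebra k A] {n : ℕ}

/-- `A ⊗ A` is Noetherian -/
private theorem CA_noeth (x : Fin n → A) (hx : Algebra.adjoin k (Set.range x) = ⊤) :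
    IsNoetherianRing (A ⊗[k] A) := by
  have h1 : Algebra.FiniteType k A := by
    refine ⟨⟨(Set.finite_range x).toFinset, ?_⟩⟩
    rw [Set.Finite.coe_toFinset, hx]
  have h2 : Algebra.FiniteType A (A ⊗[k] A) := inferInstance
  have h3 : Algebra.FiniteType k (A ⊗[k] A) := Algebra.FiniteType.trans h1 h2
  exact Algebra.FiniteType.isNoetherianRing k (A ⊗[k] A)

/-- an element congruent to an element of the subalgebra is integral modulo `Q` -/
private theorem CA_of_mem {T : Type u} [CommRing T] [Algebra k T] (R' : Subalgebra k T)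
    (Q : Ideal T) {t s : T} (hs : s ∈ R') (h : t - s ∈ Q) :
    IsIntegral R' (Ideal.Quotient.mk Q t) := by
  have h1 : Ideal.Quotient.mk Q t = algebraMap R' (T ⧸ Q) ⟨s, hs⟩ :=
    (Ideal.Quotient.eq).2 h
  rw [h1]
  exact isIntegral_algebraMap

/-- all elements are integral if the generators are -/
private theorem CA_all (x : Fin n → A) (hx : Algebra.adjoin k (Set.range x) = ⊤)
    (R' : Subalgebra k (A ⊗[k] A)) (Q : Ideal (A ⊗[k] A))
    (h1 : ∀ i, IsIntegral R' (Ideal.Quotient.mk Q (x i ⊗ₜ[k] (1 : A))))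
    (h2 : ∀ i, IsIntegral R' (Ideal.Quotient.mk Q ((1 : A) ⊗ₜ[k] x i))) (t : A ⊗[k] A) :
    IsIntegral R' (Ideal.Quotient.mk Q t) := by
  have hl : ∀ a : A, IsIntegral R' (Ideal.Quotient.mk Q (a ⊗ₜ[k] (1 : A))) := by
    intro a
    have ha : a ∈ Algebra.adjoin k (Set.range x) := by
      rw [hx]
      exact Algebra.mem_top
    induction ha using Algebra.adjoin_induction with
    | mem y hy =>
      obtain ⟨i, rfl⟩ := hy
      exact h1 i
    | algebraMap r =>
      refine CA_of_mem R' Q (s := algebraMap k (A ⊗[k] A) r) (R'.algebraMap_mem r) ?_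
      rw [Algebra.TensorProduct.algebraMap_apply, sub_self]
      exact Q.zero_mem
    | add y z _ _ hy hz =>
      rw [TensorProduct.add_tmul, map_add]
      exact hy.add hz
    | mul y z _ _ hy hz =>
      have e : (y * z) ⊗ₜ[k] (1 : A) = (y ⊗ₜ[k] (1 : A)) * (z ⊗ₜ[k] (1 : A)) := by
        rw [Algebra.TensorProduct.tmul_mul_tmul, one_mul]
      rw [e, map_mul]
      exact hy.mul hz
  have hr : ∀ a : A, IsIntegral R' (Ideal.Quotient.mk Q ((1 : A) ⊗ₜ[k] a)) := by
    intro a
    have ha : a ∈ Algebra.adjoin k (Set.range x) := by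
      rw [hx]
      exact Algebra.mem_top
    induction ha using Algebra.adjoin_induction with
    | mem y hy =>
      obtain ⟨i, rfl⟩ := hy
      exact h2 i
    | algebraMap r =>
      refine CA_of_mem R' Q (s := algebraMap k (A ⊗[k] A) r) (R'.algebraMap_mem r) ?_
      have e : (1 : A) ⊗ₜ[k] algebraMap k A r = algebraMap k A r ⊗ₜ[k] (1 : A) := by
        rw [Algebra.algebraMap_eq_smul_one, TensorProduct.tmul_smul, TensorProduct.smul_tmul']
      rw [Algebra.TensorProduct.algebraMap_apply, e]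
      change algebraMap k A r ⊗ₜ[k] (1 : A) - algebraMap k A r ⊗ₜ[k] (1 : A) ∈ Q
      rw [sub_self]
      exact Q.zero_mem
    | add y z _ _ hy hz =>
      rw [TensorProduct.tmul_add, map_add]
      exact hy.add hz
    | mul y z _ _ hy hz =>
      have e : (1 : A) ⊗ₜ[k] (y * z) = ((1 : A) ⊗ₜ[k] y) * ((1 : A) ⊗ₜ[k] z) := by
        rw [Algebra.TensorProduct.tmul_mul_tmul, one_mul]
      rw [e, map_mul]
      exact hy.mul hz
  induction t using TensorProduct.induction_on with
  | zero =>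
    rw [map_zero]
    exact isIntegral_zero
  | tmul a b =>
    have e : a ⊗ₜ[k] b = (a ⊗ₜ[k] (1 : A)) * ((1 : A) ⊗ₜ[k] b) := by
      rw [Algebra.TensorProduct.tmul_mul_tmul, one_mul, mul_one]
    rw [e, map_mul]
    exact (hl a).mul (hr b)
  | add y z hy hz =>
    rw [map_add]
    exact hy.add hz

/-- a polynomial relation over `k` gives integrality -/
private theorem CA_alg {T : Type u} [CommRing T] [Algebra k T] (R' : Subalgebra k T)
    (Q : Ideal T) (f : A →ₐ[k] T) (a : A) (p : Polynomial k) (hp : p ≠ 0)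
    (h : f (Polynomial.aeval a p) ∈ Q) : IsIntegral R' (Ideal.Quotient.mk Q (f a)) := by
  have h1 : IsIntegral k (Ideal.Quotient.mk Q (f a)) := by
    rw [← isAlgebraic_iff_isIntegral]
    refine ⟨p, hp, ?_⟩
    have e : Polynomial.aeval (((Ideal.Quotient.mkₐ k Q).comp f) a) p =
        ((Ideal.Quotient.mkₐ k Q).comp f) (Polynomial.aeval a p) :=
      Polynomial.aeval_algHom_apply _ _ _
    refine Eq.trans e ?_
    exact (Ideal.Quotient.eq_zero_iff_mem).2 h
  exact h1.tower_top

end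

theorem tCA : S_C4.{u} → S_Int.{u} → S_CA.{u} := by
  intro h4 hI k _ h2 A _ _ n x d hx hL hK t
  have := CA_noeth x hx
  refine hI (Rd x) (A ⊗[k] A) (fun Q hQ => ?_) t
  have hP : Q.IsPrime := hQ.1.1
  by_cases hc : ∃ p q j j' i : Fin n, eA x d p q j j' i ∉ Q
  · obtain ⟨p, q, j, j', i, he⟩ := hc
    intro t
    obtain ⟨f, hf, hf0⟩ := hK p q j j' i t
    refine ⟨f, hf, ?_⟩
    have h0 : Polynomial.aeval t f * eA x d p q j j' i ∈ Q := by
      rw [hf0]
      exact Q.zero_mem
    exact (hP.mem_or_mem h0).resolve_right he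
  · have hc' : ∀ p q j j' i : Fin n, eA x d p q j j' i ∈ Q := by
      intro p q j j' i
      by_contra h
      exact hc ⟨p, q, j, j', i, h⟩
    have hsum : ∀ i : Fin n, x i ⊗ₜ[k] (1 : A) + (1 : A) ⊗ₜ[k] x i ∈ Rd (k := k) x := fun i =>
      Algebra.subset_adjoin ⟨i, rfl⟩
    have key : ∀ t : A ⊗[k] A, IsIntegral (Rd (k := k) x) (Ideal.Quotient.mk Q t) := by
      by_cases hA : ∀ j, x j ⊗ₜ[k] (1 : A) ∈ Q
      · refine CA_all x hx (Rd x) Q (fun i => ?_) (fun i => ?_)
        · exact CA_of_mem (Rd x) Q (s := 0) (Subalgebra.zero_mem _) (by rw [sub_zero]; exact hA i)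
        · refine CA_of_mem (Rd x) Q (hsum i) ?_
          rw [sub_add_cancel_right]
          exact Q.neg_mem (hA i)
      by_cases hB : ∀ j, (1 : A) ⊗ₜ[k] x j ∈ Q
      · refine CA_all x hx (Rd x) Q (fun i => ?_) (fun i => ?_)
        · refine CA_of_mem (Rd x) Q (hsum i) ?_
          rw [sub_add_cancel_left]
          exact Q.neg_mem (hB i)
        · exact CA_of_mem (Rd x) Q (s := 0) (Subalgebra.zero_mem _) (by rw [sub_zero]; exact hB i)
      by_cases hD : ∀ i, x i ⊗ₜ[k] (1 : A) - (1 : A) ⊗ₜ[k] x i ∈ Q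
      · have hh : ∀ z : A ⊗[k] A, (2⁻¹ : k) • (z + z) = z := by
          intro z
          rw [← two_smul k z, smul_smul, inv_mul_cancel₀ h2, one_smul]
        have hs : ∀ i, (2⁻¹ : k) • (x i ⊗ₜ[k] (1 : A) + (1 : A) ⊗ₜ[k] x i) ∈ Rd x := fun i =>
          Subalgebra.smul_mem _ (hsum i) _
        have hm : ∀ (c : k) {z : A ⊗[k] A}, z ∈ Q → c • z ∈ Q := by
          intro c z hz
          rw [Algebra.smul_def]
          exact Q.mul_mem_left _ hz
        refine CA_all x hx (Rd x) Q (fun i => ?_) (fun i => ?_)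
        · refine CA_of_mem (Rd x) Q (hs i) ?_
          have e : x i ⊗ₜ[k] (1 : A) - (2⁻¹ : k) • (x i ⊗ₜ[k] (1 : A) + (1 : A) ⊗ₜ[k] x i) =
              (2⁻¹ : k) • (x i ⊗ₜ[k] (1 : A) - (1 : A) ⊗ₜ[k] x i) := by
            conv_lhs => rw [← hh (x i ⊗ₜ[k] (1 : A)), ← smul_sub]
            refine congrArg (fun z => (2⁻¹ : k) • z) ?_
            rw [hh]
            abel
          rw [e]
          exact hm _ (hD i)
        · refine CA_of_mem (Rd x) Q (hs i) ?_
          have e : (1 : A) ⊗ₜ[k] x i - (2⁻¹ : k) • (x i ⊗ₜ[k] (1 : A) + (1 : A) ⊗ₜ[k] x i) =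
              (2⁻¹ : k) • (-(x i ⊗ₜ[k] (1 : A) - (1 : A) ⊗ₜ[k] x i)) := by
            conv_lhs => rw [← hh ((1 : A) ⊗ₜ[k] x i), ← smul_sub]
            refine congrArg (fun z => (2⁻¹ : k) • z) ?_
            rw [hh]
            abel
          rw [e]
          exact hm _ (Q.neg_mem (hD i))
      push Not at hA hB hD
      obtain ⟨j, hj⟩ := hA
      obtain ⟨j', hj'⟩ := hB
      obtain ⟨i, hi⟩ := hD
      have hjj : x j ⊗ₜ[k] x j' ∉ Q := by
        intro h
        have e : x j ⊗ₜ[k] x j' = (x j ⊗ₜ[k] (1 : A)) * ((1 : A) ⊗ₜ[k] x j') := by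
          rw [Algebra.TensorProduct.tmul_mul_tmul, one_mul, mul_one]
        rw [e] at h
        rcases hP.mem_or_mem h with h | h
        · exact hj h
        · exact hj' h
      have hpq : ∀ p q, x p ⊗ₜ[k] x q - x q ⊗ₜ[k] x p ∈ Q := by
        intro p q
        have h := hc' p q j j' i
        unfold eA at h
        rcases hP.mem_or_mem h with h | h
        · rcases hP.mem_or_mem h with h | h
          · exact hP.mem_of_pow_mem d h
          · exact absurd h hjj
        · exact absurd h hi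
      have h5 := h4 k A n x Q hx hL hQ hpq ⟨j, hj⟩ ⟨j', hj'⟩
      refine CA_all x hx (Rd x) Q (fun i => ?_) (fun i => ?_)
      · obtain ⟨⟨p, hp, hp'⟩, -⟩ := h5 i
        exact CA_alg (Rd x) Q (Algebra.TensorProduct.includeLeft (R := k) (S := k) (A := A)
          (B := A)) (x i) p hp hp'
      · obtain ⟨-, p, hp, hp'⟩ := h5 i
        exact CA_alg (Rd x) Q (Algebra.TensorProduct.includeRight (R := k) (A := A) (B := A))
          (x i) p hp hp'
    intro t
    obtain ⟨f, hf, hf0⟩ := key t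
    refine ⟨f, hf, ?_⟩
    rw [← Ideal.Quotient.eq_zero_iff_mem, ← hf0]
    rw [Polynomial.aeval_def, Polynomial.hom_eval₂]
    rfl

end Pool.Agent.Lib.MP_240c17_al.Q2.Abc
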