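import Pool.Agent.Lib.MP_240c17_al.Q2.Defs2
import Pool.Agent.Lib.MP_240c17_al.Two.Spec
import Pool.Agent.Lib.MP_240c17_al.Mono

/-!
# MP_240c17, project Q2, stage ABC: definitions
-/

set_option autoImplicit false

namespace Pool.Agent.Lib.MP_240c17_al.Q2.Abc

universe u v

open Pool.Agent.Lib.MP_240c17_al Pool.Agent.Lib.MP_240c17_al.Two TensorProduct

/-! ## operators on `M ⊗ M` -/

section ops
variable {k : Type u} [Field k] {M : Type u} [AddCommGroup M] [Module k M]

/-- action on the left factor -/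
noncomputable def Lt (f : Module.End k M) : Module.End k (M ⊗[k] M) := LinearMap.rTensor M f

/-- action on the right factor -/
noncomputable def Rt (f : Module.End k M) : Module.End k (M ⊗[k] M) := LinearMap.lTensor M f

@[simp] theorem Lt_tmul (f : Module.End k M) (a b : M) : Lt f (a ⊗ₜ[k] b) = f a ⊗ₜ[k] b := rfl

@[simp] theorem Rt_tmul (f : Module.End k M) (a b : M) : Rt f (a ⊗ₜ[k] b) = a ⊗ₜ[k] f b := rfl

theorem Lt_add (f g : Module.End k M) : Lt (f + g) = Lt f + Lt g := LinearMap.rTensor_add M f g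
theorem Rt_add (f g : Module.End k M) : Rt (f + g) = Rt f + Rt g := LinearMap.lTensor_add M f g
theorem Lt_smul (c : k) (f : Module.End k M) : Lt (c • f) = c • Lt f := LinearMap.rTensor_smul M c f
theorem Rt_smul (c : k) (f : Module.End k M) : Rt (c • f) = c • Rt f := LinearMap.lTensor_smul M c f
theorem Lt_mul (f g : Module.End k M) : Lt (f * g) = Lt f * Lt g := LinearMap.rTensor_mul M f g
theorem Rt_mul (f g : Module.End k M) : Rt (f * g) = Rt f * Rt g := LinearMap.lTensor_mul M f g
theorem Lt_zero : Lt (0 : Module.End k M) = 0 := LinearMap.rTensor_zero M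
theorem Rt_zero : Rt (0 : Module.End k M) = 0 := LinearMap.lTensor_zero M

theorem Lt_Rt (f g : Module.End k M) : Lt f * Rt g = Rt g * Lt f := by
  refine TensorProduct.ext' fun a b => ?_
  rfl

/-- the diagonal action -/
noncomputable def Sg (f : Module.End k M) : Module.End k (M ⊗[k] M) := Lt f + Rt f

variable {n : ℕ}

/-- `(X p ⊗ X q - X q ⊗ X p) ^ d * (X j ⊗ X j')` -/
noncomputable def e0 (X : Fin n → Module.End k M) (d : ℕ) (p q j j' : Fin n) :
    Module.End k (M ⊗[k] M) :=
  (Lt (X p) * Rt (X q) - Lt (X q) * Rt (X p)) ^ d * (Lt (X j) * Rt (X j'))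

end ops

/-! ## `G' / G''` as a module -/

/-- `mk : G' → M` is the projection onto `G' / G''` and `X i` is the bracket with `x i` -/
structure IsDer {k : Type u} [Field k] {G : Type u} [LieRing G] [LieAlgebra k G] {n : ℕ}
    (x : Fin n → G) {M : Type u} [AddCommGroup M] [Module k M]
    (mk : ↥(D1 k G).toSubmodule →ₗ[k] M) (X : Fin n → Module.End k M) : Prop where
  surj : Function.Surjective mk
  ker : ∀ a, mk a = 0 ↔ (a : G) ∈ D2 k G
  act : ∀ (i : Fin n) (a b : ↥(D1 k G).toSubmodule), (b : G) = ⁅(a : G), x i⁆ → X i (mk a) = mk b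

/-- class at most 2 by abelian -/
def IsN2A (G : Type u) [LieRing G] : Prop := ∀ a b c d e f : G, ⁅⁅⁅a, b⁆, ⁅c, d⁆⁆, ⁅e, f⁆⁆ = 0

/-- the identity `J_d`: `∑ (-1)^i C(d,i) [a y₁^(d-i) y₂^i, b y₁^i y₂^(d-i)]` -/
def Jd (k : Type u) [Field k] {G : Type u} [LieRing G] [LieAlgebra k G] (d : ℕ) (y1 y2 a b : G) : G :=
  ∑ i ∈ Finset.range (d + 1), ((-1 : k) ^ i * (d.choose i : k)) •
    ⁅rb y2 i (rb y1 (d - i) a), rb y2 (d - i) (rb y1 i b)⁆

/-! ## the algebra `V ⋉ (M ⊕ M ⊕ M ⊗ M)` -/

section HM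
variable {k : Type u} [Field k] {M : Type u} [AddCommGroup M] [Module k M] {n : ℕ}

/-- the action of `∑ t i x i` -/
noncomputable def actT (X : Fin n → Module.End k M) (t : Fin n → k) : Module.End k M :=
  ∑ i, t i • X i

theorem actT_add (X : Fin n → Module.End k M) (s t : Fin n → k) :
    actT X (s + t) = actT X s + actT X t := by
  simp only [actT, Pi.add_apply, add_smul, Finset.sum_add_distrib]

theorem actT_smul (X : Fin n → Module.End k M) (c : k) (t : Fin n → k) :
    actT X (c • t) = c • actT X t := by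
  simp only [actT, Pi.smul_apply, smul_eq_mul, mul_smul, Finset.smul_sum]

theorem actT_zero (X : Fin n → Module.End k M) : actT X 0 = 0 := by
  simp [actT]

theorem actT_single (X : Fin n → Module.End k M) (i : Fin n) : actT X (Pi.single i 1) = X i := by
  rw [actT, Finset.sum_eq_single i]
  · simp
  · intro j _ hj
    simp [Pi.single_apply, hj]
  · intro h
    exact absurd (Finset.mem_univ i) h

theorem actT_comm {X : Fin n → Module.End k M} (hX : ∀ i j, Commute (X i) (X j)) (s t : Fin n → k) :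
    Commute (actT X s) (actT X t) := by
  unfold actT
  refine Commute.sum_left _ _ _ fun i _ => Commute.sum_right _ _ _ fun j _ => ?_
  exact ((hX i j).smul_left _).smul_right _

/-- `V ⋉ (M ⊕ M ⊕ M ⊗ M)`, `V = k^n` acting by the commuting operators `X i` -/
@[ext] structure HM (X : Fin n → Module.End k M) (hX : ∀ i j, Commute (X i) (X j)) where
  t : Fin n → k
  a : M
  b : M
  c : M ⊗[k] M

namespace HM
variable {X : Fin n → Module.End k M} {hX : ∀ i j, Commute (X i) (X j)}

instance : Zero (HM X hX) := ⟨⟨0, 0, 0, 0⟩⟩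
instance : Add (HM X hX) := ⟨fun p q => ⟨p.t + q.t, p.a + q.a, p.b + q.b, p.c + q.c⟩⟩
instance : Neg (HM X hX) := ⟨fun p => ⟨-p.t, -p.a, -p.b, -p.c⟩⟩
instance : Sub (HM X hX) := ⟨fun p q => ⟨p.t - q.t, p.a - q.a, p.b - q.b, p.c - q.c⟩⟩
instance : SMul k (HM X hX) := ⟨fun r p => ⟨r • p.t, r • p.a, r • p.b, r • p.c⟩⟩

@[simp] theorem zero_t : (0 : HM X hX).t = 0 := rfl
@[simp] theorem zero_a : (0 : HM X hX).a = 0 := rfl
@[simp] theorem zero_b : (0 : HM X hX).b = 0 := rfl
@[simp] theorem zero_c : (0 : HM X hX).c = 0 := rfl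
@[simp] theorem add_t (p q : HM X hX) : (p + q).t = p.t + q.t := rfl
@[simp] theorem add_a (p q : HM X hX) : (p + q).a = p.a + q.a := rfl
@[simp] theorem add_b (p q : HM X hX) : (p + q).b = p.b + q.b := rfl
@[simp] theorem add_c (p q : HM X hX) : (p + q).c = p.c + q.c := rfl
@[simp] theorem neg_t (p : HM X hX) : (-p).t = -p.t := rfl
@[simp] theorem neg_a (p : HM X hX) : (-p).a = -p.a := rfl
@[simp] theorem neg_b (p : HM X hX) : (-p).b = -p.b := rfl
@[simp] theorem neg_c (p : HM X hX) : (-p).c = -p.c := rfl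
@[simp] theorem sub_t (p q : HM X hX) : (p - q).t = p.t - q.t := rfl
@[simp] theorem sub_a (p q : HM X hX) : (p - q).a = p.a - q.a := rfl
@[simp] theorem sub_b (p q : HM X hX) : (p - q).b = p.b - q.b := rfl
@[simp] theorem sub_c (p q : HM X hX) : (p - q).c = p.c - q.c := rfl
@[simp] theorem smul_t (r : k) (p : HM X hX) : (r • p).t = r • p.t := rfl
@[simp] theorem smul_a (r : k) (p : HM X hX) : (r • p).a = r • p.a := rfl
@[simp] theorem smul_b (r : k) (p : HM X hX) : (r • p).b = r • p.b := rfl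
@[simp] theorem smul_c (r : k) (p : HM X hX) : (r • p).c = r • p.c := rfl

instance : AddCommGroup (HM X hX) where
  add_assoc p q r := by
    refine HM.ext ?_ ?_ ?_ ?_ <;> simp [add_assoc]
  zero_add p := by
    refine HM.ext ?_ ?_ ?_ ?_ <;> simp
  add_zero p := by
    refine HM.ext ?_ ?_ ?_ ?_ <;> simp
  add_comm p q := by
    refine HM.ext ?_ ?_ ?_ ?_ <;> simp [add_comm]
  neg_add_cancel p := by
    refine HM.ext ?_ ?_ ?_ ?_ <;> simp
  sub_eq_add_neg p q := by
    refine HM.ext ?_ ?_ ?_ ?_ <;> simp [sub_eq_add_neg]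
  nsmul := nsmulRec
  zsmul := zsmulRec

instance : Module k (HM X hX) where
  one_smul p := by
    refine HM.ext ?_ ?_ ?_ ?_ <;> simp
  mul_smul r s p := by
    refine HM.ext ?_ ?_ ?_ ?_ <;> simp [mul_smul]
  smul_zero r := by
    refine HM.ext ?_ ?_ ?_ ?_ <;> simp
  smul_add r p q := by
    refine HM.ext ?_ ?_ ?_ ?_ <;> simp
  add_smul r s p := by
    refine HM.ext ?_ ?_ ?_ ?_ <;> simp [add_smul]
  zero_smul p := by
    refine HM.ext ?_ ?_ ?_ ?_ <;> simp

noncomputable instance : Bracket (HM X hX) (HM X hX) :=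
  ⟨fun p q => ⟨0, actT X q.t p.a - actT X p.t q.a, actT X q.t p.b - actT X p.t q.b,
    p.a ⊗ₜ[k] q.b - q.a ⊗ₜ[k] p.b + (Sg (actT X q.t) p.c - Sg (actT X p.t) q.c)⟩⟩

@[simp] theorem lie_t (p q : HM X hX) : ⁅p, q⁆.t = 0 := rfl
@[simp] theorem lie_a (p q : HM X hX) : ⁅p, q⁆.a = actT X q.t p.a - actT X p.t q.a := rfl
@[simp] theorem lie_b (p q : HM X hX) : ⁅p, q⁆.b = actT X q.t p.b - actT X p.t q.b := rfl
@[simp] theorem lie_c (p q : HM X hX) : ⁅p, q⁆.c = p.a ⊗ₜ[k] q.b - q.a ⊗ₜ[k] p.b +
    (Sg (actT X q.t) p.c - Sg (actT X p.t) q.c) := rfl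

theorem comm_apply (hX : ∀ i j, Commute (X i) (X j)) (s t : Fin n → k) (m : M) :
    actT X s (actT X t m) = actT X t (actT X s m) :=
  LinearMap.congr_fun (actT_comm hX s t) m

theorem Sg_comm (hX : ∀ i j, Commute (X i) (X j)) (s t : Fin n → k) (z : M ⊗[k] M) :
    Sg (actT X s) (Sg (actT X t) z) = Sg (actT X t) (Sg (actT X s) z) := by
  have h : Sg (actT X s) * Sg (actT X t) = Sg (actT X t) * Sg (actT X s) := by
    refine TensorProduct.ext' fun a b => ?_
    simp only [Sg, Module.End.mul_apply, LinearMap.add_apply, Lt_tmul, Rt_tmul, map_add]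
    rw [comm_apply hX s t a, comm_apply hX s t b]
    abel
  exact LinearMap.congr_fun h z

theorem Sg_tmul (f : Module.End k M) (a b : M) : Sg f (a ⊗ₜ[k] b) = f a ⊗ₜ[k] b + a ⊗ₜ[k] f b := rfl

theorem Sg_add (f g : Module.End k M) : Sg (f + g) = Sg f + Sg g := by
  rw [Sg, Lt_add, Rt_add, Sg, Sg]
  abel

theorem Sg_zero : Sg (0 : Module.End k M) = 0 := by
  rw [Sg, Lt_zero, Rt_zero, add_zero]

theorem Sg_smul (c : k) (f : Module.End k M) : Sg (c • f) = c • Sg f := by
  rw [Sg, Lt_smul, Rt_smul, Sg, smul_add]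

noncomputable instance : LieRing (HM X hX) where
  add_lie p q r := by
    refine HM.ext ?_ ?_ ?_ ?_
    · simp
    · simp only [add_a, add_t, lie_a, map_add, actT_add, LinearMap.add_apply]
      abel
    · simp only [add_b, add_t, lie_b, map_add, actT_add, LinearMap.add_apply]
      abel
    · simp only [add_a, add_b, add_c, add_t, lie_c, map_add, actT_add, Sg_add, LinearMap.add_apply,
        TensorProduct.add_tmul, TensorProduct.tmul_add]
      abel
  lie_add p q r := by
    refine HM.ext ?_ ?_ ?_ ?_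
    · simp
    · simp only [add_a, add_t, lie_a, map_add, actT_add, LinearMap.add_apply]
      abel
    · simp only [add_b, add_t, lie_b, map_add, actT_add, LinearMap.add_apply]
      abel
    · simp only [add_a, add_b, add_c, add_t, lie_c, map_add, actT_add, Sg_add, LinearMap.add_apply,
        TensorProduct.add_tmul, TensorProduct.tmul_add]
      abel
  lie_self p := by
    refine HM.ext ?_ ?_ ?_ ?_
    · simp
    · simp only [zero_a, lie_a, sub_self]
    · simp only [zero_b, lie_b, sub_self]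
    · simp only [zero_c, lie_c, sub_self, add_zero]
  leibniz_lie p q r := by
    refine HM.ext ?_ ?_ ?_ ?_
    · simp
    · simp only [add_a, lie_a, lie_t, map_sub, actT_zero, LinearMap.zero_apply]
      rw [comm_apply hX q.t r.t p.a, comm_apply hX p.t r.t q.a, comm_apply hX p.t q.t r.a]
      abel
    · simp only [add_b, lie_b, lie_t, map_sub, actT_zero, LinearMap.zero_apply]
      rw [comm_apply hX q.t r.t p.b, comm_apply hX p.t r.t q.b, comm_apply hX p.t q.t r.b]
      abel
    · simp only [add_c, lie_a, lie_b, lie_c, lie_t, map_sub, map_add, actT_zero, Sg_zero, Sg_tmul,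
        LinearMap.zero_apply, TensorProduct.sub_tmul, TensorProduct.tmul_sub]
      rw [Sg_comm hX q.t r.t p.c, Sg_comm hX p.t r.t q.c, Sg_comm hX p.t q.t r.c]
      abel

noncomputable instance : LieAlgebra k (HM X hX) where
  lie_smul r p q := by
    refine HM.ext ?_ ?_ ?_ ?_
    · simp
    · simp only [smul_a, smul_t, lie_a, map_smul, actT_smul, LinearMap.smul_apply, smul_sub]
    · simp only [smul_b, smul_t, lie_b, map_smul, actT_smul, LinearMap.smul_apply, smul_sub]
    · simp only [smul_a, smul_b, smul_c, smul_t, lie_c, map_smul, actT_smul, Sg_smul,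
        LinearMap.smul_apply, TensorProduct.smul_tmul', TensorProduct.tmul_smul, smul_sub, smul_add]

end HM
end HM

end Pool.Agent.Lib.MP_240c17_al.Q2.Abc
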