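import Pool.Agent.Lib.MP_240c17_al.Q2.Abc.Defs

/-!
# MP_240c17, project Q2, stage ABC: the algebra `L y ⋉ T_{≤3}(L[[s]])`, the generic algebra
-/

set_option autoImplicit false

namespace Pool.Agent.Lib.MP_240c17_al.Q2.Abc

universe u v

open Pool.Agent.Lib.MP_240c17_al Pool.Agent.Lib.MP_240c17_al.Two TensorProduct

section sh
variable {L : Type u} [Field L]

/-- multiplication with `s` on sequences of coefficients -/
def sh1 : (ℕ → L) →ₗ[L] (ℕ → L) where
  toFun a i := match i with
    | 0 => 0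
    | i + 1 => a i
  map_add' a b := by
    funext i
    cases i with
    | zero => exact (add_zero 0).symm
    | succ i => rfl
  map_smul' c a := by
    funext i
    cases i with
    | zero => exact (mul_zero c).symm
    | succ i => rfl

@[simp] theorem sh1_zero (a : ℕ → L) : sh1 a 0 = 0 := rfl
@[simp] theorem sh1_succ (a : ℕ → L) (i : ℕ) : sh1 a (i + 1) = a i := rfl

theorem sh1_mul_right (a : ℕ → L) (x : L) (i : ℕ) : sh1 (fun i => a i * x) i = sh1 a i * x := by
  cases i with
  | zero => exact (zero_mul x).symm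
  | succ i => rfl

theorem sh1_mul_left (a : ℕ → L) (x : L) (i : ℕ) : sh1 (fun i => x * a i) i = x * sh1 a i := by
  cases i with
  | zero => exact (mul_zero x).symm
  | succ i => rfl

theorem sh1_sub (a b : ℕ → L) (i : ℕ) : sh1 (fun i => a i - b i) i = sh1 a i - sh1 b i := by
  cases i with
  | zero => exact (sub_zero 0).symm
  | succ i => rfl

theorem sh1_add' (a b : ℕ → L) (i : ℕ) : sh1 (fun i => a i + b i) i = sh1 a i + sh1 b i := by
  cases i with
  | zero => exact (add_zero 0).symm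
  | succ i => rfl

/-- `s ⊗ 1 + 1 ⊗ s` -/
def sh2 : (ℕ → ℕ → L) →ₗ[L] (ℕ → ℕ → L) where
  toFun b i j := sh1 (fun i' => b i' j) i + sh1 (b i) j
  map_add' a b := by
    funext i j
    show sh1 (fun i' => a i' j + b i' j) i + sh1 (fun j' => a i j' + b i j') j =
      (sh1 (fun i' => a i' j) i + sh1 (a i) j) + (sh1 (fun i' => b i' j) i + sh1 (b i) j)
    rw [sh1_add', sh1_add']
    ring
  map_smul' c a := by
    funext i j
    show sh1 (fun i' => c * a i' j) i + sh1 (fun j' => c * a i j') j =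
      c * (sh1 (fun i' => a i' j) i + sh1 (a i) j)
    rw [sh1_mul_left, sh1_mul_left]
    ring

theorem sh2_apply (b : ℕ → ℕ → L) (i j : ℕ) :
    sh2 b i j = sh1 (fun i' => b i' j) i + sh1 (b i) j := rfl

/-- `s ⊗ 1 ⊗ 1 + 1 ⊗ s ⊗ 1 + 1 ⊗ 1 ⊗ s` -/
def sh3 : (ℕ → ℕ → ℕ → L) →ₗ[L] (ℕ → ℕ → ℕ → L) where
  toFun c i j l := sh1 (fun i' => c i' j l) i + sh1 (fun j' => c i j' l) j + sh1 (c i j) l
  map_add' a b := by
    funext i j l
    show sh1 (fun i' => a i' j l + b i' j l) i + sh1 (fun j' => a i j' l + b i j' l) j +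
      sh1 (fun l' => a i j l' + b i j l') l =
      (sh1 (fun i' => a i' j l) i + sh1 (fun j' => a i j' l) j + sh1 (a i j) l) +
      (sh1 (fun i' => b i' j l) i + sh1 (fun j' => b i j' l) j + sh1 (b i j) l)
    rw [sh1_add', sh1_add', sh1_add']
    ring
  map_smul' c a := by
    funext i j l
    show sh1 (fun i' => c * a i' j l) i + sh1 (fun j' => c * a i j' l) j +
      sh1 (fun l' => c * a i j l') l =
      c * (sh1 (fun i' => a i' j l) i + sh1 (fun j' => a i j' l) j + sh1 (a i j) l)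
    rw [sh1_mul_left, sh1_mul_left, sh1_mul_left]
    ring

theorem sh3_apply (c : ℕ → ℕ → ℕ → L) (i j l : ℕ) :
    sh3 c i j l = sh1 (fun i' => c i' j l) i + sh1 (fun j' => c i j' l) j + sh1 (c i j) l := rfl

/-- `a ⊗ a' - a' ⊗ a` -/
def wdg : (ℕ → L) →ₗ[L] (ℕ → L) →ₗ[L] (ℕ → ℕ → L) :=
  LinearMap.mk₂ L (fun a a' i j => a i * a' j - a' i * a j)
    (by
      intro a b c
      funext i j
      simp only [Pi.add_apply]
      ring)
    (by
      intro r a b
      funext i j
      simp only [Pi.smul_apply, smul_eq_mul]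
      ring)
    (by
      intro a b c
      funext i j
      simp only [Pi.add_apply]
      ring)
    (by
      intro r a b
      funext i j
      simp only [Pi.smul_apply, smul_eq_mul]
      ring)

theorem wdg_apply (a a' : ℕ → L) (i j : ℕ) : wdg a a' i j = a i * a' j - a' i * a j := rfl

/-- `b ⊗ a - a ⊗ b` -/
def cm : (ℕ → ℕ → L) →ₗ[L] (ℕ → L) →ₗ[L] (ℕ → ℕ → ℕ → L) :=
  LinearMap.mk₂ L (fun b a i j l => b i j * a l - a i * b j l)
    (by
      intro a b c
      funext i j l
      simp only [Pi.add_apply]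
      ring)
    (by
      intro r a b
      funext i j l
      simp only [Pi.smul_apply, smul_eq_mul]
      ring)
    (by
      intro a b c
      funext i j l
      simp only [Pi.add_apply]
      ring)
    (by
      intro r a b
      funext i j l
      simp only [Pi.smul_apply, smul_eq_mul]
      ring)

theorem cm_apply (b : ℕ → ℕ → L) (a : ℕ → L) (i j l : ℕ) :
    cm b a i j l = b i j * a l - a i * b j l := rfl

theorem wdg_self (a : ℕ → L) : wdg a a = 0 := by
  funext i j
  rw [wdg_apply]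
  exact sub_self _

theorem wdg_swap (a b : ℕ → L) : wdg a b = -wdg b a := by
  funext i j
  show wdg a b i j = -(wdg b a i j)
  rw [wdg_apply, wdg_apply]
  ring

theorem sh2_wdg (a b : ℕ → L) : sh2 (wdg a b) = wdg (sh1 a) b + wdg a (sh1 b) := by
  funext i j
  show sh1 (fun i' => a i' * b j - b i' * a j) i + sh1 (fun j' => a i * b j' - b i * a j') j =
    (sh1 a i * b j - b i * sh1 a j) + (a i * sh1 b j - sh1 b i * a j)
  rw [sh1_sub, sh1_sub, sh1_mul_right, sh1_mul_right, sh1_mul_left, sh1_mul_left]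
  ring

theorem sh3_cm (b : ℕ → ℕ → L) (a : ℕ → L) : sh3 (cm b a) = cm (sh2 b) a + cm b (sh1 a) := by
  funext i j l
  show sh1 (fun i' => b i' j * a l - a i' * b j l) i + sh1 (fun j' => b i j' * a l - a i * b j' l) j +
    sh1 (fun l' => b i j * a l' - a i * b j l') l =
    ((sh1 (fun i' => b i' j) i + sh1 (b i) j) * a l -
      a i * (sh1 (fun i' => b i' l) j + sh1 (b j) l)) + (b i j * sh1 a l - sh1 a i * b j l)
  rw [sh1_sub, sh1_sub, sh1_sub, sh1_mul_right, sh1_mul_right, sh1_mul_right, sh1_mul_left,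
    sh1_mul_left, sh1_mul_left]
  ring

theorem jac (a b c : ℕ → L) : cm (wdg a b) c + cm (wdg b c) a + cm (wdg c a) b = 0 := by
  funext i j l
  show (cm (wdg a b) c i j l + cm (wdg b c) a i j l) + cm (wdg c a) b i j l = 0
  simp only [cm_apply, wdg_apply]
  ring

end sh

/-- `L y ⋉ (T¹ ⊕ T² ⊕ T³)` -/
@[ext] structure ET (L : Type u) where
  t : L
  a : ℕ → L
  b : ℕ → ℕ → L
  c : ℕ → ℕ → ℕ → L

namespace ET
variable {k : Type v} [Field k] {L : Type u} [Field L] [Algebra k L]

instance : Zero (ET L) := ⟨⟨0, 0, 0, 0⟩⟩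
instance : Add (ET L) := ⟨fun p q => ⟨p.t + q.t, p.a + q.a, p.b + q.b, p.c + q.c⟩⟩
instance : Neg (ET L) := ⟨fun p => ⟨-p.t, -p.a, -p.b, -p.c⟩⟩
instance : Sub (ET L) := ⟨fun p q => ⟨p.t - q.t, p.a - q.a, p.b - q.b, p.c - q.c⟩⟩
instance : SMul k (ET L) := ⟨fun r p => ⟨r • p.t, r • p.a, r • p.b, r • p.c⟩⟩

@[simp] theorem zero_t : (0 : ET L).t = 0 := rfl
@[simp] theorem zero_a : (0 : ET L).a = 0 := rfl
@[simp] theorem zero_b : (0 : ET L).b = 0 := rfl
@[simp] theorem zero_c : (0 : ET L).c = 0 := rfl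
@[simp] theorem add_t (p q : ET L) : (p + q).t = p.t + q.t := rfl
@[simp] theorem add_a (p q : ET L) : (p + q).a = p.a + q.a := rfl
@[simp] theorem add_b (p q : ET L) : (p + q).b = p.b + q.b := rfl
@[simp] theorem add_c (p q : ET L) : (p + q).c = p.c + q.c := rfl
@[simp] theorem neg_t (p : ET L) : (-p).t = -p.t := rfl
@[simp] theorem neg_a (p : ET L) : (-p).a = -p.a := rfl
@[simp] theorem neg_b (p : ET L) : (-p).b = -p.b := rfl
@[simp] theorem neg_c (p : ET L) : (-p).c = -p.c := rfl
@[simp] theorem sub_t (p q : ET L) : (p - q).t = p.t - q.t := rfl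
@[simp] theorem sub_a (p q : ET L) : (p - q).a = p.a - q.a := rfl
@[simp] theorem sub_b (p q : ET L) : (p - q).b = p.b - q.b := rfl
@[simp] theorem sub_c (p q : ET L) : (p - q).c = p.c - q.c := rfl
@[simp] theorem smul_t (r : k) (p : ET L) : (r • p).t = r • p.t := rfl
@[simp] theorem smul_a (r : k) (p : ET L) : (r • p).a = r • p.a := rfl
@[simp] theorem smul_b (r : k) (p : ET L) : (r • p).b = r • p.b := rfl
@[simp] theorem smul_c (r : k) (p : ET L) : (r • p).c = r • p.c := rfl

instance : AddCommGroup (ET L) where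
  add_assoc p q r := by
    refine ET.ext ?_ ?_ ?_ ?_ <;> simp [add_assoc]
  zero_add p := by
    refine ET.ext ?_ ?_ ?_ ?_ <;> simp
  add_zero p := by
    refine ET.ext ?_ ?_ ?_ ?_ <;> simp
  add_comm p q := by
    refine ET.ext ?_ ?_ ?_ ?_ <;> simp [add_comm]
  neg_add_cancel p := by
    refine ET.ext ?_ ?_ ?_ ?_ <;> simp
  sub_eq_add_neg p q := by
    refine ET.ext ?_ ?_ ?_ ?_ <;> simp [sub_eq_add_neg]
  nsmul := nsmulRec
  zsmul := zsmulRec

instance : Module k (ET L) where
  one_smul p := by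
    refine ET.ext ?_ ?_ ?_ ?_ <;> simp
  mul_smul r s p := by
    refine ET.ext ?_ ?_ ?_ ?_ <;> simp [mul_smul]
  smul_zero r := by
    refine ET.ext ?_ ?_ ?_ ?_ <;> simp
  smul_add r p q := by
    refine ET.ext ?_ ?_ ?_ ?_ <;> simp
  add_smul r s p := by
    refine ET.ext ?_ ?_ ?_ ?_ <;> simp [add_smul]
  zero_smul p := by
    refine ET.ext ?_ ?_ ?_ ?_ <;> simp

instance : Bracket (ET L) (ET L) :=
  ⟨fun p q => ⟨0, q.t • sh1 p.a - p.t • sh1 q.a, wdg p.a q.a + (q.t • sh2 p.b - p.t • sh2 q.b),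
    cm p.b q.a - cm q.b p.a + (q.t • sh3 p.c - p.t • sh3 q.c)⟩⟩

@[simp] theorem lie_t (p q : ET L) : ⁅p, q⁆.t = 0 := rfl
@[simp] theorem lie_a (p q : ET L) : ⁅p, q⁆.a = q.t • sh1 p.a - p.t • sh1 q.a := rfl
@[simp] theorem lie_b (p q : ET L) :
    ⁅p, q⁆.b = wdg p.a q.a + (q.t • sh2 p.b - p.t • sh2 q.b) := rfl
@[simp] theorem lie_c (p q : ET L) :
    ⁅p, q⁆.c = cm p.b q.a - cm q.b p.a + (q.t • sh3 p.c - p.t • sh3 q.c) := rfl

instance : LieRing (ET L) where
  add_lie p q r := by
    refine ET.ext ?_ ?_ ?_ ?_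
    · simp
    · simp only [add_a, add_t, lie_a, map_add, smul_add, add_smul]
      abel
    · simp only [add_a, add_b, add_t, lie_b, map_add, smul_add, add_smul, LinearMap.add_apply]
      abel
    · simp only [add_a, add_b, add_c, add_t, lie_c, map_add, smul_add, add_smul,
        LinearMap.add_apply]
      abel
  lie_add p q r := by
    refine ET.ext ?_ ?_ ?_ ?_
    · simp
    · simp only [add_a, add_t, lie_a, map_add, smul_add, add_smul]
      abel
    · simp only [add_a, add_b, add_t, lie_b, map_add, smul_add, add_smul, LinearMap.add_apply]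
      abel
    · simp only [add_a, add_b, add_c, add_t, lie_c, map_add, smul_add, add_smul,
        LinearMap.add_apply]
      abel
  lie_self p := by
    refine ET.ext ?_ ?_ ?_ ?_
    · simp
    · simp only [zero_a, lie_a, sub_self]
    · simp only [zero_b, lie_b, sub_self, wdg_self, add_zero]
    · simp only [zero_c, lie_c, sub_self, add_zero]
  leibniz_lie p q r := by
    refine ET.ext ?_ ?_ ?_ ?_
    · simp
    · simp only [add_a, lie_a, lie_t, map_sub, map_smul, zero_smul]
      module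
    · simp only [add_b, lie_a, lie_b, lie_t, map_sub, map_add, map_smul, zero_smul, sh2_wdg,
        LinearMap.sub_apply, LinearMap.smul_apply]
      rw [wdg_swap q.a (sh1 p.a)]
      module
    · have hJ := jac p.a q.a r.a
      have e1 : cm (wdg q.a r.a) p.a = -(cm (wdg p.a q.a) r.a) - cm (wdg r.a p.a) q.a := by
        rw [← sub_eq_zero, ← hJ]
        abel
      simp only [add_c, lie_a, lie_b, lie_c, lie_t, map_sub, map_add, map_smul, zero_smul, sh3_cm,
        LinearMap.sub_apply, LinearMap.add_apply, LinearMap.smul_apply]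
      rw [e1, wdg_swap r.a p.a, map_neg, LinearMap.neg_apply]
      module

instance : LieAlgebra k (ET L) where
  lie_smul r p q := by
    have ht : (r • q).t = algebraMap k L r * q.t := Algebra.smul_def r q.t
    have ha : (r • q).a = algebraMap k L r • q.a := by
      funext i
      exact Algebra.smul_def r (q.a i)
    have hb : (r • q).b = algebraMap k L r • q.b := by
      funext i j
      exact Algebra.smul_def r (q.b i j)
    have hc : (r • q).c = algebraMap k L r • q.c := by
      funext i j l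
      exact Algebra.smul_def r (q.c i j l)
    refine ET.ext ?_ ?_ ?_ ?_
    · simp
    · have h1 : (r • ⁅p, q⁆).a = algebraMap k L r • ⁅p, q⁆.a := by
        funext i
        exact Algebra.smul_def r _
      rw [h1, lie_a, lie_a, ht, ha, map_smul]
      module
    · have h1 : (r • ⁅p, q⁆).b = algebraMap k L r • ⁅p, q⁆.b := by
        funext i j
        exact Algebra.smul_def r _
      rw [h1, lie_b, lie_b, ht, ha, hb, map_smul, map_smul]
      module
    · have h1 : (r • ⁅p, q⁆).c = algebraMap k L r • ⁅p, q⁆.c := by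
        funext i j l
        exact Algebra.smul_def r _
      rw [h1, lie_c, lie_c, ht, ha, hb, hc, map_smul, map_smul, map_smul]
      simp only [LinearMap.smul_apply]
      module

end ET

/-- the smallest subspace of `T² ⊕ T³` stable under `s` and the bracket with `T¹` containing the
given elements -/
def JT {L : Type u} [Field L] {m : ℕ} (ρ : Fin m → (ℕ → ℕ → L)) (τ : Fin m → (ℕ → ℕ → ℕ → L)) :
    Submodule L ((ℕ → ℕ → L) × (ℕ → ℕ → ℕ → L)) :=
  Submodule.span L ((Set.range fun p : Fin m × ℕ => ((sh2 ^ p.2) (ρ p.1), (sh3 ^ p.2) (τ p.1))) ∪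
    Set.range fun p : Fin m × ℕ × (ℕ → L) => (0, cm ((sh2 ^ p.2.1) (ρ p.1)) p.2.2))

/-! ## the generic algebra -/

/-- `k[x_1, …, x_n]` -/
abbrev Pn (k : Type u) [Field k] (n : ℕ) : Type u := MvPolynomial (Fin n) k

/-- `t ↦ ∑ t_i x_i` -/
noncomputable def fP (k : Type u) [Field k] (n : ℕ) : (Fin n → k) →ₗ[k] Pn k n where
  toFun t := ∑ i, t i • MvPolynomial.X i
  map_add' s t := by
    simp only [Pi.add_apply, add_smul, Finset.sum_add_distrib]
  map_smul' c t := by
    simp only [Pi.smul_apply, smul_eq_mul, mul_smul, Finset.smul_sum, RingHom.id_apply]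

/-- `t ↦ (∑ t_i x_i) ⊗ 1` -/
noncomputable def fN (k : Type u) [Field k] (n : ℕ) : (Fin n → k) →ₗ[k] (Pn k n ⊗[k] Pn k n) :=
  (Algebra.TensorProduct.includeLeft (R := k) (S := k) (A := Pn k n)
    (B := Pn k n)).toLinearMap.comp (fP k n)

/-- `t ↦ 1 ⊗ (∑ t_i x_i)` -/
noncomputable def gN (k : Type u) [Field k] (n : ℕ) : (Fin n → k) →ₗ[k] (Pn k n ⊗[k] Pn k n) :=
  (Algebra.TensorProduct.includeRight (R := k) (A := Pn k n) (B := Pn k n)).toLinearMap.comp
    (fP k n)

/-- the generic algebra `k^n ⋉ (U a ⊕ U b ⊕ U c)`, `U = k[x] ⊗ k[x]` -/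
abbrev GN (k : Type u) [Field k] (n : ℕ) : Type u := HL (fN k n) (gN k n)

/-- the homomorphism with `x_i ↦ (e_i, δ_ip, δ_iq, 0)` -/
noncomputable def Th (k : Type u) [Field k] {n : ℕ} (p q : Fin n) :
    FreeLieAlgebra k (Fin n) →ₗ⁅k⁆ GN k n :=
  FreeLieAlgebra.lift k fun i =>
    ⟨Pi.single i 1, if i = p then 1 else 0, if i = q then 1 else 0, 0⟩

/-- the metabelian algebra `k^n ⋉ k[x] a` (the components `b`, `c` are not used) -/
abbrev MP (k : Type u) [Field k] (n : ℕ) : Type u := HL (fP k n) (0 : (Fin n → k) →ₗ[k] Pn k n)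

/-- the homomorphism with `x_i ↦ (e_i, δ_ip)` -/
noncomputable def FX (k : Type u) [Field k] {n : ℕ} (p : Fin n) :
    FreeLieAlgebra k (Fin n) →ₗ⁅k⁆ MP k n :=
  FreeLieAlgebra.lift k fun i => ⟨Pi.single i 1, if i = p then 1 else 0, 0, 0⟩

/-- Fox derivative -/
noncomputable def dF {k : Type u} [Field k] {n : ℕ} (p : Fin n) (w : FreeLieAlgebra k (Fin n)) :
    Pn k n := (FX k p w).a

end Pool.Agent.Lib.MP_240c17_al.Q2.Abc
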