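import Pool.Agent.Lib.MP_240c17_al.Q2.Abc.Spec

/-!
# MP_240c17, project Q2, stage ABC, module Der: the derived algebra modulo the second derived algebra
-/

set_option autoImplicit false

namespace Pool.Agent.Lib.MP_240c17_al.Q2.Abc

universe u

open Pool.Agent.Lib.MP_240c17_al Pool.Agent.Lib.MP_240c17_al.Two TensorProduct

section

variable (k : Type u) [Field k] (G : Type u) [LieRing G] [LieAlgebra k G]

/-- the second derived algebra as a subspace of the derived algebra -/
private def Der_N : Submodule k ↥(D1 k G).toSubmodule :=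
  (D2 k G).toSubmodule.comap (D1 k G).toSubmodule.subtype

private theorem Der_mem_N (a : ↥(D1 k G).toSubmodule) : a ∈ Der_N k G ↔ (a : G) ∈ D2 k G := Iff.rfl

/-- the bracket with `y` on the derived algebra -/
private noncomputable def Der_L (y : G) : ↥(D1 k G).toSubmodule →ₗ[k] ↥(D1 k G).toSubmodule :=
  (adr k y).restrict (p := (D1 k G).toSubmodule) (q := (D1 k G).toSubmodule)
    fun z hz => lie_mem_left k G (D1 k G) z y hz

private theorem Der_L_coe (y : G) (a : ↥(D1 k G).toSubmodule) :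
    ((Der_L k G y a : ↥(D1 k G).toSubmodule) : G) = ⁅(a : G), y⁆ := rfl

private theorem Der_L_N (y : G) : Der_N k G ≤ (Der_N k G).comap (Der_L k G y) := by
  intro a ha
  rw [Submodule.mem_comap, Der_mem_N, Der_L_coe]
  exact lie_mem_left k G (D2 k G) (a : G) y ha

/-- the bracket with `y` on the quotient -/
private noncomputable def Der_X (y : G) :
    Module.End k (↥(D1 k G).toSubmodule ⧸ Der_N k G) :=
  (Der_N k G).mapQ (Der_N k G) (Der_L k G y) (Der_L_N k G y)

private theorem Der_X_mk (y : G) (a : ↥(D1 k G).toSubmodule) :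
    Der_X k G y ((Der_N k G).mkQ a) = (Der_N k G).mkQ (Der_L k G y a) := rfl

private theorem Der_comm (y z : G) : Commute (Der_X k G y) (Der_X k G z) := by
  apply LinearMap.ext
  intro m
  obtain ⟨a, rfl⟩ := (Der_N k G).mkQ_surjective m
  change Der_X k G y (Der_X k G z ((Der_N k G).mkQ a)) =
    Der_X k G z (Der_X k G y ((Der_N k G).mkQ a))
  rw [Der_X_mk, Der_X_mk, Der_X_mk, Der_X_mk, ← sub_eq_zero, ← map_sub, Submodule.mkQ_apply,
    Submodule.Quotient.mk_eq_zero, Der_mem_N]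
  change ⁅⁅(a : G), z⁆, y⁆ - ⁅⁅(a : G), y⁆, z⁆ ∈ D2 k G
  have h1 : ⁅⁅(a : G), z⁆, y⁆ - ⁅⁅(a : G), y⁆, z⁆ = ⁅(a : G), ⁅z, y⁆⁆ := by
    rw [leibniz_lie (a : G) z y, ← lie_skew z ⁅(a : G), y⁆]
    abel
  rw [h1]
  exact LieSubmodule.lie_mem_lie a.2 (LieSubmodule.lie_mem_lie (LieSubmodule.mem_top z)
    (LieSubmodule.mem_top y))

end

theorem tDer : DerFcProp.{u} → CofFgProp.{u} → IdealGenProp.{u} → S_Der.{u} := by
  intro h1 h2 h3 k _ G _ _ n x hx
  classical
  refine ⟨↥(D1 k G).toSubmodule ⧸ Der_N k G, inferInstance, inferInstance, (Der_N k G).mkQ,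
    fun i => Der_X k G (x i), ⟨(Der_N k G).mkQ_surjective, ?_, ?_⟩,
    fun i j => Der_comm k G (x i) (x j), ?_⟩
  · intro a
    rw [Submodule.mkQ_apply, Submodule.Quotient.mk_eq_zero, Der_mem_N]
  · intro i a b hb
    rw [Der_X_mk]
    congr 1
    exact Subtype.ext hb.symm
  · obtain ⟨S, hS⟩ := h2 k G n x hx (D1 k G) (h1 k G n x hx)
    have h4 := h3 k G n x hx (S : Set G)
    rw [hS] at h4
    have hSD : ∀ s ∈ S, s ∈ (D1 k G).toSubmodule := by
      intro s hs
      rw [h4]
      exact subset_gen _ _ hs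
    refine ⟨S.attach.image fun s => (Der_N k G).mkQ ⟨s.1, hSD s.1 s.2⟩, ?_⟩
    rw [eq_top_iff]
    intro m _
    obtain ⟨a, rfl⟩ := (Der_N k G).mkQ_surjective m
    obtain ⟨T, hT⟩ : ∃ T : Set (↥(D1 k G).toSubmodule ⧸ Der_N k G),
        T = ((S.attach.image fun s => (Der_N k G).mkQ ⟨s.1, hSD s.1 s.2⟩ : Finset _) : Set _) :=
      ⟨_, rfl⟩
    rw [← hT]
    have h5 : Two.gen (fun i => adr k (x i)) (S : Set G) ≤
        ((Two.gen (fun i => Der_X k G (x i)) T).comap (Der_N k G).mkQ).map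
          (D1 k G).toSubmodule.subtype := by
      apply gen_le
      · rintro i y ⟨b, hb, rfl⟩
        refine ⟨Der_L k G (x i) b, ?_, rfl⟩
        rw [SetLike.mem_coe, Submodule.mem_comap] at hb ⊢
        rw [← Der_X_mk]
        exact gen_stab _ _ i _ hb
      · intro s hs
        refine ⟨⟨s, hSD s hs⟩, ?_, rfl⟩
        rw [SetLike.mem_coe, Submodule.mem_comap]
        apply subset_gen
        rw [hT, Finset.mem_coe, Finset.mem_image]
        exact ⟨⟨s, hs⟩, Finset.mem_attach _ _, rfl⟩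
    have h6 : (a : G) ∈ Two.gen (fun i => adr k (x i)) (S : Set G) := by
      rw [← h4]
      exact a.2
    obtain ⟨b, hb, hba⟩ := h5 h6
    have h7 : b = a := Subtype.ext hba
    rw [h7] at hb
    exact hb

end Pool.Agent.Lib.MP_240c17_al.Q2.Abc
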