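import Pool.Agent.Lib.MP_240c17_al.Q2.Abc.Spec

/-!
# MP_240c17, project Q2, stage ABC: the homomorphism into `ET L`
-/

set_option autoImplicit false

namespace Pool.Agent.Lib.MP_240c17_al.Q2.Abc

universe u

open Pool.Agent.Lib.MP_240c17_al Pool.Agent.Lib.MP_240c17_al.Two TensorProduct

/-- induction in the free Lie algebra -/
theorem E1_ind {k : Type u} [Field k] {n : ℕ} (P : FreeLieAlgebra k (Fin n) → Prop) (h0 : P 0)
    (hadd : ∀ u v, P u → P v → P (u + v)) (hsmul : ∀ (c : k) u, P u → P (c • u))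
    (hlie : ∀ u v, P u → P v → P ⁅u, v⁆) (hof : ∀ i, P (FreeLieAlgebra.of k i))
    (w : FreeLieAlgebra k (Fin n)) : P w := by
  let K : LieSubalgebra k (FreeLieAlgebra k (Fin n)) :=
    { carrier := {w | P w}
      add_mem' := fun {a b} ha hb => hadd a b ha hb
      zero_mem' := h0
      smul_mem' := fun c a ha => hsmul c a ha
      lie_mem' := fun {a b} ha hb => hlie a b ha hb }
  let f : FreeLieAlgebra k (Fin n) →ₗ⁅k⁆ K :=
    FreeLieAlgebra.lift k fun i => ⟨FreeLieAlgebra.of k i, hof i⟩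
  have h1 : K.incl.comp f = LieHom.id := by
    refine FreeLieAlgebra.hom_ext ?_
    intro i
    rw [LieHom.comp_apply, FreeLieAlgebra.lift_of_apply]
    rfl
  have h2 : (K.incl.comp f) w = w := by rw [h1, LieHom.id_apply]
  rw [← h2]
  exact (f w).2

section brk
variable {k : Type u} [Field k] {G : Type u} [LieRing G] [LieAlgebra k G]

private theorem E1_brk_add_left (a b c : G) : brk2 k (a + b) c = brk2 k a c + brk2 k b c :=
  Subtype.ext (add_lie a b c)

private theorem E1_brk_add_right (a b c : G) : brk2 k a (b + c) = brk2 k a b + brk2 k a c :=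
  Subtype.ext (lie_add a b c)

private theorem E1_brk_smul_left (r : k) (a b : G) : brk2 k (r • a) b = r • brk2 k a b :=
  Subtype.ext (smul_lie r a b)

private theorem E1_brk_smul_right (r : k) (a b : G) : brk2 k a (r • b) = r • brk2 k a b :=
  Subtype.ext (lie_smul r a b)

private theorem E1_brk_zero_left (a : G) : brk2 k 0 a = 0 := Subtype.ext (zero_lie a)

private theorem E1_brk_zero_right (a : G) : brk2 k a 0 = 0 := Subtype.ext (lie_zero a)

private theorem E1_brk_jac (a b c : G) : brk2 k ⁅a, b⁆ c =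
    brk2 k ((brk2 k a c : ↥(D1 k G).toSubmodule) : G) b -
      brk2 k ((brk2 k b c : ↥(D1 k G).toSubmodule) : G) a := by
  refine Subtype.ext ?_
  show ⁅⁅a, b⁆, c⁆ = ⁅⁅a, c⁆, b⁆ - ⁅⁅b, c⁆, a⁆
  rw [lie_lie, ← lie_skew ⁅b, c⁆ a, sub_neg_eq_add, ← lie_skew ⁅a, c⁆ b, add_comm, ← sub_eq_add_neg]

end brk

section cf
variable {k : Type u} [Field k] {L : Type u} [Field L] [Algebra k L]

private theorem E1_cfp_zero : cfp (0 : Polynomial L) = 0 := by
  funext i
  exact Polynomial.coeff_zero i

private theorem E1_cfp_add (p q : Polynomial L) : cfp (p + q) = cfp p + cfp q := by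
  funext i
  exact Polynomial.coeff_add p q i

private theorem E1_cfp_sub (p q : Polynomial L) : cfp (p - q) = cfp p - cfp q := by
  funext i
  exact Polynomial.coeff_sub p q i

private theorem E1_cfp_smul (c : k) (p : Polynomial L) : cfp (c • p) = c • cfp p := by
  funext i
  exact Polynomial.coeff_smul c p i

private theorem E1_cfp_mul (t : L) (p : Polynomial L) :
    cfp (Polynomial.C t * Polynomial.X * p) = t • sh1 (cfp p) := by
  funext i
  show (Polynomial.C t * Polynomial.X * p).coeff i = t * sh1 (cfp p) i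
  rw [mul_assoc, Polynomial.coeff_C_mul]
  cases i with
  | zero => rw [sh1_zero, Polynomial.mul_coeff_zero, Polynomial.coeff_X_zero, zero_mul]
  | succ i => rw [sh1_succ, Polynomial.coeff_X_mul]; rfl

end cf

theorem tE1 : S_E1.{u} := by
  intro k _ G _ _ n π M _ _ mk X L _ _ θ φ j hD hφ
  have hof : ∀ i, ThE π mk θ φ j (FreeLieAlgebra.of k i) = ⟨θ i,
      cfp (φ (mk (brk2 k (π (FreeLieAlgebra.of k i)) (π (FreeLieAlgebra.of k j))))), 0, 0⟩ := by
    intro i
    unfold ThE
    rw [FreeLieAlgebra.lift_of_apply]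
  have h2 : ∀ w (m : ↥(D1 k G).toSubmodule), φ (mk (brk2 k (m : G) (π w))) =
      Polynomial.C (ThE π mk θ φ j w).t * Polynomial.X * φ (mk m) := by
    intro w
    refine E1_ind (fun w => ∀ (m : ↥(D1 k G).toSubmodule), φ (mk (brk2 k (m : G) (π w))) =
      Polynomial.C (ThE π mk θ φ j w).t * Polynomial.X * φ (mk m)) ?_ ?_ ?_ ?_ ?_ w
    · intro m
      rw [map_zero π, map_zero (ThE π mk θ φ j), E1_brk_zero_right, map_zero, map_zero, ET.zero_t,
        Polynomial.C_0, zero_mul, zero_mul]
    · intro u v hu hv m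
      rw [map_add π, map_add (ThE π mk θ φ j), E1_brk_add_right, map_add, map_add, hu m, hv m, ET.add_t,
        Polynomial.C_add]
      ring
    · intro c u hu m
      rw [map_smul π, map_smul (ThE π mk θ φ j), E1_brk_smul_right, map_smul, map_smul, hu m, ET.smul_t,
        ← Polynomial.smul_C, smul_mul_assoc, smul_mul_assoc]
    · intro u v _ _ m
      have e1 : mk (brk2 k (m : G) (π ⁅u, v⁆)) = 0 := by
        rw [hD.ker, LieHom.map_lie]
        exact LieSubmodule.lie_mem_lie m.2
          (LieSubmodule.lie_mem_lie (LieSubmodule.mem_top _) (LieSubmodule.mem_top _))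
      rw [e1, map_zero, LieHom.map_lie, ET.lie_t, Polynomial.C_0, zero_mul, zero_mul]
    · intro i m
      rw [hof i, ← hφ i, hD.act i m (brk2 k (m : G) (π (FreeLieAlgebra.of k i))) rfl]
  refine ⟨fun w => ?_, h2⟩
  refine E1_ind (fun w => (ThE π mk θ φ j w).a =
    cfp (φ (mk (brk2 k (π w) (π (FreeLieAlgebra.of k j)))))) ?_ ?_ ?_ ?_ ?_ w
  · show (ThE π mk θ φ j 0).a = _
    rw [map_zero π, map_zero (ThE π mk θ φ j), E1_brk_zero_left, map_zero, map_zero, ET.zero_a,
      E1_cfp_zero]
  · intro u v hu hv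
    rw [map_add π, map_add (ThE π mk θ φ j), E1_brk_add_left, map_add, map_add, ET.add_a, hu, hv,
      E1_cfp_add]
  · intro c u hu
    rw [map_smul π, map_smul (ThE π mk θ φ j), E1_brk_smul_left, map_smul, map_smul, ET.smul_a, hu,
      E1_cfp_smul]
  · intro u v hu hv
    rw [LieHom.map_lie, LieHom.map_lie, ET.lie_a, E1_brk_jac, map_sub, map_sub, h2, h2, E1_cfp_sub,
      E1_cfp_mul, E1_cfp_mul, hu, hv]
  · intro i
    rw [hof i]

end Pool.Agent.Lib.MP_240c17_al.Q2.Abc
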