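import Pool.Agent.Lib.MP_240c17_al.Q2.Abc.Spec

/-!
# MP_240c17, project Q2, stage ABC, module E2: the kernel in `ET L`
-/

set_option autoImplicit false

namespace Pool.Agent.Lib.MP_240c17_al.Q2.Abc

universe u

open Pool.Agent.Lib.MP_240c17_al Pool.Agent.Lib.MP_240c17_al.Two TensorProduct

section J
variable {L : Type u} [Field L] {m : ℕ} (ρ : Fin m → (ℕ → ℕ → L)) (τ : Fin m → (ℕ → ℕ → ℕ → L))

private theorem E2_gen1 (i : Fin m) (e : ℕ) : ((sh2 ^ e) (ρ i), (sh3 ^ e) (τ i)) ∈ JT ρ τ :=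
  Submodule.subset_span (Or.inl ⟨(i, e), rfl⟩)

private theorem E2_gen2 (i : Fin m) (e : ℕ) (a : ℕ → L) :
    ((0, cm ((sh2 ^ e) (ρ i)) a) : (ℕ → ℕ → L) × (ℕ → ℕ → ℕ → L)) ∈ JT ρ τ :=
  Submodule.subset_span (Or.inr ⟨(i, e, a), rfl⟩)

private theorem E2_base (i : Fin m) : (ρ i, τ i) ∈ JT ρ τ := by
  have h := E2_gen1 ρ τ i 0
  rwa [pow_zero, pow_zero, Module.End.one_apply, Module.End.one_apply] at h

private theorem E2_sh {b : ℕ → ℕ → L} {c : ℕ → ℕ → ℕ → L} (h : (b, c) ∈ JT ρ τ) :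
    (sh2 b, sh3 c) ∈ JT ρ τ := by
  have hle : JT ρ τ ≤ (JT ρ τ).comap (LinearMap.prodMap (sh2 (L := L)) (sh3 (L := L))) := by
    refine Submodule.span_le.mpr ?_
    rintro z (⟨⟨i, e⟩, rfl⟩ | ⟨⟨i, e, a⟩, rfl⟩)
    · show (sh2 ((sh2 ^ e) (ρ i)), sh3 ((sh3 ^ e) (τ i))) ∈ JT ρ τ
      have h1 := E2_gen1 ρ τ i (e + 1)
      rwa [pow_succ', pow_succ', Module.End.mul_apply, Module.End.mul_apply] at h1
    · show (sh2 (0 : ℕ → ℕ → L), sh3 (cm ((sh2 ^ e) (ρ i)) a)) ∈ JT ρ τ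
      have h1 := E2_gen2 ρ τ i (e + 1) a
      rw [pow_succ', Module.End.mul_apply] at h1
      have h2 := E2_gen2 ρ τ i e (sh1 a)
      have h3 := (JT ρ τ).add_mem h1 h2
      rw [map_zero, sh3_cm]
      rwa [Prod.mk_add_mk, add_zero] at h3
  exact hle h

private theorem E2_cm {b : ℕ → ℕ → L} {c : ℕ → ℕ → ℕ → L} (h : (b, c) ∈ JT ρ τ) (a : ℕ → L) :
    ((0, cm b a) : (ℕ → ℕ → L) × (ℕ → ℕ → ℕ → L)) ∈ JT ρ τ := by
  have hle : JT ρ τ ≤ (JT ρ τ).comap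
      ((LinearMap.inr L (ℕ → ℕ → L) (ℕ → ℕ → ℕ → L)).comp
        (((cm (L := L)).flip a).comp (LinearMap.fst L (ℕ → ℕ → L) (ℕ → ℕ → ℕ → L)))) := by
    refine Submodule.span_le.mpr ?_
    rintro z (⟨⟨i, e⟩, rfl⟩ | ⟨⟨i, e, a'⟩, rfl⟩)
    · exact E2_gen2 ρ τ i e a
    · show ((0, cm (0 : ℕ → ℕ → L) a) : (ℕ → ℕ → L) × (ℕ → ℕ → ℕ → L)) ∈ JT ρ τ
      rw [map_zero, LinearMap.zero_apply]
      exact (JT ρ τ).zero_mem
  exact hle h

end J

/-- the ideal of the words with image in `J` -/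
private def E2_I {k : Type u} [Field k] {F : Type u} [LieRing F] [LieAlgebra k F] {L : Type u}
    [Field L] [Algebra k L] (Θ : F →ₗ⁅k⁆ ET L) {m : ℕ} (ρ : Fin m → (ℕ → ℕ → L))
    (τ : Fin m → (ℕ → ℕ → ℕ → L)) : LieIdeal k F where
  carrier := {w | (Θ w).t = 0 ∧ (Θ w).a = 0 ∧ ((Θ w).b, (Θ w).c) ∈ JT ρ τ}
  add_mem' := by
    rintro v w ⟨h1, h2, h3⟩ ⟨g1, g2, g3⟩
    refine ⟨?_, ?_, ?_⟩
    · rw [map_add, ET.add_t, h1, g1, add_zero]
    · rw [map_add, ET.add_a, h2, g2, add_zero]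
    · rw [map_add, ET.add_b, ET.add_c]
      exact (JT ρ τ).add_mem h3 g3
  zero_mem' := by
    refine ⟨?_, ?_, ?_⟩
    · rw [map_zero, ET.zero_t]
    · rw [map_zero, ET.zero_a]
    · rw [map_zero, ET.zero_b, ET.zero_c]
      exact (JT ρ τ).zero_mem
  smul_mem' := by
    rintro r w ⟨h1, h2, h3⟩
    refine ⟨?_, ?_, ?_⟩
    · rw [map_smul, ET.smul_t, h1, smul_zero]
    · rw [map_smul, ET.smul_a, h2, smul_zero]
    · have h4 := (JT ρ τ).smul_mem (algebraMap k L r) h3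
      rw [Prod.smul_mk, algebraMap_smul, algebraMap_smul] at h4
      rw [map_smul, ET.smul_b, ET.smul_c]
      exact h4
  lie_mem := by
    rintro v w ⟨h1, h2, h3⟩
    refine ⟨?_, ?_, ?_⟩
    · rw [LieHom.map_lie, ET.lie_t]
    · rw [LieHom.map_lie, ET.lie_a, h1, h2, map_zero, smul_zero, zero_smul, sub_zero]
    · rw [LieHom.map_lie, ET.lie_b, ET.lie_c, h1, h2, map_zero, map_zero, zero_smul, zero_smul,
        zero_add, zero_sub, zero_sub, zero_sub]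
      have h4 := (JT ρ τ).smul_mem (-(Θ v).t) (E2_sh ρ τ h3)
      have h5 := (JT ρ τ).sub_mem h4 (E2_cm ρ τ h3 (Θ v).a)
      rw [Prod.smul_mk, Prod.mk_sub_mk, sub_zero, neg_smul, neg_smul] at h5
      have h6 : -(Θ v).t • sh3 (Θ w).c = -((Θ v).t • sh3 (Θ w).c) := neg_smul _ _
      rw [show -cm (Θ w).b (Θ v).a + -((Θ v).t • sh3 (Θ w).c) =
        -((Θ v).t • sh3 (Θ w).c) - cm (Θ w).b (Θ v).a by abel]
      exact h5

private theorem E2_D1 (k : Type u) [Field k] {G : Type u} [LieRing G] [LieAlgebra k G]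
    (P : G → Prop) (h0 : P 0) (hadd : ∀ a b, P a → P b → P (a + b))
    (hs : ∀ (c : k) a, P a → P (c • a)) (hb : ∀ a b : G, P ⁅a, b⁆) :
    ∀ x ∈ D1 k G, P x := by
  intro x hx
  have h1 : x ∈ (D1 k G).toSubmodule := hx
  rw [LieSubmodule.lieIdeal_oper_eq_linear_span'] at h1
  refine Submodule.span_induction ?_ h0 (fun a b _ _ ha hb' => hadd a b ha hb')
    (fun c a _ ha => hs c a ha) h1
  rintro _ ⟨a, _, b, _, rfl⟩
  exact hb a b

private theorem E2_nil (k : Type u) [Field k] {G : Type u} [LieRing G] [LieAlgebra k G]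
    (h : IsN2A G) : ∀ x ∈ D1 k G, ∀ y ∈ D1 k G, ∀ z ∈ D1 k G, ⁅⁅x, y⁆, z⁆ = 0 := by
  refine E2_D1 k (fun x => ∀ y ∈ D1 k G, ∀ z ∈ D1 k G, ⁅⁅x, y⁆, z⁆ = 0) ?_ ?_ ?_ ?_
  · intro y _ z _
    rw [zero_lie, zero_lie]
  · intro a b ha hb y hy z hz
    rw [add_lie, add_lie, ha y hy z hz, hb y hy z hz, add_zero]
  · intro c a ha y hy z hz
    rw [smul_lie, smul_lie, ha y hy z hz, smul_zero]
  intro a b
  refine E2_D1 k (fun y => ∀ z ∈ D1 k G, ⁅⁅⁅a, b⁆, y⁆, z⁆ = 0) ?_ ?_ ?_ ?_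
  · intro z _
    rw [lie_zero, zero_lie]
  · intro y y' hy hy' z hz
    rw [lie_add, add_lie, hy z hz, hy' z hz, add_zero]
  · intro c y hy z hz
    rw [lie_smul, smul_lie, hy z hz, smul_zero]
  intro c d
  refine E2_D1 k (fun z => ⁅⁅⁅a, b⁆, ⁅c, d⁆⁆, z⁆ = 0) ?_ ?_ ?_ ?_
  · rw [lie_zero]
  · intro z z' hz hz'
    rw [lie_add, hz, hz', add_zero]
  · intro r z hz
    rw [lie_smul, hz, smul_zero]
  · intro e f
    exact h a b c d e f

/-- **E2** -/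
theorem tE2 : S_E1.{u} → S_E2.{u} := by
  classical
  intro hE1 k _ G _ _ n π S M _ _ mk X L _ _ θ φ j hπ hker hder hN hφ hφ0
  obtain ⟨hA, hT⟩ := hE1 k G n π M mk X L θ φ j hder hφ
  -- an element with `t = 0`
  obtain ⟨m0, hm0⟩ : ∃ m0 : M, φ m0 ≠ 0 := by
    by_contra hc
    refine hφ0 (LinearMap.ext fun m => ?_)
    by_contra h
    exact hc ⟨m, h⟩
  obtain ⟨α0, hα0⟩ := hder.surj m0
  have ht0 : ∀ w, mk (brk2 k (α0 : G) (π w)) = 0 → (ThE π mk θ φ j w).t = 0 := by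
    intro w hw
    have h1 := hT w α0
    rw [hw, map_zero, hα0] at h1
    rcases mul_eq_zero.mp h1.symm with h2 | h2
    · rcases mul_eq_zero.mp h2 with h3 | h3
      · exact Polynomial.C_eq_zero.mp h3
      · exact absurd h3 Polynomial.X_ne_zero
    · exact absurd h2 hm0
  let Θ := ThE π mk θ φ j
  let e : Fin S.card ≃ ↥S := S.equivFin.symm
  let ρ : Fin S.card → (ℕ → ℕ → L) := fun i => (Θ (e i : FreeLieAlgebra k (Fin n))).b
  let τ : Fin S.card → (ℕ → ℕ → ℕ → L) := fun i => (Θ (e i : FreeLieAlgebra k (Fin n))).c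
  have hSI : (S : Set (FreeLieAlgebra k (Fin n))) ⊆ E2_I Θ ρ τ := by
    intro r hr
    have hr0 : π r = 0 := by
      have h1 : r ∈ π.ker := by
        rw [hker]
        exact LieSubmodule.subset_lieSpan hr
      exact LieHom.mem_ker.mp h1
    refine ⟨?_, ?_, ?_⟩
    · refine ht0 r ?_
      rw [hder.ker]
      show ⁅(α0 : G), π r⁆ ∈ D2 k G
      rw [hr0, lie_zero]
      exact (D2 k G).zero_mem
    · have h1 := hA r
      have h2 : mk (brk2 k (π r) (π (FreeLieAlgebra.of k j))) = 0 := by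
        rw [hder.ker]
        show ⁅π r, π (FreeLieAlgebra.of k j)⁆ ∈ D2 k G
        rw [hr0, zero_lie]
        exact (D2 k G).zero_mem
      rw [h2, map_zero] at h1
      refine h1.trans ?_
      funext i
      exact Polynomial.coeff_zero i
    · have h1 := E2_base ρ τ (e.symm ⟨r, hr⟩)
      have h2 : ((e (e.symm ⟨r, hr⟩) : ↥S) : FreeLieAlgebra k (Fin n)) = r := by
        rw [Equiv.apply_symm_apply]
      show ((Θ r).b, (Θ r).c) ∈ JT ρ τ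
      rw [← h2]
      exact h1
  have hkI : π.ker ≤ E2_I Θ ρ τ := by
    rw [hker]
    exact LieSubmodule.lieSpan_le.mpr hSI
  refine ⟨S.card, ρ, τ, ?_⟩
  intro m₁ m₂ m₃
  have key : ∀ m' : M, ∃ u : FreeLieAlgebra k (Fin n), π u ∈ D1 k G ∧ (Θ u).t = 0 ∧
      (Θ u).a = cfp (Polynomial.C (θ j) * Polynomial.X * φ m') := by
    intro m'
    obtain ⟨α, rfl⟩ := hder.surj m'
    obtain ⟨u, hu⟩ := hπ (α : G)
    have hαD : (α : G) ∈ D1 k G := α.2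
    refine ⟨u, ?_, ?_, ?_⟩
    · rw [hu]
      exact hαD
    · refine ht0 u ?_
      rw [hder.ker]
      show ⁅(α0 : G), π u⁆ ∈ D2 k G
      rw [hu]
      exact LieSubmodule.lie_mem_lie α0.2 hαD
    · have h1 : (Θ u).a = cfp (φ (mk (brk2 k (π u) (π (FreeLieAlgebra.of k j))))) := hA u
      have h2 : X j (mk α) = mk (brk2 k (π u) (π (FreeLieAlgebra.of k j))) := by
        refine hder.act j α _ ?_
        show ⁅π u, π (FreeLieAlgebra.of k j)⁆ = ⁅(α : G), π (FreeLieAlgebra.of k j)⁆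
        rw [hu]
      rw [h1, ← h2, hφ]
  obtain ⟨u₁, p1, t1, a1⟩ := key m₁
  obtain ⟨u₂, p2, t2, a2⟩ := key m₂
  obtain ⟨u₃, p3, t3, a3⟩ := key m₃
  have hw : ⁅⁅u₁, u₂⁆, u₃⁆ ∈ π.ker := by
    rw [LieHom.mem_ker, LieHom.map_lie, LieHom.map_lie]
    exact E2_nil k hN _ p1 _ p2 _ p3
  obtain ⟨_, _, h3⟩ := hkI hw
  have hb : (Θ ⁅⁅u₁, u₂⁆, u₃⁆).b = 0 := by
    rw [LieHom.map_lie, ET.lie_b, LieHom.map_lie, ET.lie_a, ET.lie_t, t1, t2, t3, zero_smul,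
      zero_smul, zero_smul, zero_smul, sub_zero, map_zero, LinearMap.zero_apply, sub_zero,
      add_zero]
  have hc : (Θ ⁅⁅u₁, u₂⁆, u₃⁆).c = cm (wdg (Θ u₁).a (Θ u₂).a) (Θ u₃).a := by
    rw [LieHom.map_lie, ET.lie_c, LieHom.map_lie, ET.lie_a, ET.lie_t, ET.lie_b, t1, t2, t3,
      zero_smul, zero_smul, zero_smul, zero_smul, zero_smul, zero_smul]
    simp only [sub_zero, add_zero, map_zero]
  rw [← a1, ← a2, ← a3, ← hc, ← hb]
  exact h3

end Pool.Agent.Lib.MP_240c17_al.Q2.Abc
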