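import Pool.Agent.Lib.MP_240c17_al.Q2.Abc.Spec

/-!
# MP_240c17, project Q2, stage ABC: the dimension count
-/

set_option autoImplicit false

namespace Pool.Agent.Lib.MP_240c17_al.Q2.Abc

universe u

open Pool.Agent.Lib.MP_240c17_al Pool.Agent.Lib.MP_240c17_al.Two TensorProduct

section E3
variable {L : Type u} [Field L]

private theorem E3_sh2 (b : ℕ → ℕ → L) (e : ℕ) : ∀ i j : ℕ, i + j < e → (sh2 ^ e) b i j = 0 := by
  induction e with
  | zero => intro i j h; exact absurd h (Nat.not_lt_zero _)
  | succ e ih =>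
    intro i j h
    rw [pow_succ', Module.End.mul_apply, sh2_apply]
    have h1 : sh1 (fun i' => (sh2 ^ e) b i' j) i = 0 := by
      cases i with
      | zero => rfl
      | succ i => exact ih i j (by omega)
    have h2 : sh1 ((sh2 ^ e) b i) j = 0 := by
      cases j with
      | zero => rfl
      | succ j => exact ih i j (by omega)
    rw [h1, h2, add_zero]

private theorem E3_sh3 (c : ℕ → ℕ → ℕ → L) (e : ℕ) :
    ∀ i j l : ℕ, i + j + l < e → (sh3 ^ e) c i j l = 0 := by
  induction e with
  | zero => intro i j l h; exact absurd h (Nat.not_lt_zero _)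
  | succ e ih =>
    intro i j l h
    rw [pow_succ', Module.End.mul_apply, sh3_apply]
    have h1 : sh1 (fun i' => (sh3 ^ e) c i' j l) i = 0 := by
      cases i with
      | zero => rfl
      | succ i => exact ih i j l (by omega)
    have h2 : sh1 (fun j' => (sh3 ^ e) c i j' l) j = 0 := by
      cases j with
      | zero => rfl
      | succ j => exact ih i j l (by omega)
    have h3 : sh1 ((sh3 ^ e) c i j) l = 0 := by
      cases l with
      | zero => rfl
      | succ l => exact ih i j l (by omega)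
    rw [h1, h2, h3, add_zero, add_zero]

/-- the values of the component in `T³` at the points of three consecutive ranges -/
private def E3_P (L : Type u) [Field L] (v K : ℕ) :
    ((ℕ → ℕ → L) × (ℕ → ℕ → ℕ → L)) →ₗ[L] (Fin K × Fin K × Fin K → L) where
  toFun x p := x.2 (v + p.1) (v + K + p.2.1) (v + 2 * K + p.2.2)
  map_add' _ _ := rfl
  map_smul' _ _ := rfl

private theorem E3_P_apply (v K : ℕ) (x : (ℕ → ℕ → L) × (ℕ → ℕ → ℕ → L))
    (p : Fin K × Fin K × Fin K) :
    E3_P L v K x p = x.2 (v + p.1) (v + K + p.2.1) (v + 2 * K + p.2.2) := rfl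

/-- the spanning family -/
private def E3_b {m : ℕ} (ρ : Fin m → (ℕ → ℕ → L)) (τ : Fin m → (ℕ → ℕ → ℕ → L)) (v K N : ℕ) :
    (Fin m × Fin (3 * N)) ⊕ (Fin m × Fin (3 * N) × Fin N) → (Fin K × Fin K × Fin K → L)
  | Sum.inl x => E3_P L v K ((sh2 ^ (x.2 : ℕ)) (ρ x.1), (sh3 ^ (x.2 : ℕ)) (τ x.1))
  | Sum.inr x => E3_P L v K (0, cm ((sh2 ^ (x.2.1 : ℕ)) (ρ x.1)) (Pi.single (x.2.2 : ℕ) 1))

private theorem E3_le {m : ℕ} (ρ : Fin m → (ℕ → ℕ → L)) (τ : Fin m → (ℕ → ℕ → ℕ → L)) (v K N : ℕ)
    (hN : N = v + 3 * K) :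
    JT ρ τ ≤ (Submodule.span L (Set.range (E3_b ρ τ v K N))).comap (E3_P L v K) := by
  refine Submodule.span_le.mpr (Set.union_subset ?_ ?_)
  · rintro _ ⟨⟨p, e⟩, rfl⟩
    show E3_P L v K ((sh2 ^ e) (ρ p), (sh3 ^ e) (τ p)) ∈
      Submodule.span L (Set.range (E3_b ρ τ v K N))
    by_cases he : e < 3 * N
    · exact Submodule.subset_span ⟨Sum.inl (p, ⟨e, he⟩), rfl⟩
    · have h0 : E3_P L v K ((sh2 ^ e) (ρ p), (sh3 ^ e) (τ p)) = 0 := by
        funext ⟨i, j, l⟩
        rw [E3_P_apply]
        exact E3_sh3 _ e _ _ _ (by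
          have := i.2
          have := j.2
          have := l.2
          simp only
          omega)
      rw [h0]
      exact Submodule.zero_mem _
  · rintro _ ⟨⟨p, e, a⟩, rfl⟩
    show E3_P L v K (0, cm ((sh2 ^ e) (ρ p)) a) ∈
      Submodule.span L (Set.range (E3_b ρ τ v K N))
    by_cases he : e < 3 * N
    · have h1 : E3_P L v K (0, cm ((sh2 ^ e) (ρ p)) a) =
          ∑ t : Fin N, a t • E3_b ρ τ v K N (Sum.inr (p, ⟨e, he⟩, t)) := by
        funext ⟨i, j, l⟩
        rw [Finset.sum_apply]
        have hi := i.2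
        have hj := j.2
        have hl := l.2
        have hsum : ∀ r : ℕ, r < N → ∑ t : Fin N, a t * (Pi.single (t : ℕ) (1 : L) : ℕ → L) r =
            a r := by
          intro r hr
          rw [Finset.sum_eq_single (⟨r, hr⟩ : Fin N)]
          · rw [Pi.single_eq_same, mul_one]
          · intro t _ ht
            rw [Pi.single_eq_of_ne, mul_zero]
            intro h
            exact ht (Fin.ext h.symm)
          · intro h
            exact absurd (Finset.mem_univ _) h
        have h2 : ∀ t : Fin N, (a t • E3_b ρ τ v K N (Sum.inr (p, ⟨e, he⟩, t))) (i, j, l) =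
            (sh2 ^ e) (ρ p) (v + i) (v + K + j) *
              (a t * (Pi.single (t : ℕ) (1 : L) : ℕ → L) (v + 2 * K + l)) -
            (a t * (Pi.single (t : ℕ) (1 : L) : ℕ → L) (v + i)) *
              (sh2 ^ e) (ρ p) (v + K + j) (v + 2 * K + l) := by
          intro t
          show a t * (cm ((sh2 ^ e) (ρ p)) (Pi.single (t : ℕ) 1) (v + i) (v + K + j)
            (v + 2 * K + l)) = _
          rw [cm_apply]
          ring
        rw [Finset.sum_congr rfl fun t _ => h2 t, Finset.sum_sub_distrib, ← Finset.mul_sum,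
          ← Finset.sum_mul, hsum _ (by omega), hsum _ (by omega)]
        rfl
      rw [h1]
      exact Submodule.sum_mem _ fun t _ => Submodule.smul_mem _ _ (Submodule.subset_span ⟨_, rfl⟩)
    · have h0 : E3_P L v K (0, cm ((sh2 ^ e) (ρ p)) a) = 0 := by
        funext ⟨i, j, l⟩
        have hi := i.2
        have hj := j.2
        have hl := l.2
        rw [E3_P_apply]
        show cm ((sh2 ^ e) (ρ p)) a (v + i) (v + K + j) (v + 2 * K + l) = 0
        rw [cm_apply, E3_sh2 _ e (v + i) (v + K + j) (by omega),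
          E3_sh2 _ e (v + K + j) (v + 2 * K + l) (by omega), zero_mul, mul_zero, sub_zero]
      rw [h0]
      exact Submodule.zero_mem _

/-- division by `q` modulo `X ^ N` -/
private theorem E3_div (q : Polynomial L) (hq : q ≠ 0) : ∃ v : ℕ, ∀ N r : ℕ, v ≤ r →
    ∃ f : Polynomial L, ∀ t < N, cfp (q * f) t = if t = r then 1 else 0 := by
  obtain ⟨v, q₁, h1, h2⟩ := WfDvdMonoid.max_power_factor hq (Polynomial.irreducible_X (R := L))
  refine ⟨v, fun N r hr => ?_⟩
  have h3 : IsCoprime (Polynomial.X ^ N) q₁ :=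
    (((Polynomial.irreducible_X (R := L)).coprime_iff_not_dvd).2 h1).pow_left
  obtain ⟨a, b, hab⟩ := h3
  refine ⟨b * Polynomial.X ^ (r - v), fun t ht => ?_⟩
  have h4 : q * (b * Polynomial.X ^ (r - v)) =
      Polynomial.X ^ r - (a * Polynomial.X ^ r) * Polynomial.X ^ N := by
    have h5 : b * q₁ = 1 - a * Polynomial.X ^ N := by
      rw [← hab]
      ring
    have h6 : (Polynomial.X : Polynomial L) ^ r = Polynomial.X ^ v * Polynomial.X ^ (r - v) := by
      rw [← pow_add]
      congr 1
      omega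
    rw [h2, h6]
    calc Polynomial.X ^ v * q₁ * (b * Polynomial.X ^ (r - v)) =
        (b * q₁) * (Polynomial.X ^ v * Polynomial.X ^ (r - v)) := by ring
      _ = _ := by
        rw [h5]
        ring
  show (q * (b * Polynomial.X ^ (r - v))).coeff t = _
  rw [h4, Polynomial.coeff_sub, Polynomial.coeff_X_pow, Polynomial.coeff_mul_X_pow',
    if_neg (show ¬ N ≤ t by omega), sub_zero]

end E3

theorem tE3 : S_E3.{u} := by
  intro L _ m ρ τ q hq
  obtain ⟨v, hv⟩ := E3_div q hq
  by_contra hcon
  push Not at hcon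
  obtain ⟨K, hK⟩ : ∃ K : ℕ, K = 60 * m + v + 1 := ⟨_, rfl⟩
  obtain ⟨N, hN⟩ : ∃ N : ℕ, N = v + 3 * K := ⟨_, rfl⟩
  have hle := E3_le ρ τ v K N hN
  have htop : Submodule.span L (Set.range (E3_b ρ τ v K N)) = ⊤ := by
    rw [eq_top_iff, ← (Pi.basisFun L (Fin K × Fin K × Fin K)).span_eq]
    refine Submodule.span_le.mpr ?_
    rintro _ ⟨⟨i, j, l⟩, rfl⟩
    rw [Pi.basisFun_apply]
    have hi := i.2
    have hj := j.2
    have hl := l.2
    obtain ⟨f, hf⟩ := hv N (v + i) (by omega)
    obtain ⟨g, hg⟩ := hv N (v + K + j) (by omega)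
    obtain ⟨h, hh⟩ := hv N (v + 2 * K + l) (by omega)
    have h1 := hle (hcon f g h)
    have h2 : E3_P L v K (0, cm (wdg (cfp (q * f)) (cfp (q * g))) (cfp (q * h))) =
        Pi.single (i, j, l) 1 := by
      funext ⟨i', j', l'⟩
      have hi' := i'.2
      have hj' := j'.2
      have hl' := l'.2
      rw [E3_P_apply]
      show cm (wdg (cfp (q * f)) (cfp (q * g))) (cfp (q * h)) (v + i') (v + K + j')
        (v + 2 * K + l') = _
      rw [cm_apply, wdg_apply, wdg_apply, hf (v + i') (by omega), hf (v + K + j') (by omega),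
        hf (v + 2 * K + l') (by omega), hg (v + i') (by omega), hg (v + K + j') (by omega),
        hg (v + 2 * K + l') (by omega), hh (v + i') (by omega), hh (v + 2 * K + l') (by omega)]
      have e1 : ¬ (v + (i' : ℕ) = v + K + j) := by omega
      have e2 : ¬ (v + (i' : ℕ) = v + 2 * K + l) := by omega
      rw [if_neg e1, if_neg e2, zero_mul, zero_mul, sub_zero, sub_zero, Pi.single_apply]
      by_cases c1 : i' = i
      · by_cases c2 : j' = j
        · by_cases c3 : l' = l
          · subst c1
            subst c2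
            subst c3
            simp
          · have c3' : ¬ (v + 2 * K + (l' : ℕ) = v + 2 * K + l) := fun h => c3 (Fin.ext (by omega))
            rw [if_neg c3', mul_zero, if_neg]
            intro h
            exact c3 (congrArg (fun x => x.2.2) h)
        · have c2' : ¬ (v + K + (j' : ℕ) = v + K + j) := fun h => c2 (Fin.ext (by omega))
          rw [if_neg c2', mul_zero, zero_mul, if_neg]
          intro h
          exact c2 (congrArg (fun x => x.2.1) h)
      · have c1' : ¬ (v + (i' : ℕ) = v + i) := fun h => c1 (Fin.ext (by omega))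
        rw [if_neg c1', zero_mul, zero_mul, if_neg]
        intro h
        exact c1 (congrArg (fun x => x.1) h)
    have h3 : E3_P L v K (0, cm (wdg (cfp (q * f)) (cfp (q * g))) (cfp (q * h))) ∈
        Submodule.span L (Set.range (E3_b ρ τ v K N)) := h1
    rw [h2] at h3
    exact h3
  have hrank := finrank_range_le_card (R := L) (E3_b ρ τ v K N)
  unfold Set.finrank at hrank
  rw [htop, finrank_top, Module.finrank_fintype_fun_eq_card] at hrank
  simp only [Fintype.card_prod, Fintype.card_fin, Fintype.card_sum] at hrank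
  have hN4 : N ≤ 4 * K := by omega
  have hN1 : m * (3 * N) ≤ m * (3 * (4 * K)) := by gcongr
  have hN2 : m * (3 * N * N) ≤ m * (3 * (4 * K) * (4 * K)) := by gcongr
  have hK1 : 1 ≤ K := by omega
  have h60 : 60 * m < K := by omega
  have h5 : K * (K * K) ≤ 60 * m * (K * K) := by
    calc K * (K * K) ≤ m * (3 * N) + m * (3 * N * N) := hrank
      _ ≤ m * (3 * (4 * K)) + m * (3 * (4 * K) * (4 * K)) := add_le_add hN1 hN2
      _ = 12 * m * (K * 1) + 48 * m * (K * K) := by ring
      _ ≤ 12 * m * (K * K) + 48 * m * (K * K) := by gcongr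
      _ = 60 * m * (K * K) := by ring
  have h6 : 60 * m * (K * K) < K * (K * K) := by
    have : 0 < K * K := by positivity
    exact Nat.mul_lt_mul_of_pos_right h60 this
  omega

end Pool.Agent.Lib.MP_240c17_al.Q2.Abc
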