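import Pool.Agent.Lib.MP_240c17_al.Q2.Abc.Spec

/-!
# MP_240c17, project Q2, stage ABC, module Fin: assembly of the commutative algebra
-/

set_option autoImplicit false

namespace Pool.Agent.Lib.MP_240c17_al.Q2.Abc

universe u

open Pool.Agent.Lib.MP_240c17_al Pool.Agent.Lib.MP_240c17_al.Two TensorProduct

/-- the commutative algebra generated by the operators -/
theorem Fin_alg {k : Type u} [Field k] {M : Type u} [AddCommGroup M] [Module k M] {n : ℕ}
    (X : Fin n → Module.End k M) (hX : ∀ i j, Commute (X i) (X j)) :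
    ∃ (A : Type u) (_ : CommRing A) (_ : Algebra k A) (ι : A →ₐ[k] Module.End k M)
      (x : Fin n → A), Function.Injective ι ∧ Algebra.adjoin k (Set.range x) = ⊤ ∧
        ∀ i, ι (x i) = X i := by
  have hc : ∀ a ∈ Set.range X, ∀ b ∈ Set.range X, a * b = b * a := by
    rintro a ⟨i, rfl⟩ b ⟨j, rfl⟩
    exact hX i j
  let _ : CommRing ↥(Algebra.adjoin k (Set.range X)) :=
    { (inferInstance : Ring ↥(Algebra.adjoin k (Set.range X))) with
      mul_comm := fun a b => by
        have := Algebra.isMulCommutative_adjoin k hc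
        exact mul_comm' a b }
  refine ⟨↥(Algebra.adjoin k (Set.range X)), inferInstance, inferInstance,
    (Algebra.adjoin k (Set.range X)).val, fun i => ⟨X i, Algebra.subset_adjoin ⟨i, rfl⟩⟩,
    Subtype.val_injective, ?_, fun i => rfl⟩
  have h1 : Set.range (fun i => (⟨X i, Algebra.subset_adjoin ⟨i, rfl⟩⟩ :
      ↥(Algebra.adjoin k (Set.range X)))) =
      ((↑) : ↥(Algebra.adjoin k (Set.range X)) → Module.End k M) ⁻¹' Set.range X := by
    ext a
    constructor
    · rintro ⟨i, rfl⟩
      exact ⟨i, rfl⟩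
    · rintro ⟨i, hi⟩
      exact ⟨i, Subtype.ext hi⟩
  rw [h1]
  exact Algebra.adjoin_adjoin_coe_preimage

/-- **Fin** -/
theorem tFin : S_CA.{u} → S_TrA.{u} → S_TrB.{u} → S_Phi.{u} → S_Fin.{u} := by
  intro hCA hTrA hTrB hPhi k _ h2 M _ _ n X d hX hS hE
  obtain ⟨A, _, _, ι, x, hι, hadj, hx⟩ := Fin_alg X hX
  have hx' : (fun i => ι (x i)) = X := funext hx
  have hS' : ∃ S : Finset M, Two.gen (fun i => ι (x i)) (S : Set M) = ⊤ := by
    rw [hx']
    exact hS
  by_cases hL : Line k x
  · right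
    have h := hPhi k M A ι n x hι hS' hL
    rwa [hx'] at h
  · left
    have hE' : ∀ (p q j j' i : Fin n), ∃ S : Finset (M ⊗[k] M), ∀ w : M ⊗[k] M,
        (Lt (ι (x i)) - Rt (ι (x i))) (e0 (fun i => ι (x i)) d p q j j' w) ∈
          Two.gen (fun i => Sg (ι (x i))) (S : Set (M ⊗[k] M)) := by
      intro p q j j' i
      simp only [hx]
      exact hE p q j j' i
    have hK : ∀ (p q j j' i : Fin n) (t : A ⊗[k] A), MonicKills (Rd x) t (eA x d p q j j' i) :=
      fun p q j j' i => hTrA k M A ι n x d p q j j' i hι hadj (hE' p q j j' i)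
    have hI := hCA k h2 A n x d hadj hL hK
    have h := hTrB k M A ι n x hS' hI
    simp only [hx] at h
    exact h

end Pool.Agent.Lib.MP_240c17_al.Q2.Abc
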