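import Pool.Agent.Lib.MP_240c17_al.Q2.Abc.Spec

/-!
# MP_240c17, project Q2, stage ABC: the Magnus embedding of the free metabelian Lie algebra
-/

set_option autoImplicit false

namespace Pool.Agent.Lib.MP_240c17_al.Q2.Abc

universe u

open Pool.Agent.Lib.MP_240c17_al Pool.Agent.Lib.MP_240c17_al.Two TensorProduct

/-- A polynomial ring acts through commuting endomorphisms. -/
private theorem Fox_hom {k : Type u} [Field k] {Q : Type u} [AddCommGroup Q] [Module k Q]
    {ι : Type} (f : ι → Module.End k Q) (hf : ∀ i j, Commute (f i) (f j)) :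
    ∃ g : MvPolynomial ι k →ₐ[k] Module.End k Q, ∀ i, g (MvPolynomial.X i) = f i := by
  classical
  let A : Subalgebra k (Module.End k Q) := Algebra.adjoin k (Set.range f)
  let _ : CommRing A := Algebra.adjoinCommRingOfComm k (by
    rintro _ ⟨i, rfl⟩ _ ⟨j, rfl⟩
    exact hf i j)
  let e : ι → A := fun i => ⟨f i, Algebra.subset_adjoin ⟨i, rfl⟩⟩
  refine ⟨A.val.comp (MvPolynomial.aeval e), fun i => ?_⟩
  rw [AlgHom.comp_apply, MvPolynomial.aeval_X]
  rfl

/-- the free Lie algebra is generated by the generators -/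
private theorem Fox_span (k : Type u) [Field k] (n : ℕ) :
    LieSubalgebra.lieSpan k (FreeLieAlgebra k (Fin n))
      (Set.range (FreeLieAlgebra.of k : Fin n → FreeLieAlgebra k (Fin n))) = ⊤ := by
  let K := LieSubalgebra.lieSpan k (FreeLieAlgebra k (Fin n))
    (Set.range (FreeLieAlgebra.of k : Fin n → FreeLieAlgebra k (Fin n)))
  let g : FreeLieAlgebra k (Fin n) →ₗ⁅k⁆ K := FreeLieAlgebra.lift k fun i =>
    ⟨FreeLieAlgebra.of k i, LieSubalgebra.subset_lieSpan ⟨i, rfl⟩⟩
  have h : K.incl.comp g = LieHom.id := by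
    apply FreeLieAlgebra.hom_ext
    intro i
    rw [LieHom.comp_apply, FreeLieAlgebra.lift_of_apply]
    rfl
  rw [eq_top_iff]
  intro w _
  have h1 : (g w : FreeLieAlgebra k (Fin n)) = w := LieHom.congr_fun h w
  rw [← h1]
  exact (g w).2

section

variable {k : Type u} [Field k] {n : ℕ} {M : Type u} [AddCommGroup M] [Module k M]

/-- the value of `h p` on a monomial -/
private noncomputable def Fox_H (ψ : Pn k n →ₐ[k] Module.End k M) (ν : Fin n → Fin n → M)
    (p : Fin n) (τ : Fin n →₀ ℕ) : M :=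
  if h : τ.support.Nonempty then
    if τ.support.min' h < p then
      ψ (MvPolynomial.monomial (τ - Finsupp.single (τ.support.min' h) 1) 1)
        (ν p (τ.support.min' h))
    else 0
  else 0

private theorem Fox_H_eq (ψ : Pn k n →ₐ[k] Module.End k M) (ν : Fin n → Fin n → M)
    (p j : Fin n) (τ : Fin n →₀ ℕ) (hj : j ∈ τ.support) (hm : ∀ i ∈ τ.support, j ≤ i)
    (hp : j < p) :
    Fox_H ψ ν p τ = ψ (MvPolynomial.monomial (τ - Finsupp.single j 1) 1) (ν p j) := by
  have hne : τ.support.Nonempty := ⟨j, hj⟩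
  have he : τ.support.min' hne = j :=
    le_antisymm (Finset.min'_le _ _ hj) (hm _ (Finset.min'_mem _ _))
  unfold Fox_H
  rw [dif_pos hne, he, if_pos hp]

private theorem Fox_H_zero (ψ : Pn k n →ₐ[k] Module.End k M) (ν : Fin n → Fin n → M)
    (p : Fin n) (τ : Fin n →₀ ℕ) (hm : ∀ i ∈ τ.support, p ≤ i) :
    Fox_H ψ ν p τ = 0 := by
  unfold Fox_H
  by_cases hne : τ.support.Nonempty
  · rw [dif_pos hne, if_neg (not_lt.2 (hm _ (Finset.min'_mem _ _)))]
  · rw [dif_neg hne]

private theorem Fox_supp (τ : Fin n →₀ ℕ) (q i : Fin n) :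
    i ∈ (τ + Finsupp.single q 1).support ↔ i ∈ τ.support ∨ i = q := by
  rw [Finsupp.mem_support_iff, Finsupp.mem_support_iff, Finsupp.add_apply, Finsupp.single_apply]
  by_cases h : q = i
  · simp [h]
  · have h' : ¬ i = q := fun e => h e.symm
    simp [h, h']

/-- the combinatorial identity, `q < p` -/
private theorem Fox_main (ψ : Pn k n →ₐ[k] Module.End k M) (ν : Fin n → Fin n → M)
    (hJ : ∀ l p q : Fin n, ψ (MvPolynomial.X l) (ν p q) + ψ (MvPolynomial.X p) (ν q l) +
      ψ (MvPolynomial.X q) (ν l p) = 0) (ha : ∀ p q : Fin n, ν p q = -ν q p)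
    (p q : Fin n) (hqp : q < p) (τ : Fin n →₀ ℕ) :
    Fox_H ψ ν p (τ + Finsupp.single q 1) - Fox_H ψ ν q (τ + Finsupp.single p 1) =
      ψ (MvPolynomial.monomial τ 1) (ν p q) := by
  by_cases hc : ∀ i ∈ τ.support, q ≤ i
  · rw [Fox_H_eq ψ ν p q (τ + Finsupp.single q 1) ((Fox_supp τ q q).2 (Or.inr rfl)) ?_ hqp,
      Fox_H_zero ψ ν q (τ + Finsupp.single p 1) ?_, sub_zero, add_tsub_cancel_right]
    · intro i hi
      rcases (Fox_supp τ p i).1 hi with h | h
      · exact hc i h
      · rw [h]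
        exact hqp.le
    · intro i hi
      rcases (Fox_supp τ q i).1 hi with h | h
      · exact hc i h
      · rw [h]
  · push Not at hc
    obtain ⟨i0, hi0, hi0q⟩ := hc
    have hne : τ.support.Nonempty := ⟨i0, hi0⟩
    obtain ⟨j, hj⟩ : ∃ j, j = τ.support.min' hne := ⟨_, rfl⟩
    have hjm : j ∈ τ.support := by
      rw [hj]
      exact Finset.min'_mem _ _
    have hjl : ∀ i ∈ τ.support, j ≤ i := by
      intro i hi
      rw [hj]
      exact Finset.min'_le _ _ hi
    have hjq : j < q := lt_of_le_of_lt (hjl i0 hi0) hi0q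
    have hjp : j < p := hjq.trans hqp
    have hle : Finsupp.single j 1 ≤ τ := by
      rw [Finsupp.single_le_iff]
      exact Nat.one_le_iff_ne_zero.2 (Finsupp.mem_support_iff.1 hjm)
    obtain ⟨σ, hσ⟩ : ∃ σ, τ = σ + Finsupp.single j 1 :=
      ⟨τ - Finsupp.single j 1, (tsub_add_cancel_of_le hle).symm⟩
    have h1 : Fox_H ψ ν p (τ + Finsupp.single q 1) =
        ψ (MvPolynomial.monomial (σ + Finsupp.single q 1) 1) (ν p j) := by
      rw [Fox_H_eq ψ ν p j (τ + Finsupp.single q 1) ((Fox_supp τ q j).2 (Or.inl hjm)) ?_ hjp, hσ,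
        add_right_comm, add_tsub_cancel_right]
      intro i hi
      rcases (Fox_supp τ q i).1 hi with h | h
      · exact hjl i h
      · rw [h]
        exact hjq.le
    have h2 : Fox_H ψ ν q (τ + Finsupp.single p 1) =
        ψ (MvPolynomial.monomial (σ + Finsupp.single p 1) 1) (ν q j) := by
      rw [Fox_H_eq ψ ν q j (τ + Finsupp.single p 1) ((Fox_supp τ p j).2 (Or.inl hjm)) ?_ hjq, hσ,
        add_right_comm, add_tsub_cancel_right]
      intro i hi
      rcases (Fox_supp τ p i).1 hi with h | h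
      · exact hjl i h
      · rw [h]
        exact hjp.le
    have hmon : ∀ (l : Fin n) (m : M), ψ (MvPolynomial.monomial (σ + Finsupp.single l 1) 1) m =
        ψ (MvPolynomial.monomial σ 1) (ψ (MvPolynomial.X l) m) := by
      intro l m
      have e1 : (MvPolynomial.monomial (σ + Finsupp.single l 1) (1 : k)) =
          MvPolynomial.monomial σ 1 * MvPolynomial.X l := by
        rw [MvPolynomial.X, MvPolynomial.monomial_mul, one_mul]
      rw [e1, map_mul, Module.End.mul_apply]
    rw [h1, h2, hσ, hmon, hmon, hmon, ← map_sub]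
    apply congrArg
    have h3 := hJ j p q
    have h4 : ψ (MvPolynomial.X q) (ν j p) = -ψ (MvPolynomial.X q) (ν p j) := by
      rw [ha j p, map_neg]
    rw [h4] at h3
    have h5 : ψ (MvPolynomial.X j) (ν p q) =
        ψ (MvPolynomial.X q) (ν p j) - ψ (MvPolynomial.X p) (ν q j) + (ψ (MvPolynomial.X j) (ν p q) +
          ψ (MvPolynomial.X p) (ν q j) + -ψ (MvPolynomial.X q) (ν p j)) := by abel
    rw [h5, h3, add_zero]

/-- the combinatorial identity -/
private theorem Fox_main' (ψ : Pn k n →ₐ[k] Module.End k M) (ν : Fin n → Fin n → M)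
    (hJ : ∀ l p q : Fin n, ψ (MvPolynomial.X l) (ν p q) + ψ (MvPolynomial.X p) (ν q l) +
      ψ (MvPolynomial.X q) (ν l p) = 0) (ha : ∀ p q : Fin n, ν p q = -ν q p)
    (h0 : ∀ p, ν p p = 0) (p q : Fin n) (τ : Fin n →₀ ℕ) :
    Fox_H ψ ν p (τ + Finsupp.single q 1) - Fox_H ψ ν q (τ + Finsupp.single p 1) =
      ψ (MvPolynomial.monomial τ 1) (ν p q) := by
  rcases lt_trichotomy q p with h | h | h
  · exact Fox_main ψ ν hJ ha p q h τ
  · subst h
    rw [sub_self, h0, map_zero]
  · have := Fox_main ψ ν hJ ha q p h τ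
    rw [ha p q, map_neg, ← this]
    abel

end

/-- the component `a` of the homomorphism `FX`, a linear map -/
private noncomputable def Fox_d (k : Type u) [Field k] {n : ℕ} (p : Fin n) :
    FreeLieAlgebra k (Fin n) →ₗ[k] Pn k n where
  toFun w := dF p w
  map_add' a b := by
    unfold dF
    rw [map_add]
    rfl
  map_smul' c a := by
    unfold dF
    rw [map_smul]
    rfl

/-- the component `t` of the homomorphism `FX`, a linear map -/
private noncomputable def Fox_t (k : Type u) [Field k] {n : ℕ} (p : Fin n) :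
    FreeLieAlgebra k (Fin n) →ₗ[k] (Fin n → k) where
  toFun w := (FX k p w).t
  map_add' a b := by
    rw [map_add]
    rfl
  map_smul' c a := by
    rw [map_smul]
    rfl

private theorem Fox_d_lie (k : Type u) [Field k] {n : ℕ} (p : Fin n)
    (a b : FreeLieAlgebra k (Fin n)) :
    dF p ⁅a, b⁆ = dF p a * fP k n (FX k p b).t - dF p b * fP k n (FX k p a).t := by
  unfold dF
  rw [LieHom.map_lie, HL.lie_a]

private theorem Fox_t_D1 (k : Type u) [Field k] {n : ℕ} (p : Fin n)
    (a : FreeLieAlgebra k (Fin n)) (ha : a ∈ D1 k (FreeLieAlgebra k (Fin n))) :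
    (FX k p a).t = 0 := by
  have h : (D1 k (FreeLieAlgebra k (Fin n))).toSubmodule ≤ LinearMap.ker (Fox_t k p) := by
    rw [LieSubmodule.lieIdeal_oper_eq_linear_span', Submodule.span_le]
    rintro _ ⟨u, _, v, _, rfl⟩
    change (FX k p ⁅u, v⁆).t = 0
    rw [LieHom.map_lie, HL.lie_t]
  exact h ha

private theorem Fox_d_D2 (k : Type u) [Field k] {n : ℕ} (p : Fin n)
    (a : FreeLieAlgebra k (Fin n)) (ha : a ∈ D2 k (FreeLieAlgebra k (Fin n))) :
    dF p a = 0 := by
  have h : (D2 k (FreeLieAlgebra k (Fin n))).toSubmodule ≤ LinearMap.ker (Fox_d k p) := by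
    rw [LieSubmodule.lieIdeal_oper_eq_linear_span', Submodule.span_le]
    rintro _ ⟨u, hu, v, hv, rfl⟩
    change dF p ⁅u, v⁆ = 0
    rw [Fox_d_lie, Fox_t_D1 k p u hu, Fox_t_D1 k p v hv, map_zero, mul_zero, mul_zero, sub_zero]
  exact h ha

private theorem Fox_fP (k : Type u) [Field k] {n : ℕ} (q : Fin n) :
    fP k n (Pi.single q 1) = MvPolynomial.X q := by
  change ∑ i, (Pi.single q (1 : k) : Fin n → k) i • (MvPolynomial.X i : Pn k n) = _
  rw [Finset.sum_eq_single q]
  · rw [Pi.single_eq_same, one_smul]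
  · intro j _ hj
    rw [Pi.single_eq_of_ne hj, zero_smul]
  · intro h
    exact absurd (Finset.mem_univ q) h

private theorem Fox_of (k : Type u) [Field k] {n : ℕ} (p i : Fin n) :
    FX k p (FreeLieAlgebra.of k i) = ⟨Pi.single i 1, if i = p then 1 else 0, 0, 0⟩ := by
  unfold FX
  rw [FreeLieAlgebra.lift_of_apply]

/-- the derived algebra is generated, as an ideal, by the brackets of the generators -/
private theorem Fox_D1 (k : Type u) [Field k] (n : ℕ) :
    D1 k (FreeLieAlgebra k (Fin n)) = LieSubmodule.lieSpan k (FreeLieAlgebra k (Fin n))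
      (Set.range fun pq : Fin n × Fin n =>
        ⁅(FreeLieAlgebra.of k pq.1 : FreeLieAlgebra k (Fin n)), FreeLieAlgebra.of k pq.2⁆) := by
  apply le_antisymm
  · let I : LieIdeal k (FreeLieAlgebra k (Fin n)) :=
      LieSubmodule.lieSpan k (FreeLieAlgebra k (Fin n))
      (Set.range fun pq : Fin n × Fin n =>
        ⁅(FreeLieAlgebra.of k pq.1 : FreeLieAlgebra k (Fin n)), FreeLieAlgebra.of k pq.2⁆)
    have hI : ∀ p q : Fin n, ⁅(FreeLieAlgebra.of k p : FreeLieAlgebra k (Fin n)),
        FreeLieAlgebra.of k q⁆ ∈ I := fun p q => LieSubmodule.subset_lieSpan ⟨(p, q), rfl⟩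
    let K1 : LieSubalgebra k (FreeLieAlgebra k (Fin n)) :=
      { carrier := {v | ∀ i, ⁅(FreeLieAlgebra.of k i : FreeLieAlgebra k (Fin n)), v⁆ ∈ I}
        add_mem' := fun {a b} ha hb i => by
          rw [lie_add]
          exact I.add_mem (ha i) (hb i)
        zero_mem' := fun i => by
          rw [lie_zero]
          exact I.zero_mem
        smul_mem' := fun c a ha i => by
          rw [lie_smul]
          exact I.smul_mem c (ha i)
        lie_mem' := fun {a b} ha hb i => by
          rw [leibniz_lie]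
          refine I.add_mem ?_ (I.lie_mem (hb i))
          rw [← lie_skew]
          exact I.neg_mem (I.lie_mem (ha i)) }
    have h1 : ∀ i v, ⁅(FreeLieAlgebra.of k i : FreeLieAlgebra k (Fin n)), v⁆ ∈ I := by
      intro i v
      have h : LieSubalgebra.lieSpan k (FreeLieAlgebra k (Fin n))
          (Set.range (FreeLieAlgebra.of k : Fin n → FreeLieAlgebra k (Fin n))) ≤ K1 := by
        rw [LieSubalgebra.lieSpan_le]
        rintro _ ⟨j, rfl⟩ i'
        exact hI i' j
      rw [Fox_span] at h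
      exact h (LieSubalgebra.mem_top v) i
    let K2 : LieSubalgebra k (FreeLieAlgebra k (Fin n)) :=
      { carrier := {u | ∀ v : FreeLieAlgebra k (Fin n), ⁅u, v⁆ ∈ I}
        add_mem' := fun {a b} ha hb v => by
          rw [add_lie]
          exact I.add_mem (ha v) (hb v)
        zero_mem' := fun v => by
          rw [zero_lie]
          exact I.zero_mem
        smul_mem' := fun c a ha v => by
          rw [smul_lie]
          exact I.smul_mem c (ha v)
        lie_mem' := fun {a b} ha hb v => by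
          rw [lie_lie]
          exact I.sub_mem (I.lie_mem (hb v)) (I.lie_mem (ha v)) }
    have h2 : ∀ u v : FreeLieAlgebra k (Fin n), ⁅u, v⁆ ∈ I := by
      intro u v
      have h : LieSubalgebra.lieSpan k (FreeLieAlgebra k (Fin n))
          (Set.range (FreeLieAlgebra.of k : Fin n → FreeLieAlgebra k (Fin n))) ≤ K2 := by
        rw [LieSubalgebra.lieSpan_le]
        rintro _ ⟨j, rfl⟩ v'
        exact h1 j v'
      rw [Fox_span] at h
      exact h (LieSubalgebra.mem_top u) v
    unfold D1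
    rw [LieSubmodule.lieIdeal_oper_eq_span, LieSubmodule.lieSpan_le]
    rintro _ ⟨u, v, rfl⟩
    exact h2 u v
  · rw [LieSubmodule.lieSpan_le]
    rintro _ ⟨pq, rfl⟩
    exact LieSubmodule.lie_mem_lie (LieSubmodule.mem_top _) (LieSubmodule.mem_top _)

theorem tFox : S_Der.{u} → IdealGenProp.{u} → S_Fox.{u} := by
  intro hDer hIG k _ n w hw hd
  classical
  let F := FreeLieAlgebra k (Fin n)
  let x : Fin n → F := FreeLieAlgebra.of k
  obtain ⟨M, _, _, mk, X, hmk, hX, _⟩ := hDer k F n x (Fox_span k n)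
  obtain ⟨ψ, hψ⟩ := Fox_hom X hX
  let ν : Fin n → Fin n → M := fun p q => mk (brk2 k (x p) (x q))
  -- Jacobi
  have hψν : ∀ l p q, ψ (MvPolynomial.X l) (ν p q) = mk (brk2 k ⁅x p, x q⁆ (x l)) := by
    intro l p q
    rw [hψ]
    exact hmk.act l _ _ rfl
  have ha : ∀ p q : Fin n, ν p q = -ν q p := by
    intro p q
    change mk (brk2 k (x p) (x q)) = -mk (brk2 k (x q) (x p))
    rw [← map_neg]
    congr 1
    apply Subtype.ext
    change ⁅x p, x q⁆ = -⁅x q, x p⁆
    rw [lie_skew]
  have h0 : ∀ p, ν p p = 0 := by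
    intro p
    change mk (brk2 k (x p) (x p)) = 0
    have : brk2 k (x p) (x p) = 0 := by
      apply Subtype.ext
      change ⁅x p, x p⁆ = 0
      exact lie_self _
    rw [this, map_zero]
  have hJ : ∀ l p q : Fin n, ψ (MvPolynomial.X l) (ν p q) + ψ (MvPolynomial.X p) (ν q l) +
      ψ (MvPolynomial.X q) (ν l p) = 0 := by
    intro l p q
    rw [hψν, hψν, hψν, ← map_add, ← map_add]
    have : brk2 k ⁅x p, x q⁆ (x l) + brk2 k ⁅x q, x l⁆ (x p) + brk2 k ⁅x l, x p⁆ (x q) = 0 := by
      apply Subtype.ext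
      change ⁅⁅x p, x q⁆, x l⁆ + ⁅⁅x q, x l⁆, x p⁆ + ⁅⁅x l, x p⁆, x q⁆ = 0
      have h := lie_jacobi (x p) (x q) (x l)
      rw [← lie_skew (x p) ⁅x q, x l⁆, ← lie_skew (x q) ⁅x l, x p⁆,
        ← lie_skew (x l) ⁅x p, x q⁆] at h
      rw [← neg_eq_zero, ← h]
      abel
    rw [this, map_zero]
  -- the maps `δ`
  obtain ⟨s, hs⟩ := mk.exists_rightInverse_of_surjective (LinearMap.range_eq_top.2 hmk.surj)
  let δ : Fin n → M →ₗ[k] Pn k n := fun p =>
    ((Fox_d k p).comp (D1 k F).toSubmodule.subtype).comp s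
  have hδ : ∀ p (a : ↥(D1 k F).toSubmodule), δ p (mk a) = dF p (a : F) := by
    intro p a
    have h1 : mk (s (mk a) - a) = 0 := by
      rw [map_sub, ← LinearMap.comp_apply, hs, LinearMap.id_apply, sub_self]
    have h2 := Fox_d_D2 k p _ ((hmk.ker _).1 h1)
    have h3 : dF p ((s (mk a) - a : ↥(D1 k F).toSubmodule) : F) =
        Fox_d k p (s (mk a) : F) - Fox_d k p (a : F) := by
      rw [← map_sub]
      rfl
    rw [h3, sub_eq_zero] at h2
    exact h2
  have hδX : ∀ p i (m : M), δ p (X i m) = δ p m * MvPolynomial.X i := by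
    intro p i m
    obtain ⟨a, rfl⟩ := hmk.surj m
    rw [hmk.act i a (brk2 k (a : F) (x i)) rfl, hδ, hδ]
    change dF p ⁅(a : F), x i⁆ = _
    rw [Fox_d_lie, Fox_t_D1 k p (a : F) a.2, map_zero, mul_zero, sub_zero]
    have h1 : FX k p (x i) = ⟨Pi.single i 1, if i = p then 1 else 0, 0, 0⟩ := Fox_of k p i
    rw [h1, Fox_fP]
  have hδψ : ∀ p (f : Pn k n) (m : M), δ p (ψ f m) = δ p m * f := by
    intro p f
    induction f using MvPolynomial.induction_on with
    | C c =>
      intro m
      have h1 : ψ (MvPolynomial.C c) = algebraMap k (Module.End k M) c := by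
        rw [← MvPolynomial.algebraMap_eq, AlgHom.commutes]
      rw [h1, Module.algebraMap_end_apply, map_smul, MvPolynomial.smul_eq_C_mul, mul_comm]
    | add f g hf hg =>
      intro m
      rw [map_add, LinearMap.add_apply, map_add, hf, hg, mul_add]
    | mul_X f i hf =>
      intro m
      rw [map_mul, Module.End.mul_apply, hf, hψ, hδX]
      ring
  -- the maps `h`
  let h : Fin n → Pn k n →ₗ[k] M := fun p =>
    (MvPolynomial.basisMonomials (Fin n) k).constr k (fun τ => Fox_H ψ ν p τ)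
  have hh : ∀ p τ, h p (MvPolynomial.monomial τ 1) = Fox_H ψ ν p τ := by
    intro p τ
    have := (MvPolynomial.basisMonomials (Fin n) k).constr_basis k (fun τ => Fox_H ψ ν p τ) τ
    rw [MvPolynomial.coe_basisMonomials] at this
    exact this
  -- the identity for the generators
  have hδν : ∀ i p q, δ i (ν p q) = (if p = i then 1 else 0) * MvPolynomial.X q -
      (if q = i then 1 else 0) * MvPolynomial.X p := by
    intro i p q
    change δ i (mk (brk2 k (x p) (x q))) = _
    rw [hδ]
    change dF i ⁅x p, x q⁆ = _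
    rw [Fox_d_lie]
    have h1 : FX k i (x p) = ⟨Pi.single p 1, if p = i then 1 else 0, 0, 0⟩ := Fox_of k i p
    have h2 : FX k i (x q) = ⟨Pi.single q 1, if q = i then 1 else 0, 0, 0⟩ := Fox_of k i q
    unfold dF
    rw [h1, h2, Fox_fP, Fox_fP]
  have hmon : ∀ p q τ, ψ (MvPolynomial.monomial τ 1) (ν p q) =
      ∑ i, h i (δ i (ν p q) * MvPolynomial.monomial τ 1) := by
    intro p q τ
    have e1 : ∀ l : Fin n, (MvPolynomial.X l : Pn k n) * MvPolynomial.monomial τ 1 =
        MvPolynomial.monomial (τ + Finsupp.single l 1) 1 := by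
      intro l
      rw [MvPolynomial.X, MvPolynomial.monomial_mul, one_mul, add_comm]
    have e2 : ∀ i, h i (δ i (ν p q) * MvPolynomial.monomial τ 1) =
        (if p = i then Fox_H ψ ν i (τ + Finsupp.single q 1) else 0) -
          (if q = i then Fox_H ψ ν i (τ + Finsupp.single p 1) else 0) := by
      intro i
      rw [hδν, sub_mul, map_sub]
      congr 1
      · by_cases hi : p = i
        · rw [if_pos hi, if_pos hi, one_mul, e1, hh]
        · rw [if_neg hi, if_neg hi, zero_mul, zero_mul, map_zero]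
      · by_cases hi : q = i
        · rw [if_pos hi, if_pos hi, one_mul, e1, hh]
        · rw [if_neg hi, if_neg hi, zero_mul, zero_mul, map_zero]
    rw [Finset.sum_congr rfl fun i _ => e2 i, Finset.sum_sub_distrib, Finset.sum_ite_eq,
      Finset.sum_ite_eq, if_pos (Finset.mem_univ _), if_pos (Finset.mem_univ _)]
    exact (Fox_main' ψ ν hJ ha h0 p q τ).symm
  have hgen : ∀ p q (f : Pn k n), ψ f (ν p q) = ∑ i, h i (δ i (ψ f (ν p q))) := by
    intro p q f
    have e1 : ∀ i, δ i (ψ f (ν p q)) = δ i (ν p q) * f := fun i => hδψ i f _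
    rw [Finset.sum_congr rfl fun i _ => congrArg (h i) (e1 i)]
    let A : Pn k n →ₗ[k] M := (LinearMap.applyₗ (ν p q)).comp ψ.toLinearMap
    let B : Pn k n →ₗ[k] M := ∑ i, (h i).comp (LinearMap.mulLeft k (δ i (ν p q)))
    have hAB : A = B := by
      apply MvPolynomial.linearMap_ext
      intro τ
      apply LinearMap.ext_ring
      change ψ (MvPolynomial.monomial τ 1) (ν p q) = B (MvPolynomial.monomial τ 1)
      rw [hmon, LinearMap.sum_apply]
      rfl
    have h1 : ψ f (ν p q) = B f := LinearMap.congr_fun hAB f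
    rw [h1, LinearMap.sum_apply]
    rfl
  -- `M` is spanned by these elements
  let T : Submodule k M := LinearMap.ker (LinearMap.id - ∑ i, (h i).comp (δ i))
  have hT : ∀ m, m ∈ T ↔ m = ∑ i, h i (δ i m) := by
    intro m
    rw [LinearMap.mem_ker, LinearMap.sub_apply, LinearMap.sum_apply, sub_eq_zero]
    rfl
  let Z : Submodule k M := Submodule.span k
    (Set.range fun fpq : Pn k n × Fin n × Fin n => ψ fpq.1 (ν fpq.2.1 fpq.2.2))
  have hZT : Z ≤ T := by
    rw [Submodule.span_le]
    rintro _ ⟨⟨f, p, q⟩, rfl⟩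
    exact (hT _).2 (hgen p q f)
  have hZX : ∀ i, ∀ m ∈ Z, X i m ∈ Z := by
    intro i m hm
    have h1 : Z ≤ Z.comap (X i) := by
      rw [Submodule.span_le]
      rintro _ ⟨⟨f, p, q⟩, rfl⟩
      refine Submodule.subset_span ⟨⟨MvPolynomial.X i * f, p, q⟩, ?_⟩
      change ψ (MvPolynomial.X i * f) (ν p q) = X i (ψ f (ν p q))
      rw [map_mul, hψ, Module.End.mul_apply]
    exact h1 hm
  have hZ : ∀ a : ↥(D1 k F).toSubmodule, mk a ∈ Z := by
    let Y : Submodule k F := (Z.comap mk).map (D1 k F).toSubmodule.subtype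
    have hY : (D1 k F).toSubmodule ≤ Y := by
      have h1 : (D1 k F).toSubmodule = Two.gen (fun i => adr k (x i))
          (Set.range fun pq : Fin n × Fin n => ⁅x pq.1, x pq.2⁆) := by
        rw [← hIG k F n x (Fox_span k n)]
        exact congrArg LieSubmodule.toSubmodule (Fox_D1 k n)
      rw [h1]
      apply Two.gen_le
      · rintro i _ ⟨a, haZ, rfl⟩
        refine ⟨brk2 k (a : F) (x i), ?_, rfl⟩
        have h2 : mk (brk2 k (a : F) (x i)) = X i (mk a) := (hmk.act i a _ rfl).symm
        change mk (brk2 k (a : F) (x i)) ∈ Z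
        rw [h2]
        exact hZX i _ haZ
      · rintro _ ⟨pq, rfl⟩
        refine ⟨brk2 k (x pq.1) (x pq.2), ?_, rfl⟩
        change ν pq.1 pq.2 ∈ Z
        refine Submodule.subset_span ⟨⟨1, pq.1, pq.2⟩, ?_⟩
        change ψ 1 (ν pq.1 pq.2) = ν pq.1 pq.2
        rw [map_one, Module.End.one_apply]
    intro a
    obtain ⟨b, hb, hba⟩ := hY a.2
    have : b = a := Subtype.ext hba
    rw [← this]
    exact hb
  have hfin := (hT _).1 (hZT (hZ ⟨w, hw⟩))
  have hz : ∀ i, δ i (mk ⟨w, hw⟩) = 0 := fun i => by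
    rw [hδ]
    exact hd i
  rw [Finset.sum_congr rfl fun i _ => congrArg (h i) (hz i)] at hfin
  simp only [map_zero, Finset.sum_const_zero] at hfin
  exact (hmk.ker _).1 hfin

end Pool.Agent.Lib.MP_240c17_al.Q2.Abc
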