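import Pool.Agent.Lib.MP_240c17_al.Q2.Abc.Spec

/-!
# MP_240c17, project Q2, stage ABC: elements of the free Lie algebra on `ℕ` have finite support
-/

set_option autoImplicit false

namespace Pool.Agent.Lib.MP_240c17_al.Q2.Abc

universe u

open Pool.Agent.Lib.MP_240c17_al Pool.Agent.Lib.MP_240c17_al.Two TensorProduct

/-- the endomorphism which kills the generators with numbers at least `n` -/
private noncomputable def Fs_ep (k : Type u) [Field k] (n : ℕ) :
    FreeLieAlgebra k ℕ →ₗ⁅k⁆ FreeLieAlgebra k ℕ :=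
  FreeLieAlgebra.lift k fun i => if i < n then FreeLieAlgebra.of k i else 0

/-- the elements with finite support -/
private noncomputable def Fs_sub (k : Type u) [Field k] : LieSubalgebra k (FreeLieAlgebra k ℕ) where
  carrier := {g | ∃ n₀, ∀ n, n₀ ≤ n → Fs_ep k n g = g}
  add_mem' := by
    rintro g h ⟨a, ha⟩ ⟨b, hb⟩
    refine ⟨max a b, fun n hn => ?_⟩
    rw [map_add, ha n (le_trans (le_max_left a b) hn), hb n (le_trans (le_max_right a b) hn)]
  zero_mem' := ⟨0, fun n _ => map_zero _⟩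
  smul_mem' := by
    rintro c g ⟨a, ha⟩
    refine ⟨a, fun n hn => ?_⟩
    rw [map_smul, ha n hn]
  lie_mem' := by
    rintro g h ⟨a, ha⟩ ⟨b, hb⟩
    refine ⟨max a b, fun n hn => ?_⟩
    rw [LieHom.map_lie, ha n (le_trans (le_max_left a b) hn),
      hb n (le_trans (le_max_right a b) hn)]

private theorem Fs_of (k : Type u) [Field k] (i : ℕ) : FreeLieAlgebra.of k i ∈ Fs_sub k := by
  refine ⟨i + 1, fun n hn => ?_⟩
  rw [Fs_ep, FreeLieAlgebra.lift_of_apply, if_pos (show i < n by omega)]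

private theorem Fs_all (k : Type u) [Field k] (g : FreeLieAlgebra k ℕ) : g ∈ Fs_sub k := by
  obtain ⟨f, hf⟩ : ∃ f : FreeLieAlgebra k ℕ →ₗ⁅k⁆ Fs_sub k,
      f = FreeLieAlgebra.lift k fun i => (⟨FreeLieAlgebra.of k i, Fs_of k i⟩ : Fs_sub k) :=
    ⟨_, rfl⟩
  have h1 : (Fs_sub k).incl.comp f = LieHom.id := by
    refine FreeLieAlgebra.hom_ext fun i => ?_
    change ((f (FreeLieAlgebra.of k i) : Fs_sub k) : FreeLieAlgebra k ℕ) = FreeLieAlgebra.of k i
    rw [hf, FreeLieAlgebra.lift_of_apply]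
  have h2 : ((f g : Fs_sub k) : FreeLieAlgebra k ℕ) = g := LieHom.congr_fun h1 g
  rw [← h2]
  exact (f g).2

/-- Elements of the free Lie algebra on `ℕ` have finite support. -/
theorem tFs : S_Fs.{u} := by
  intro k _ g
  obtain ⟨n, hn⟩ := Fs_all k g
  have h1 := hn n le_rfl
  refine ⟨n, FreeLieAlgebra.lift k (fun i : ℕ => if h : i < n then
    FreeLieAlgebra.of k (⟨i, h⟩ : Fin n) else 0) g, ?_⟩
  have h2 : (FreeLieAlgebra.lift k (fun i : Fin n => FreeLieAlgebra.of k (i : ℕ))).comp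
      (FreeLieAlgebra.lift k (fun i : ℕ => if h : i < n then
        FreeLieAlgebra.of k (⟨i, h⟩ : Fin n) else 0)) = Fs_ep k n := by
    refine FreeLieAlgebra.hom_ext fun i => ?_
    change FreeLieAlgebra.lift k (fun i : Fin n => FreeLieAlgebra.of k (i : ℕ))
      (FreeLieAlgebra.lift k (fun i : ℕ => if h : i < n then
        FreeLieAlgebra.of k (⟨i, h⟩ : Fin n) else 0) (FreeLieAlgebra.of k i)) =
      Fs_ep k n (FreeLieAlgebra.of k i)
    rw [Fs_ep, FreeLieAlgebra.lift_of_apply, FreeLieAlgebra.lift_of_apply]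
    by_cases h : i < n
    · rw [dif_pos h, if_pos h, FreeLieAlgebra.lift_of_apply]
    · rw [dif_neg h, if_neg h, map_zero]
  rw [← LieHom.comp_apply, h2, h1]

end Pool.Agent.Lib.MP_240c17_al.Q2.Abc
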