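import Pool.Agent.Lib.MP_240c17_al.Q2.Abc.Spec

set_option autoImplicit false

namespace Pool.Agent.Lib.MP_240c17_al.Q2.Abc

universe u

open Pool.Agent.Lib.MP_240c17_al Pool.Agent.Lib.MP_240c17_al.Two TensorProduct

theorem tInt : S_Int.{u} := by
  intro R T _ _ _ _ h t
  have hfin : (minimalPrimes T).Finite := minimalPrimes.finite_of_isNoetherianRing T
  choose! f hf using fun Q hQ => h Q hQ t
  -- the product of the chosen monic polynomials
  have hmon : (∏ Q ∈ hfin.toFinset, f Q).Monic :=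
    Polynomial.monic_prod_of_monic _ _ fun Q hQ => (hf Q (hfin.mem_toFinset.mp hQ)).1
  have hnil : Polynomial.aeval t (∏ Q ∈ hfin.toFinset, f Q) ∈ nilradical T := by
    have hrad : nilradical T = sInf (minimalPrimes T) := by
      exact (Ideal.sInf_minimalPrimes (I := (⊥ : Ideal T))).symm
    rw [hrad, Submodule.mem_sInf]
    intro Q hQ
    rw [map_prod]
    exact Ideal.mem_of_dvd Q (Finset.dvd_prod_of_mem _ (hfin.mem_toFinset.mpr hQ)) (hf Q hQ).2
  obtain ⟨m, hm⟩ := (mem_nilradical.mp hnil)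
  refine ⟨(∏ Q ∈ hfin.toFinset, f Q) ^ m, hmon.pow m, ?_⟩
  rw [← Polynomial.aeval_def, map_pow, hm]

end Pool.Agent.Lib.MP_240c17_al.Q2.Abc
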