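import Pool.Agent.Lib.MP_240c17_al.Q2.Abc.Spec

/-!
# MP_240c17, project Q2, stage ABC: the identity `J_d` (JD)
-/

set_option autoImplicit false

namespace Pool.Agent.Lib.MP_240c17_al.Q2.Abc

universe u

open Pool.Agent.Lib.MP_240c17_al Pool.Agent.Lib.MP_240c17_al.Two TensorProduct

section aux
variable {k : Type u} [Field k] {L : Type u} [LieRing L] [LieAlgebra k L]

private theorem JD_ind {I J : LieIdeal k L} {p : L → Prop} (h : ∀ x ∈ I, ∀ y ∈ J, p ⁅x, y⁆)
    (h0 : p 0) (ha : ∀ x y, p x → p y → p (x + y)) (hs : ∀ (c : k) x, p x → p (c • x)) {z : L}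
    (hz : z ∈ (⁅I, J⁆ : LieIdeal k L)) : p z := by
  have hz' : z ∈ LieSubmodule.toSubmodule (⁅I, J⁆ : LieIdeal k L) := hz
  rw [LieSubmodule.lieIdeal_oper_eq_linear_span'] at hz'
  clear hz
  induction hz' using Submodule.span_induction with
  | mem x hx =>
    obtain ⟨x, hx, y, hy, rfl⟩ := hx
    exact h x hx y hy
  | zero => exact h0
  | add x y _ _ hx hy => exact ha x y hx hy
  | smul c x _ hx => exact hs c x hx

private theorem JD_comm (hN : IsN2A L) {z w : L} (hz : z ∈ D2 k L) (hw : w ∈ D1 k L) :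
    ⁅z, w⁆ = 0 := by
  refine JD_ind (k := k) (L := L) (p := fun w => ⁅z, w⁆ = 0) ?_ (lie_zero z) ?_ ?_ hw
  · intro e _ f _
    refine JD_ind (k := k) (L := L) (p := fun z => ⁅z, ⁅e, f⁆⁆ = 0) ?_ (zero_lie _) ?_ ?_ hz
    · intro u hu v hv
      refine JD_ind (k := k) (L := L) (p := fun u => ⁅⁅u, v⁆, ⁅e, f⁆⁆ = 0) ?_ ?_ ?_ ?_ hu
      · intro a _ b _
        refine JD_ind (k := k) (L := L) (p := fun v => ⁅⁅⁅a, b⁆, v⁆, ⁅e, f⁆⁆ = 0) ?_ ?_ ?_ ?_ hv
        · intro c _ d _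
          exact hN a b c d e f
        · rw [lie_zero, zero_lie]
        · intro x y hx hy
          rw [lie_add, add_lie, hx, hy, add_zero]
        · intro c x hx
          rw [lie_smul, smul_lie, hx, smul_zero]
      · rw [zero_lie, zero_lie]
      · intro x y hx hy
        rw [add_lie, add_lie, hx, hy, add_zero]
      · intro c x hx
        rw [smul_lie, smul_lie, hx, smul_zero]
    · intro x y hx hy
      rw [add_lie, hx, hy, add_zero]
    · intro c x hx
      rw [smul_lie, hx, smul_zero]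
  · intro x y hx hy
    rw [lie_add, hx, hy, add_zero]
  · intro c x hx
    rw [lie_smul, hx, smul_zero]

private theorem JD_rb {I : LieIdeal k L} (y : L) (i : ℕ) {l : L} (hl : l ∈ I) : rb y i l ∈ I := by
  induction i with
  | zero => exact hl
  | succ i ih =>
    rw [rb_succ]
    exact lie_mem_left k L I _ _ ih

private theorem JD_D2 {u v : L} (hu : u ∈ D1 k L) (hv : v ∈ D1 k L) : ⁅u, v⁆ ∈ D2 k L :=
  LieSubmodule.lie_mem_lie hu hv

private theorem JD_D1 (u v : L) : ⁅u, v⁆ ∈ D1 k L :=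
  LieSubmodule.lie_mem_lie (LieSubmodule.mem_top u) (LieSubmodule.mem_top v)

private theorem JD_D21 {u : L} (hu : u ∈ D2 k L) : u ∈ D1 k L :=
  LieSubmodule.mono_lie le_top le_top hu

/-- brackets with `y1` and `y2` commute modulo `D2` on `D1` -/
private theorem JD_swap (y1 y2 : L) (j : ℕ) {l : L} (hl : l ∈ D1 k L) :
    ⁅rb y2 j l, y1⁆ - rb y2 j ⁅l, y1⁆ ∈ D2 k L := by
  induction j with
  | zero =>
    rw [rb_zero, rb_zero, sub_self]
    exact (D2 k L).zero_mem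
  | succ j ih =>
    rw [rb_succ, rb_succ]
    have e : ⁅⁅rb y2 j l, y2⁆, y1⁆ - ⁅rb y2 j ⁅l, y1⁆, y2⁆ =
        ⁅⁅rb y2 j l, y1⁆ - rb y2 j ⁅l, y1⁆, y2⁆ + ⁅rb y2 j l, ⁅y2, y1⁆⁆ := by
      rw [right_leibniz, sub_lie]
      abel
    rw [e]
    exact (D2 k L).add_mem (lie_mem_left k L _ _ _ ih) (JD_D2 (JD_rb y2 j hl) (JD_D1 y2 y1))

variable {U : Type u} [CommRing U] [Algebra k U]

/-- the graph of `P`, modulo `D2` -/
private def JD_R (x x' : U) (y1 y2 g : L) : Submodule k (U × L) :=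
  Submodule.span k (Set.range fun p : ℕ × ℕ => (x ^ p.1 * x' ^ p.2, rb y2 p.2 (rb y1 p.1 g))) ⊔
    Submodule.prod ⊥ (D2 k L).toSubmodule

/-- the graph of the product -/
private def JD_Q (x x' z z' : U) (y1 y2 a b : L) : Submodule k (U × L) :=
  Submodule.span k (Set.range fun p : (ℕ × ℕ) × (ℕ × ℕ) =>
    ((x ^ p.1.1 * x' ^ p.1.2) * (z ^ p.2.1 * z' ^ p.2.2),
      ⁅rb y2 p.1.2 (rb y1 p.1.1 a), rb y2 p.2.2 (rb y1 p.2.1 b)⁆))

private theorem JD_R_ind {x x' : U} {y1 y2 g : L} {p : U × L → Prop}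
    (h : ∀ i j, p (x ^ i * x' ^ j, rb y2 j (rb y1 i g))) (h2 : ∀ z ∈ D2 k L, p (0, z))
    (ha : ∀ x y, p x → p y → p (x + y)) (hs : ∀ (c : k) x, p x → p (c • x)) {z : U × L}
    (hz : z ∈ JD_R (k := k) x x' y1 y2 g) : p z := by
  obtain ⟨u, hu, v, hv, rfl⟩ := Submodule.mem_sup.mp hz
  clear hz
  refine ha u v ?_ ?_
  · induction hu using Submodule.span_induction with
    | mem x hx =>
      obtain ⟨⟨i, j⟩, rfl⟩ := hx
      exact h i j
    | zero => exact h2 0 (D2 k L).zero_mem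
    | add x y _ _ hx hy => exact ha x y hx hy
    | smul c x _ hx => exact hs c x hx
  · obtain ⟨v1, v2⟩ := v
    obtain ⟨hv1, hv2⟩ := hv
    have e : v1 = 0 := hv1
    rw [e]
    exact h2 v2 hv2

private theorem JD_R_gen (x x' : U) (y1 y2 g : L) (i j : ℕ) :
    (x ^ i * x' ^ j, rb y2 j (rb y1 i g)) ∈ JD_R (k := k) x x' y1 y2 g :=
  Submodule.mem_sup_left (Submodule.subset_span ⟨(i, j), rfl⟩)

private theorem JD_R_D2 (x x' : U) (y1 y2 g : L) {z : L} (hz : z ∈ D2 k L) :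
    ((0 : U), z) ∈ JD_R (k := k) x x' y1 y2 g :=
  Submodule.mem_sup_right ⟨rfl, hz⟩

private theorem JD_R_D1 {x x' : U} {y1 y2 g : L} (hg : g ∈ D1 k L) {z : U × L}
    (hz : z ∈ JD_R (k := k) x x' y1 y2 g) : z.2 ∈ D1 k L := by
  refine JD_R_ind (p := fun z => z.2 ∈ D1 k L) ?_ ?_ ?_ ?_ hz
  · intro i j
    exact JD_rb y2 j (JD_rb y1 i hg)
  · intro z hz
    exact JD_D21 hz
  · intro x y hx hy
    exact (D1 k L).add_mem hx hy
  · intro c x hx
    exact (D1 k L).smul_mem c hx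

/-- bracket with a linear combination of `y1`, `y2` modulo `D1` -/
private theorem JD_R_lie {x x' : U} {y1 y2 g : L} (hg : g ∈ D1 k L) {z : U × L}
    (hz : z ∈ JD_R (k := k) x x' y1 y2 g) (s t : k) {m : L} (hm : m - (s • y1 + t • y2) ∈ D1 k L) :
    (z.1 * (s • x + t • x'), ⁅z.2, m⁆) ∈ JD_R (k := k) x x' y1 y2 g := by
  obtain ⟨w, hw, rfl⟩ : ∃ w, w ∈ D1 k L ∧ m = s • y1 + t • y2 + w :=
    ⟨_, hm, by abel⟩
  refine JD_R_ind (p := fun z => (z.1 * (s • x + t • x'), ⁅z.2, s • y1 + t • y2 + w⁆) ∈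
    JD_R (k := k) x x' y1 y2 g) ?_ ?_ ?_ ?_ hz
  · intro i j
    have h1 := JD_R_gen (k := k) x x' y1 y2 g (i + 1) j
    have h2 := JD_R_gen (k := k) x x' y1 y2 g i (j + 1)
    have h3 := JD_swap (k := k) y1 y2 j (JD_rb y1 i hg)
    have h4 : ⁅rb y2 j (rb y1 i g), w⁆ ∈ D2 k L := JD_D2 (JD_rb y2 j (JD_rb y1 i hg)) hw
    have h5 := JD_R_D2 x x' y1 y2 g h3
    have h6 := JD_R_D2 x x' y1 y2 g h4
    have h7 := Submodule.add_mem _ (Submodule.add_mem _ (Submodule.smul_mem _ s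
      (Submodule.add_mem _ h1 h5)) (Submodule.smul_mem _ t h2)) h6
    refine Eq.subst (motive := fun q => q ∈ JD_R (k := k) x x' y1 y2 g) ?_ h7
    refine Prod.ext ?_ ?_
    · show s • (x ^ (i + 1) * x' ^ j + 0) + t • (x ^ i * x' ^ (j + 1)) + 0 =
        x ^ i * x' ^ j * (s • x + t • x')
      simp only [Algebra.smul_def]
      ring
    · show s • (rb y2 j (rb y1 (i + 1) g) + (⁅rb y2 j (rb y1 i g), y1⁆ - rb y2 j ⁅rb y1 i g, y1⁆)) +
        t • rb y2 (j + 1) (rb y1 i g) + ⁅rb y2 j (rb y1 i g), w⁆ =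
        ⁅rb y2 j (rb y1 i g), s • y1 + t • y2 + w⁆
      rw [rb_succ y1 i g, rb_succ y2 j, add_sub_cancel, lie_add, lie_add, lie_smul, lie_smul]
  · intro z hz
    refine Eq.subst (motive := fun q => q ∈ JD_R (k := k) x x' y1 y2 g) ?_
      (JD_R_D2 x x' y1 y2 g (lie_mem_left k L (D2 k L) z (s • y1 + t • y2 + w) hz))
    refine Prod.ext ?_ rfl
    show (0 : U) = 0 * _
    rw [zero_mul]
  · intro u v hu hv
    refine Eq.subst (motive := fun q => q ∈ JD_R (k := k) x x' y1 y2 g) ?_ (Submodule.add_mem _ hu hv)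
    refine Prod.ext ?_ ?_
    · exact (add_mul _ _ _).symm
    · exact (add_lie _ _ _).symm
  · intro c u hu
    refine Eq.subst (motive := fun q => q ∈ JD_R (k := k) x x' y1 y2 g) ?_
      (Submodule.smul_mem _ c hu)
    refine Prod.ext ?_ ?_
    · exact (smul_mul_assoc _ _ _).symm
    · exact (smul_lie _ _ _).symm

private theorem JD_Q_gen (x x' z z' : U) (y1 y2 a b : L) (i j l m : ℕ) :
    ((x ^ i * x' ^ j) * (z ^ l * z' ^ m), ⁅rb y2 j (rb y1 i a), rb y2 m (rb y1 l b)⁆) ∈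
      JD_Q (k := k) x x' z z' y1 y2 a b :=
  Submodule.subset_span ⟨((i, j), (l, m)), rfl⟩

/-- the product of the graphs -/
private theorem JD_mul (hN : IsN2A L) {x x' z z' : U} {y1 y2 a b : L} (ha : a ∈ D1 k L)
    (hb : b ∈ D1 k L) {p q : U × L} (hp : p ∈ JD_R (k := k) x x' y1 y2 a)
    (hq : q ∈ JD_R (k := k) z z' y1 y2 b) :
    (p.1 * q.1, ⁅p.2, q.2⁆) ∈ JD_Q (k := k) x x' z z' y1 y2 a b := by
  have hz : ((0 : U), (0 : L)) ∈ JD_Q (k := k) x x' z z' y1 y2 a b := Submodule.zero_mem _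
  refine JD_R_ind (p := fun p => (p.1 * q.1, ⁅p.2, q.2⁆) ∈ JD_Q (k := k) x x' z z' y1 y2 a b)
    ?_ ?_ ?_ ?_ hp
  · intro i j
    refine JD_R_ind (p := fun q => ((x ^ i * x' ^ j) * q.1, ⁅rb y2 j (rb y1 i a), q.2⁆) ∈
      JD_Q (k := k) x x' z z' y1 y2 a b) ?_ ?_ ?_ ?_ hq
    · intro l m
      exact JD_Q_gen x x' z z' y1 y2 a b i j l m
    · intro w hw
      refine Eq.subst (motive := fun q => q ∈ JD_Q (k := k) x x' z z' y1 y2 a b) ?_ hz
      refine Prod.ext (mul_zero _).symm ?_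
      show (0 : L) = ⁅rb y2 j (rb y1 i a), w⁆
      rw [← lie_skew, JD_comm hN hw (JD_rb y2 j (JD_rb y1 i ha)), neg_zero]
    · intro u v hu hv
      refine Eq.subst (motive := fun q => q ∈ JD_Q (k := k) x x' z z' y1 y2 a b) ?_
        (Submodule.add_mem _ hu hv)
      exact Prod.ext (mul_add _ _ _).symm (lie_add _ _ _).symm
    · intro c u hu
      refine Eq.subst (motive := fun q => q ∈ JD_Q (k := k) x x' z z' y1 y2 a b) ?_
        (Submodule.smul_mem _ c hu)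
      exact Prod.ext (mul_smul_comm _ _ _).symm (lie_smul _ _ _).symm
  · intro w hw
    refine Eq.subst (motive := fun q => q ∈ JD_Q (k := k) x x' z z' y1 y2 a b) ?_ hz
    refine Prod.ext (zero_mul _).symm ?_
    show (0 : L) = ⁅w, q.2⁆
    rw [JD_comm hN hw (JD_R_D1 hb hq)]
  · intro u v hu hv
    refine Eq.subst (motive := fun q => q ∈ JD_Q (k := k) x x' z z' y1 y2 a b) ?_
      (Submodule.add_mem _ hu hv)
    exact Prod.ext (add_mul _ _ _).symm (add_lie _ _ _).symm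
  · intro c u hu
    refine Eq.subst (motive := fun q => q ∈ JD_Q (k := k) x x' z z' y1 y2 a b) ?_
      (Submodule.smul_mem _ c hu)
    exact Prod.ext (smul_mul_assoc _ _ _).symm (smul_lie _ _ _).symm

private theorem JD_Q_lie (hN : IsN2A L) {x x' z z' : U} {y1 y2 a b : L} (ha : a ∈ D1 k L)
    (hb : b ∈ D1 k L) {p : U × L} (hp : p ∈ JD_Q (k := k) x x' z z' y1 y2 a b) (s t : k) {m : L}
    (hm : m - (s • y1 + t • y2) ∈ D1 k L) :
    (p.1 * ((s • x + t • x') + (s • z + t • z')), ⁅p.2, m⁆) ∈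
      JD_Q (k := k) x x' z z' y1 y2 a b := by
  induction hp using Submodule.span_induction with
  | mem p hp =>
    obtain ⟨⟨⟨i, j⟩, ⟨l, n⟩⟩, rfl⟩ := hp
    have h1 := JD_R_gen (k := k) x x' y1 y2 a i j
    have h2 := JD_R_gen (k := k) z z' y1 y2 b l n
    have h3 := JD_mul hN ha hb (JD_R_lie ha h1 s t hm) h2
    have h4 := JD_mul hN ha hb h1 (JD_R_lie hb h2 s t hm)
    refine Eq.subst (motive := fun q => q ∈ JD_Q (k := k) x x' z z' y1 y2 a b) ?_
      (Submodule.add_mem _ h3 h4)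
    refine Prod.ext ?_ ?_
    · show x ^ i * x' ^ j * (s • x + t • x') * (z ^ l * z' ^ n) +
        x ^ i * x' ^ j * (z ^ l * z' ^ n * (s • z + t • z')) =
        x ^ i * x' ^ j * (z ^ l * z' ^ n) * (s • x + t • x' + (s • z + t • z'))
      ring
    · exact (right_leibniz _ _ _).symm
  | zero =>
    refine Eq.subst (motive := fun q => q ∈ JD_Q (k := k) x x' z z' y1 y2 a b) ?_
      (Submodule.zero_mem _)
    exact Prod.ext (zero_mul _).symm (zero_lie _).symm
  | add u v _ _ hu hv =>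
    refine Eq.subst (motive := fun q => q ∈ JD_Q (k := k) x x' z z' y1 y2 a b) ?_
      (Submodule.add_mem _ hu hv)
    exact Prod.ext (add_mul _ _ _).symm (add_lie _ _ _).symm
  | smul c u _ hu =>
    refine Eq.subst (motive := fun q => q ∈ JD_Q (k := k) x x' z z' y1 y2 a b) ?_
      (Submodule.smul_mem _ c hu)
    exact Prod.ext (smul_mul_assoc _ _ _).symm (smul_lie _ _ _).symm

/-- the invariant of the induction on the monomials -/
private structure JD_Inv (y1 y2 a b : L) (A B : ℕ) (e : GG k) (m : L) : Prop where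
  ht : ¬ (A = 0 ∧ B = 0) → e.t = 0
  ha : ¬ (A = 1 ∧ B = 0) → e.a = 0
  hb : ¬ (A = 0 ∧ B = 1) → e.b = 0
  hc : ¬ (A = 1 ∧ B = 1) → e.c = 0
  h00 : A = 0 → B = 0 → m - (e.t 0 • y1 + e.t 1 • y2) ∈ D1 k L
  h10 : A = 1 → B = 0 →
    (e.a, m) ∈ JD_R (k := k) (MvPolynomial.X 0 : U4 k) (MvPolynomial.X 1) y1 y2 a
  h01 : A = 0 → B = 1 →
    (e.b, m) ∈ JD_R (k := k) (MvPolynomial.X 2 : U4 k) (MvPolynomial.X 3) y1 y2 b
  h11 : A = 1 → B = 1 → (e.c, m) ∈ JD_Q (k := k) (MvPolynomial.X 0 : U4 k) (MvPolynomial.X 1)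
    (MvPolynomial.X 2) (MvPolynomial.X 3) y1 y2 a b

private theorem JD_f4 (t : Fin 2 → k) :
    f4 k t = t 0 • MvPolynomial.X 0 + t 1 • MvPolynomial.X 1 := rfl

private theorem JD_g4 (t : Fin 2 → k) :
    g4 k t = t 0 • MvPolynomial.X 2 + t 1 • MvPolynomial.X 3 := rfl

private theorem JD_neg {N : Submodule k (U × L)} {x : U} {m : L} (h : (x, m) ∈ N) : (-x, -m) ∈ N :=
  N.neg_mem h

private theorem JD_step (hN : IsN2A L) {y1 y2 a b : L} (ha : a ∈ D1 k L) (hb : b ∈ D1 k L)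
    {A B A' B' : ℕ} {e e' : GG k} {m m' : L} (h : JD_Inv y1 y2 a b A B e m)
    (h' : JD_Inv y1 y2 a b A' B' e' m') :
    JD_Inv y1 y2 a b (A + A') (B + B') ⁅e, e'⁆ ⁅m, m'⁆ := by
  -- products which vanish for degree reasons
  have zat : ∀ (C D C' D' : ℕ) (p q : GG k) (n n' : L), JD_Inv y1 y2 a b C D p n →
      JD_Inv y1 y2 a b C' D' q n' → ¬ (C + C' = 1 ∧ D + D' = 0) → p.a * f4 k q.t = 0 := by
    intro C D C' D' p q n n' hp hq hh
    by_cases h1 : C = 1 ∧ D = 0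
    · rw [hq.ht (by omega), map_zero, mul_zero]
    · rw [hp.ha h1, zero_mul]
  have zbt : ∀ (C D C' D' : ℕ) (p q : GG k) (n n' : L), JD_Inv y1 y2 a b C D p n →
      JD_Inv y1 y2 a b C' D' q n' → ¬ (C + C' = 0 ∧ D + D' = 1) → p.b * g4 k q.t = 0 := by
    intro C D C' D' p q n n' hp hq hh
    by_cases h1 : C = 0 ∧ D = 1
    · rw [hq.ht (by omega), map_zero, mul_zero]
    · rw [hp.hb h1, zero_mul]
  have zab : ∀ (C D C' D' : ℕ) (p q : GG k) (n n' : L), JD_Inv y1 y2 a b C D p n →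
      JD_Inv y1 y2 a b C' D' q n' → ¬ (C + C' = 1 ∧ D + D' = 1) → p.a * q.b = 0 := by
    intro C D C' D' p q n n' hp hq hh
    by_cases h1 : C = 1 ∧ D = 0
    · rw [hq.hb (by omega), mul_zero]
    · rw [hp.ha h1, zero_mul]
  have zct : ∀ (C D C' D' : ℕ) (p q : GG k) (n n' : L), JD_Inv y1 y2 a b C D p n →
      JD_Inv y1 y2 a b C' D' q n' → ¬ (C + C' = 1 ∧ D + D' = 1) →
      p.c * (f4 k q.t + g4 k q.t) = 0 := by
    intro C D C' D' p q n n' hp hq hh
    by_cases h1 : C = 1 ∧ D = 1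
    · rw [hq.ht (by omega), map_zero, map_zero, add_zero, mul_zero]
    · rw [hp.hc h1, zero_mul]
  refine ⟨fun _ => rfl, ?_, ?_, ?_, ?_, ?_, ?_, ?_⟩
  · intro hh
    rw [HL.lie_a, zat _ _ _ _ _ _ _ _ h h' hh, zat _ _ _ _ _ _ _ _ h' h (by omega), sub_zero]
  · intro hh
    rw [HL.lie_b, zbt _ _ _ _ _ _ _ _ h h' hh, zbt _ _ _ _ _ _ _ _ h' h (by omega), sub_zero]
  · intro hh
    rw [HL.lie_c, zab _ _ _ _ _ _ _ _ h h' hh, zab _ _ _ _ _ _ _ _ h' h (by omega),
      zct _ _ _ _ _ _ _ _ h h' hh, zct _ _ _ _ _ _ _ _ h' h (by omega), sub_zero, add_zero]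
  · intro _ _
    rw [HL.lie_t]
    have e : ⁅m, m'⁆ - ((0 : Fin 2 → k) 0 • y1 + (0 : Fin 2 → k) 1 • y2) = ⁅m, m'⁆ := by
      rw [Pi.zero_apply, Pi.zero_apply, zero_smul, zero_smul, add_zero, sub_zero]
    rw [e]
    exact JD_D1 m m'
  · intro hA hB
    rw [HL.lie_a]
    rcases (by omega : (A = 1 ∧ B = 0 ∧ A' = 0 ∧ B' = 0) ∨ (A = 0 ∧ B = 0 ∧ A' = 1 ∧ B' = 0)) with
      ⟨h1, h2, h3, h4⟩ | ⟨h1, h2, h3, h4⟩
    · rw [h'.ha (by omega), zero_mul, sub_zero]
      exact JD_R_lie (z := (e.a, m)) ha (h.h10 h1 h2) _ _ (h'.h00 h3 h4)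
    · rw [h.ha (by omega), zero_mul, zero_sub, ← lie_skew m m']
      exact JD_neg (JD_R_lie (z := (e'.a, m')) ha (h'.h10 h3 h4) _ _ (h.h00 h1 h2))
  · intro hA hB
    rw [HL.lie_b]
    rcases (by omega : (A = 0 ∧ B = 1 ∧ A' = 0 ∧ B' = 0) ∨ (A = 0 ∧ B = 0 ∧ A' = 0 ∧ B' = 1)) with
      ⟨h1, h2, h3, h4⟩ | ⟨h1, h2, h3, h4⟩
    · rw [h'.hb (by omega), zero_mul, sub_zero]
      exact JD_R_lie (z := (e.b, m)) hb (h.h01 h1 h2) _ _ (h'.h00 h3 h4)
    · rw [h.hb (by omega), zero_mul, zero_sub, ← lie_skew m m']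
      exact JD_neg (JD_R_lie (z := (e'.b, m')) hb (h'.h01 h3 h4) _ _ (h.h00 h1 h2))
  · intro hA hB
    rw [HL.lie_c]
    rcases (by omega : (A = 1 ∧ B = 1 ∧ A' = 0 ∧ B' = 0) ∨ (A = 0 ∧ B = 0 ∧ A' = 1 ∧ B' = 1) ∨
      (A = 1 ∧ B = 0 ∧ A' = 0 ∧ B' = 1) ∨ (A = 0 ∧ B = 1 ∧ A' = 1 ∧ B' = 0)) with
      ⟨h1, h2, h3, h4⟩ | ⟨h1, h2, h3, h4⟩ | ⟨h1, h2, h3, h4⟩ | ⟨h1, h2, h3, h4⟩
    · rw [h.ha (by omega), h'.ha (by omega), h'.hc (by omega), zero_mul, zero_mul, zero_mul,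
        sub_zero, sub_zero, zero_add]
      exact JD_Q_lie (p := (e.c, m)) hN ha hb (h.h11 h1 h2) _ _ (h'.h00 h3 h4)
    · rw [h.ha (by omega), h'.ha (by omega), h.hc (by omega), zero_mul, zero_mul, zero_mul,
        sub_zero, zero_sub, zero_add, ← lie_skew m m']
      exact JD_neg (JD_Q_lie (p := (e'.c, m')) hN ha hb (h'.h11 h3 h4) _ _ (h.h00 h1 h2))
    · rw [h'.ha (by omega), h.hc (by omega), h'.hc (by omega), zero_mul, zero_mul, zero_mul,
        sub_zero, sub_zero, add_zero]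
      exact JD_mul (p := (e.a, m)) (q := (e'.b, m')) hN ha hb (h.h10 h1 h2) (h'.h01 h3 h4)
    · rw [h.ha (by omega), h.hc (by omega), h'.hc (by omega), zero_mul, zero_mul, zero_mul,
        sub_zero, zero_sub, add_zero, ← lie_skew m m']
      exact JD_neg (JD_mul (p := (e'.a, m')) (q := (e.b, m)) hN ha hb (h'.h10 h3 h4) (h.h01 h1 h2))

private theorem JD_mon (hN : IsN2A L) {y1 y2 a b : L} (ha : a ∈ D1 k L) (hb : b ∈ D1 k L)
    (ω : FreeMagma (Fin 4)) :
    JD_Inv y1 y2 a b (degF ω 2) (degF ω 3) (evM (gens4 k) ω) (evM ![y1, y2, a, b] ω) := by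
  induction ω with
  | ih1 x =>
    have hd : degF (FreeMagma.of x) = Finsupp.single x 1 := rfl
    rw [hd]
    fin_cases x
    · refine ⟨?_, fun _ => rfl, fun _ => rfl, fun _ => rfl, ?_, ?_, ?_, ?_⟩
      · intro h
        exact absurd ⟨by simp, by simp⟩ h
      · intro _ _
        have e : evM ![y1, y2, a, b] (FreeMagma.of (0 : Fin 4)) -
            ((evM (gens4 k) (FreeMagma.of (0 : Fin 4))).t 0 • y1 +
              (evM (gens4 k) (FreeMagma.of (0 : Fin 4))).t 1 • y2) = 0 := by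
          show y1 - ((Pi.single (0 : Fin 2) (1 : k) : Fin 2 → k) 0 • y1 +
            (Pi.single (0 : Fin 2) (1 : k) : Fin 2 → k) 1 • y2) = 0
          simp
        refine Eq.subst (motive := fun q => q ∈ D1 k L) e.symm (D1 k L).zero_mem
      · intro h1 _
        exact absurd h1 (by simp)
      · intro _ h1
        exact absurd h1 (by simp)
      · intro h1 _
        exact absurd h1 (by simp)
    · refine ⟨?_, fun _ => rfl, fun _ => rfl, fun _ => rfl, ?_, ?_, ?_, ?_⟩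
      · intro h
        exact absurd ⟨by simp, by simp⟩ h
      · intro _ _
        have e : evM ![y1, y2, a, b] (FreeMagma.of (1 : Fin 4)) -
            ((evM (gens4 k) (FreeMagma.of (1 : Fin 4))).t 0 • y1 +
              (evM (gens4 k) (FreeMagma.of (1 : Fin 4))).t 1 • y2) = 0 := by
          show y2 - ((Pi.single (1 : Fin 2) (1 : k) : Fin 2 → k) 0 • y1 +
            (Pi.single (1 : Fin 2) (1 : k) : Fin 2 → k) 1 • y2) = 0
          simp
        refine Eq.subst (motive := fun q => q ∈ D1 k L) e.symm (D1 k L).zero_mem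
      · intro h1 _
        exact absurd h1 (by simp)
      · intro _ h1
        exact absurd h1 (by simp)
      · intro h1 _
        exact absurd h1 (by simp)
    · refine ⟨fun _ => rfl, ?_, fun _ => rfl, fun _ => rfl, ?_, ?_, ?_, ?_⟩
      · intro h
        exact absurd ⟨by simp, by simp⟩ h
      · intro h1 _
        exact absurd h1 (by simp)
      · intro _ _
        have h := JD_R_gen (k := k) (MvPolynomial.X 0 : U4 k) (MvPolynomial.X 1) y1 y2 a 0 0
        rw [pow_zero, pow_zero, mul_one] at h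
        exact h
      · intro h1 _
        exact absurd h1 (by simp)
      · intro _ h1
        exact absurd h1 (by simp)
    · refine ⟨fun _ => rfl, fun _ => rfl, ?_, fun _ => rfl, ?_, ?_, ?_, ?_⟩
      · intro h
        exact absurd ⟨by simp, by simp⟩ h
      · intro _ h1
        exact absurd h1 (by simp)
      · intro h1 _
        exact absurd h1 (by simp)
      · intro _ _
        have h := JD_R_gen (k := k) (MvPolynomial.X 2 : U4 k) (MvPolynomial.X 3) y1 y2 b 0 0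
        rw [pow_zero, pow_zero, mul_one] at h
        exact h
      · intro h1 _
        exact absurd h1 (by simp)
  | ih2 p q hp hq =>
    have hd : degF (p * q) = degF p + degF q := rfl
    have e1 : evM (gens4 k) (p * q) = ⁅evM (gens4 k) p, evM (gens4 k) q⁆ := rfl
    have e2 : evM ![y1, y2, a, b] (p * q) = ⁅evM ![y1, y2, a, b] p, evM ![y1, y2, a, b] q⁆ := rfl
    rw [hd, e1, e2, Finsupp.add_apply, Finsupp.add_apply]
    exact JD_step hN ha hb hp hq

/-- the linear map with the graph `JD_Q` -/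
private theorem JD_fun (y1 y2 a b : L) : ∃ P : U4 k →ₗ[k] L, ∀ p ∈ JD_Q (k := k)
    (MvPolynomial.X 0 : U4 k) (MvPolynomial.X 1) (MvPolynomial.X 2) (MvPolynomial.X 3) y1 y2 a b,
    p.2 = P p.1 := by
  refine ⟨(MvPolynomial.basisMonomials (Fin 4) k).constr k (fun μ =>
    ⁅rb y2 (μ 1) (rb y1 (μ 0) a), rb y2 (μ 3) (rb y1 (μ 2) b)⁆), ?_⟩
  intro p hp
  induction hp using Submodule.span_induction with
  | mem p hp =>
    obtain ⟨⟨⟨i, j⟩, ⟨l, n⟩⟩, rfl⟩ := hp
    have e : ((MvPolynomial.X 0 : U4 k) ^ i * MvPolynomial.X 1 ^ j) *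
        (MvPolynomial.X 2 ^ l * MvPolynomial.X 3 ^ n) = MvPolynomial.basisMonomials (Fin 4) k
        (Finsupp.single 0 i + Finsupp.single 1 j + Finsupp.single 2 l + Finsupp.single 3 n) := by
      rw [MvPolynomial.coe_basisMonomials]
      simp only [MvPolynomial.X_pow_eq_monomial, MvPolynomial.monomial_mul, mul_one]
      rw [add_assoc _ (Finsupp.single 2 l)]
    show ⁅rb y2 j (rb y1 i a), rb y2 n (rb y1 l b)⁆ = _
    rw [show (((MvPolynomial.X 0 : U4 k) ^ i * MvPolynomial.X 1 ^ j) *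
        (MvPolynomial.X 2 ^ l * MvPolynomial.X 3 ^ n),
        ⁅rb y2 j (rb y1 i a), rb y2 n (rb y1 l b)⁆).1 = _ from e, Module.Basis.constr_basis]
    simp
  | zero => exact (map_zero _).symm
  | add u v _ _ hu hv =>
    show u.2 + v.2 = _
    rw [hu, hv, ← map_add]
    rfl
  | smul c u _ hu =>
    show c • u.2 = _
    rw [hu, ← map_smul]
    rfl

private theorem JD_det (y1 y2 a b : L) (d : ℕ) : (det4 k ^ d, Jd k d y1 y2 a b) ∈ JD_Q (k := k)
    (MvPolynomial.X 0 : U4 k) (MvPolynomial.X 1) (MvPolynomial.X 2) (MvPolynomial.X 3)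
      y1 y2 a b := by
  have h : ∑ i ∈ Finset.range (d + 1), ((-1 : k) ^ i * (d.choose i : k)) •
      (((((MvPolynomial.X 0 : U4 k) ^ (d - i) * MvPolynomial.X 1 ^ i) *
        (MvPolynomial.X 2 ^ i * MvPolynomial.X 3 ^ (d - i)),
        ⁅rb y2 i (rb y1 (d - i) a), rb y2 (d - i) (rb y1 i b)⁆) : U4 k × L)) ∈ JD_Q (k := k)
    (MvPolynomial.X 0 : U4 k) (MvPolynomial.X 1) (MvPolynomial.X 2) (MvPolynomial.X 3)
      y1 y2 a b := by
    refine Submodule.sum_mem _ fun i _ => Submodule.smul_mem _ _ ?_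
    exact JD_Q_gen _ _ _ _ y1 y2 a b (d - i) i i (d - i)
  refine Eq.subst (motive := fun q => q ∈ JD_Q (k := k)
    (MvPolynomial.X 0 : U4 k) (MvPolynomial.X 1) (MvPolynomial.X 2) (MvPolynomial.X 3)
      y1 y2 a b) ?_ h
  refine Prod.ext ?_ ?_
  · rw [Prod.fst_sum]
    show _ = (MvPolynomial.X 0 * MvPolynomial.X 3 - MvPolynomial.X 1 * MvPolynomial.X 2 : U4 k) ^ d
    rw [sub_eq_neg_add, add_pow]
    refine Finset.sum_congr rfl fun i hi => ?_
    show ((-1 : k) ^ i * (d.choose i : k)) • (((MvPolynomial.X 0 : U4 k) ^ (d - i) *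
      MvPolynomial.X 1 ^ i) * (MvPolynomial.X 2 ^ i * MvPolynomial.X 3 ^ (d - i))) = _
    rw [Algebra.smul_def, map_mul, map_pow, map_neg, map_one, map_natCast, neg_pow
      (MvPolynomial.X 1 * MvPolynomial.X 2 : U4 k) i]
    ring
  · rw [Prod.snd_sum]
    rfl

private theorem JD_filt {α : Type*} {M : Type*} [AddCommMonoid M] (s : Finset α) (p : α → Prop)
    (i1 i2 : DecidablePred p) (g : α → M) :
    Finset.sum (@Finset.filter α p i1 s) g = Finset.sum (@Finset.filter α p i2 s) g := by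
  have e : i1 = i2 := Subsingleton.elim _ _
  rw [e]

/-- the `c`-component as a linear map -/
private def JD_c : GG k →ₗ[k] U4 k where
  toFun p := p.c
  map_add' _ _ := rfl
  map_smul' _ _ := rfl

private theorem JD_var {Id : Set (FreeLieAlgebra k ℕ)} (hL : InVariety Id L) {n : ℕ}
    (f : Fin n → L) {v : FreeLieAlgebra k (Fin n)} (hv : v ∈ verbalIdeal Id n) :
    FreeLieAlgebra.lift k f v = 0 := by
  have h : verbalIdeal Id n ≤ (FreeLieAlgebra.lift k f).ker := by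
    refine LieSubmodule.lieSpan_le.mpr ?_
    rintro w ⟨g, hg, ρ, rfl⟩
    show _ ∈ (FreeLieAlgebra.lift k f).ker
    rw [LieHom.mem_ker]
    have e : (FreeLieAlgebra.lift k f).comp (FreeLieAlgebra.lift k ρ) =
        FreeLieAlgebra.lift k (fun i => FreeLieAlgebra.lift k f (ρ i)) := by
      refine FreeLieAlgebra.hom_ext ?_
      intro i
      rw [LieHom.comp_apply, FreeLieAlgebra.lift_of_apply, FreeLieAlgebra.lift_of_apply]
    rw [← LieHom.comp_apply, e]
    exact hL g hg _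
  exact LieHom.mem_ker.mp (h hv)

end aux

open scoped Classical in
theorem tJD : S_JD.{u} := by
  intro k _ _ Id d hd L _ _ hL hN y1 y2 a b ha hb
  obtain ⟨v, hv, hv'⟩ := hd
  obtain ⟨c, hc⟩ := exists_coeff v
  obtain ⟨P, hP⟩ := JD_fun (k := k) y1 y2 a b
  -- the value in `L`
  have h1 : ∀ t : Fin 4 → k, c.sum (fun ω r => r • evM (fun i => t i • ![y1, y2, a, b] i) ω) = 0 := by
    intro t
    rw [← hc L]
    exact JD_var hL _ hv
  have h2 : ∀ δ : Fin 4 →₀ ℕ,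
      ∑ ω ∈ c.support with degF ω = δ, c ω • evM ![y1, y2, a, b] ω = 0 := by
    intro δ
    exact (JD_filt _ _ _ _ _).trans (component_eq_zero c ![y1, y2, a, b] h1 δ)
  have h3 : ∑ ω ∈ c.support with (degF ω 2 = 1 ∧ degF ω 3 = 1), c ω • evM ![y1, y2, a, b] ω = 0 := by
    refine (Finset.sum_fiberwise_of_maps_to (t := (c.support.filter
      (fun ω => degF ω 2 = 1 ∧ degF ω 3 = 1)).image degF) (g := degF)
      (fun ω hω => Finset.mem_image_of_mem _ hω) _).symm.trans ?_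
    refine Finset.sum_eq_zero fun δ hδ => ?_
    obtain ⟨ω0, hω0, rfl⟩ := Finset.mem_image.mp hδ
    refine Eq.trans ?_ (h2 (degF ω0))
    rw [Finset.filter_filter]
    refine Finset.sum_congr ?_ fun _ _ => rfl
    refine Finset.ext fun ω => ?_
    constructor
    · intro h
      have h' := Finset.mem_filter.mp h
      exact Finset.mem_filter.mpr ⟨h'.1, h'.2.2⟩
    · intro h
      have h' := Finset.mem_filter.mp h
      refine Finset.mem_filter.mpr ⟨h'.1, ?_, h'.2⟩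
      rw [h'.2]
      exact (Finset.mem_filter.mp hω0).2
  -- the value in `GG`
  have h4 : ∑ ω ∈ c.support with (degF ω 2 = 1 ∧ degF ω 3 = 1), c ω • (evM (gens4 k) ω).c =
      det4 k ^ d := by
    have e1 : (Psi k v).c = det4 k ^ d := by rw [hv']
    have e2 : Psi k v = c.sum (fun ω r => r • evM (gens4 k) ω) := hc (GG k) (gens4 k)
    rw [← e1, e2]
    have e3 : (c.sum (fun ω r => r • evM (gens4 k) ω)).c =
        ∑ ω ∈ c.support, c ω • (evM (gens4 k) ω).c := by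
      show JD_c (c.sum (fun ω r => r • evM (gens4 k) ω)) = _
      rw [Finsupp.sum, map_sum]
      refine Finset.sum_congr rfl fun ω _ => ?_
      rw [map_smul]
      rfl
    rw [e3]
    refine Finset.sum_subset (Finset.filter_subset _ _) ?_
    intro ω hω hω'
    rw [(JD_mon (k := k) hN (y1 := y1) (y2 := y2) ha hb ω).hc ?_, smul_zero]
    intro hh
    exact hω' (Finset.mem_filter.mpr ⟨hω, hh⟩)
  have h5 : (det4 k ^ d, (0 : L)) ∈ JD_Q (k := k) (MvPolynomial.X 0 : U4 k) (MvPolynomial.X 1)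
      (MvPolynomial.X 2) (MvPolynomial.X 3) y1 y2 a b := by
    have h6 : ∑ ω ∈ c.support with (degF ω 2 = 1 ∧ degF ω 3 = 1),
        c ω • (((evM (gens4 k) ω).c, evM ![y1, y2, a, b] ω) : U4 k × L) ∈ JD_Q (k := k)
        (MvPolynomial.X 0 : U4 k) (MvPolynomial.X 1) (MvPolynomial.X 2) (MvPolynomial.X 3)
        y1 y2 a b := by
      refine Submodule.sum_mem _ fun ω hω => Submodule.smul_mem _ _ ?_
      obtain ⟨hA, hB⟩ := (Finset.mem_filter.mp hω).2
      exact (JD_mon (k := k) hN ha hb ω).h11 hA hB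
    refine Eq.subst (motive := fun q => q ∈ JD_Q (k := k)
      (MvPolynomial.X 0 : U4 k) (MvPolynomial.X 1) (MvPolynomial.X 2) (MvPolynomial.X 3)
      y1 y2 a b) ?_ h6
    refine Prod.ext ?_ ?_
    · rw [Prod.fst_sum]
      exact h4
    · rw [Prod.snd_sum]
      exact h3
  have h7 := hP _ h5
  have h8 := hP _ (JD_det (k := k) y1 y2 a b d)
  exact h8.trans h7.symm

end Pool.Agent.Lib.MP_240c17_al.Q2.Abc
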