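import Pool.Agent.Lib.MP_240c17_al.Q2.Abc.Spec

/-!
# MP_240c17, project Q2, stage ABC: no line (module Ln)
-/

set_option autoImplicit false

namespace Pool.Agent.Lib.MP_240c17_al.Q2.Abc

universe u

open Pool.Agent.Lib.MP_240c17_al Pool.Agent.Lib.MP_240c17_al.Two TensorProduct

/-- the coefficients as a linear map -/
private def Ln_cf (L : Type u) [Field L] : Polynomial L →ₗ[L] (ℕ → L) where
  toFun p := cfp p
  map_add' p q := by
    funext i
    exact Polynomial.coeff_add p q i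
  map_smul' c p := by
    funext i
    exact Polynomial.coeff_smul c p i

private theorem Ln_tri {L : Type u} [Field L]
    (J : Submodule L ((ℕ → ℕ → L) × (ℕ → ℕ → ℕ → L))) (s : Set (Polynomial L))
    (h : ∀ a ∈ s, ∀ b ∈ s, ∀ c ∈ s,
      ((0, cm (wdg (cfp a) (cfp b)) (cfp c)) : (ℕ → ℕ → L) × (ℕ → ℕ → ℕ → L)) ∈ J) :
    ∀ a ∈ Submodule.span L s, ∀ b ∈ Submodule.span L s, ∀ c ∈ Submodule.span L s,
      ((0, cm (wdg (cfp a) (cfp b)) (cfp c)) : (ℕ → ℕ → L) × (ℕ → ℕ → ℕ → L)) ∈ J := by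
  have h3 : ∀ a ∈ s, ∀ b ∈ s, ∀ c ∈ Submodule.span L s,
      ((0, cm (wdg (cfp a) (cfp b)) (cfp c)) : (ℕ → ℕ → L) × (ℕ → ℕ → ℕ → L)) ∈ J := by
    intro a ha b hb c hc
    have hle : Submodule.span L s ≤ J.comap
        ((LinearMap.inr L (ℕ → ℕ → L) (ℕ → ℕ → ℕ → L)).comp
          ((cm (wdg (cfp a) (cfp b))).comp (Ln_cf L))) :=
      Submodule.span_le.2 fun c hc => h a ha b hb c hc
    exact hle hc
  have h2 : ∀ a ∈ s, ∀ b ∈ Submodule.span L s, ∀ c ∈ Submodule.span L s,
      ((0, cm (wdg (cfp a) (cfp b)) (cfp c)) : (ℕ → ℕ → L) × (ℕ → ℕ → ℕ → L)) ∈ J := by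
    intro a ha b hb c hc
    have hle : Submodule.span L s ≤ J.comap
        ((LinearMap.inr L (ℕ → ℕ → L) (ℕ → ℕ → ℕ → L)).comp
          ((cm.flip (cfp c)).comp ((wdg (cfp a)).comp (Ln_cf L)))) :=
      Submodule.span_le.2 fun b hb => h3 a ha b hb c hc
    exact hle hb
  intro a ha b hb c hc
  have hle : Submodule.span L s ≤ J.comap
      ((LinearMap.inr L (ℕ → ℕ → L) (ℕ → ℕ → ℕ → L)).comp
        ((cm.flip (cfp c)).comp ((wdg.flip (cfp b)).comp (Ln_cf L)))) :=
    Submodule.span_le.2 fun a ha => h2 a ha b hb c hc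
  exact hle ha

theorem tLn : S_E2.{u} → S_E3.{u} → S_Ln.{u} := by
  intro hE2 hE3 k _ G _ _ n π S M _ _ mk X hπ hker hD hN hline
  obtain ⟨L, instL, instA, θ, φ, hφ, hφ0, j, hj⟩ := hline
  obtain ⟨m, ρ, τ, hJ⟩ := hE2 k G n π S M mk X L θ φ j hπ hker hD hN hφ hφ0
  obtain ⟨m0, hm0⟩ : ∃ m0 : M, φ m0 ≠ 0 := by
    by_contra hcon
    push Not at hcon
    exact hφ0 (LinearMap.ext hcon)
  have hq : Polynomial.C (θ j) * Polynomial.X * φ m0 ≠ 0 := by
    refine mul_ne_zero (mul_ne_zero ?_ Polynomial.X_ne_zero) hm0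
    exact fun h0 => hj (Polynomial.C_eq_zero.1 h0)
  obtain ⟨f, g, h, hfgh⟩ := hE3 L m ρ τ _ hq
  apply hfgh
  set s : Set (Polynomial L) :=
    Set.range fun v : M => Polynomial.C (θ j) * Polynomial.X * φ v with hs
  have hX : ∀ p ∈ Submodule.span L s, Polynomial.X * p ∈ Submodule.span L s := by
    intro p hp
    have hle : Submodule.span L s ≤ (Submodule.span L s).comap
        (LinearMap.mulLeft L (Polynomial.X : Polynomial L)) := by
      refine Submodule.span_le.2 ?_
      rintro _ ⟨v, rfl⟩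
      show Polynomial.X * (Polynomial.C (θ j) * Polynomial.X * φ v) ∈ Submodule.span L s
      have e : Polynomial.X * (Polynomial.C (θ j) * Polynomial.X * φ v) =
          (θ j)⁻¹ • (Polynomial.C (θ j) * Polynomial.X * φ (X j v)) := by
        rw [hφ, Polynomial.smul_eq_C_mul]
        have e1 : Polynomial.C (θ j)⁻¹ * Polynomial.C (θ j) = 1 := by
          rw [← Polynomial.C_mul, inv_mul_cancel₀ hj, Polynomial.C_1]
        calc Polynomial.X * (Polynomial.C (θ j) * Polynomial.X * φ v)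
            = 1 * (Polynomial.X * (Polynomial.C (θ j) * Polynomial.X * φ v)) := by rw [one_mul]
          _ = (Polynomial.C (θ j)⁻¹ * Polynomial.C (θ j)) *
              (Polynomial.X * (Polynomial.C (θ j) * Polynomial.X * φ v)) := by rw [e1]
          _ = _ := by ring
      rw [e]
      exact Submodule.smul_mem _ _ (Submodule.subset_span ⟨X j v, rfl⟩)
    exact hle hp
  have hpow : ∀ (e : ℕ), ∀ p ∈ Submodule.span L s,
      Polynomial.X ^ e * p ∈ Submodule.span L s := by
    intro e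
    induction e with
    | zero =>
      intro p hp
      rw [pow_zero, one_mul]
      exact hp
    | succ e ih =>
      intro p hp
      rw [pow_succ', mul_assoc]
      exact hX _ (ih p hp)
  have hmul : ∀ p ∈ Submodule.span L s, ∀ r : Polynomial L, p * r ∈ Submodule.span L s := by
    intro p hp r
    induction r using Polynomial.induction_on' with
    | add a b ha hb =>
      rw [mul_add]
      exact Submodule.add_mem _ ha hb
    | monomial e c =>
      have e1 : p * Polynomial.monomial e c = c • (Polynomial.X ^ e * p) := by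
        rw [← Polynomial.C_mul_X_pow_eq_monomial, Polynomial.smul_eq_C_mul]
        ring
      rw [e1]
      exact Submodule.smul_mem _ _ (hpow e p hp)
  have hq' : Polynomial.C (θ j) * Polynomial.X * φ m0 ∈ Submodule.span L s :=
    Submodule.subset_span ⟨m0, rfl⟩
  refine Ln_tri (JT ρ τ) s ?_ _ (hmul _ hq' f) _ (hmul _ hq' g) _ (hmul _ hq' h)
  rintro _ ⟨a, rfl⟩ _ ⟨b, rfl⟩ _ ⟨c, rfl⟩
  exact hJ a b c

end Pool.Agent.Lib.MP_240c17_al.Q2.Abc
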