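import Pool.Agent.Lib.MP_240c17_al.Q2.Abc.Spec

/-!
# MP_240c17, project Q2, stage ABC: minimal primes of `A ⊗ A` and flatness
-/

set_option autoImplicit false

namespace Pool.Agent.Lib.MP_240c17_al.Q2.Abc

universe u

open Pool.Agent.Lib.MP_240c17_al Pool.Agent.Lib.MP_240c17_al.Two TensorProduct Polynomial

section key
attribute [local instance] Polynomial.algebra

variable {k : Type u} [Field k] {B B' : Type u} [CommRing B] [CommRing B']
  [Algebra k B] [Algebra k B'] [Algebra k[X] B] [IsScalarTower k k[X] B]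

/-- `β ⊗ γ ↦ β ⊗ C γ` -/
private noncomputable def Mp_phi : B ⊗[k] B' →ₐ[k] B ⊗[k[X]] B'[X] :=
  Algebra.TensorProduct.lift (Algebra.TensorProduct.includeLeft (R := k[X]) (S := k) (A := B)
      (B := B'[X]))
    (((Algebra.TensorProduct.includeRight (R := k[X]) (A := B) (B := B'[X])).restrictScalars k).comp
      (Polynomial.CAlgHom (R := k) (A := B')))
    (fun _ _ => Commute.all _ _)

private theorem Mp_phi_tmul (β : B) (γ : B') :
    (Mp_phi (β ⊗ₜ[k] γ) : B ⊗[k[X]] B'[X]) = β ⊗ₜ[k[X]] (C γ) := by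
  rw [Mp_phi, Algebra.TensorProduct.lift_tmul]
  simp

/-- evaluation at `β₀ ⊗ 1` -/
private noncomputable def Mp_g : B'[X] →ₐ[k[X]] B ⊗[k] B' where
  toRingHom := Polynomial.eval₂RingHom
    (Algebra.TensorProduct.includeRight (R := k) (A := B) (B := B')).toRingHom
    ((algebraMap k[X] B X) ⊗ₜ[k] (1 : B'))
  commutes' p := by
    have h : (Polynomial.eval₂RingHom
        (Algebra.TensorProduct.includeRight (R := k) (A := B) (B := B')).toRingHom
        ((algebraMap k[X] B X) ⊗ₜ[k] (1 : B'))).comp (algebraMap k[X] B'[X]) =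
        algebraMap k[X] (B ⊗[k] B') := by
      refine Polynomial.ringHom_ext ?_ ?_
      · intro a
        have h1 : algebraMap k[X] (B ⊗[k] B') (C a) = (algebraMap k[X] B (C a)) ⊗ₜ[k] (1 : B') := rfl
        have h2 : algebraMap k[X] B (C a) = algebraMap k B a :=
          (IsScalarTower.algebraMap_apply k k[X] B a).symm
        rw [h1, h2]
        simp [Algebra.TensorProduct.tmul_one_eq_one_tmul]
      · have h1 : algebraMap k[X] (B ⊗[k] B') X = (algebraMap k[X] B X) ⊗ₜ[k] (1 : B') := rfl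
        rw [h1]
        simp
    exact RingHom.congr_fun h p

private noncomputable def Mp_psi : B ⊗[k[X]] B'[X] →ₐ[k[X]] B ⊗[k] B' :=
  Algebra.TensorProduct.productMap
    (Algebra.TensorProduct.includeLeft (R := k) (S := k[X]) (A := B) (B := B')) Mp_g

private theorem Mp_psi_phi (y : B ⊗[k] B') : Mp_psi (Mp_phi y : B ⊗[k[X]] B'[X]) = y := by
  induction y using TensorProduct.induction_on with
  | zero => simp
  | tmul a b =>
    rw [Mp_phi_tmul, Mp_psi, Algebra.TensorProduct.productMap_apply_tmul]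
    have h1 : (Mp_g (C b) : B ⊗[k] B') = (1 : B) ⊗ₜ[k] b := by
      show Polynomial.eval₂RingHom _ _ (C b) = _
      simp
    rw [h1, Algebra.TensorProduct.includeLeft_apply, Algebra.TensorProduct.tmul_mul_tmul, one_mul,
      mul_one]
  | add a b ha hb => rw [map_add, map_add, ha, hb]

private theorem Mp_phi_sum (G : B'[X]) :
    (Mp_phi (G.sum fun l c => ((algebraMap k[X] B X) ^ l) ⊗ₜ[k] c) : B ⊗[k[X]] B'[X]) =
      (1 : B) ⊗ₜ[k[X]] G := by
  have h0 : ∀ (l : ℕ) (c : B'), ((algebraMap k[X] B X) ^ l) ⊗ₜ[k[X]] (C c) =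
      (1 : B) ⊗ₜ[k[X]] (Polynomial.monomial l c) := by
    intro l c
    have h1 : (algebraMap k[X] B X) ^ l = (X ^ l : k[X]) • (1 : B) := by
      rw [Algebra.smul_def, mul_one, map_pow]
    have h2 : (X ^ l : k[X]) • (C c : B'[X]) = Polynomial.monomial l c := by
      rw [Algebra.smul_def, map_pow, Polynomial.algebraMap_def, Polynomial.coe_mapRingHom,
        Polynomial.map_X, mul_comm, Polynomial.C_mul_X_pow_eq_monomial]
    rw [h1, TensorProduct.smul_tmul, h2]
  rw [Polynomial.sum_def, map_sum]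
  simp only [Mp_phi_tmul, h0]
  rw [← TensorProduct.tmul_sum]
  exact congrArg _ (Polynomial.as_sum_support G).symm

private theorem Mp_key [IsDomain B] [IsDomain B'] (hinj : Function.Injective (algebraMap k[X] B))
    (G : B'[X]) (hG : G ≠ 0) (y : B ⊗[k] B')
    (h : (G.sum fun l c => ((algebraMap k[X] B X) ^ l) ⊗ₜ[k] c) * y = 0) : y = 0 := by
  haveI : Module.IsTorsionFree k[X] B := Module.isTorsionFree_iff_algebraMap_injective.mpr hinj
  have hf : Function.Injective (LinearMap.lTensor B (LinearMap.mulLeft k[X] G)) := by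
    refine Module.Flat.lTensor_preserves_injective_linearMap _ ?_
    intro a b hab
    exact mul_left_cancel₀ hG hab
  have hm : ∀ w : B ⊗[k[X]] B'[X], LinearMap.lTensor B (LinearMap.mulLeft k[X] G) w =
      ((1 : B) ⊗ₜ[k[X]] G) * w := by
    intro w
    induction w using TensorProduct.induction_on with
    | zero => simp
    | tmul a b => rw [LinearMap.lTensor_tmul, Algebra.TensorProduct.tmul_mul_tmul, one_mul]; rfl
    | add a b ha hb => rw [map_add, ha, hb, mul_add]
  have h1 : (Mp_phi y : B ⊗[k[X]] B'[X]) = 0 := by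
    apply hf
    rw [hm, map_zero, ← Mp_phi_sum, ← map_mul, h, map_zero]
  rw [← Mp_psi_phi y, h1, map_zero]

end key

theorem tMp : S_Mp.{u} := by
  intro k _ A _ _ Q b hQ hb g hg hz
  haveI hQp : Q.IsPrime := Ideal.minimalPrimes_isPrime hQ
  set iL : A →ₐ[k] A ⊗[k] A := Algebra.TensorProduct.includeLeft with hiL
  set iR : A →ₐ[k] A ⊗[k] A := Algebra.TensorProduct.includeRight with hiR
  set q : Ideal A := Q.comap iL with hq
  set q' : Ideal A := Q.comap iR with hq'
  haveI : q.IsPrime := Ideal.comap_isPrime iL Q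
  haveI : q'.IsPrime := Ideal.comap_isPrime iR Q
  set f : A →ₐ[k] A ⧸ q := Ideal.Quotient.mkₐ k q with hf
  set f' : A →ₐ[k] A ⧸ q' := Ideal.Quotient.mkₐ k q' with hf'
  set μ : A ⊗[k] A →ₐ[k] (A ⧸ q) ⊗[k] (A ⧸ q') := Algebra.TensorProduct.map f f' with hμ
  have hker : RingHom.ker μ ≤ Q := by
    rw [hμ, Algebra.TensorProduct.map_ker f f' (Ideal.Quotient.mkₐ_surjective k q)
      (Ideal.Quotient.mkₐ_surjective k q'), sup_le_iff, Ideal.map_le_iff_le_comap,
      Ideal.map_le_iff_le_comap]
    refine ⟨?_, ?_⟩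
    · intro a ha
      have : a ∈ q := by
        rw [hf] at ha
        exact Ideal.Quotient.eq_zero_iff_mem.mp ha
      exact this
    · intro a ha
      have : a ∈ q' := by
        rw [hf'] at ha
        exact Ideal.Quotient.eq_zero_iff_mem.mp ha
      exact this
  have hQ2 : Q ∈ (RingHom.ker μ).minimalPrimes := by
    refine ⟨⟨hQp, hker⟩, ?_⟩
    intro P hP hPQ
    exact hQ.2 ⟨hP.1, bot_le⟩ hPQ
  obtain ⟨y, hy, hzy⟩ := Ideal.exists_mul_mem_of_mem_minimalPrimes hQ2 hz
  rw [RingHom.mem_ker] at hy hzy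
  letI : Algebra k[X] (A ⧸ q) := (Polynomial.aeval (R := k) (f b)).toRingHom.toAlgebra
  have hmap : ∀ p : k[X], algebraMap k[X] (A ⧸ q) p = Polynomial.aeval (f b) p := fun _ => rfl
  haveI : IsScalarTower k k[X] (A ⧸ q) := IsScalarTower.of_algebraMap_eq fun c => by
    rw [hmap, Polynomial.algebraMap_apply, Algebra.algebraMap_self, RingHom.id_apply,
      Polynomial.aeval_C]
  have hinj : Function.Injective (algebraMap k[X] (A ⧸ q)) := by
    rw [injective_iff_map_eq_zero]
    intro p hp
    by_contra hne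
    apply hb p hne
    rw [hmap, Polynomial.aeval_algHom_apply] at hp
    have h1 : Polynomial.aeval b p ∈ q := Ideal.Quotient.eq_zero_iff_mem.mp hp
    exact h1
  have hG : g.map f'.toRingHom ≠ 0 := by
    obtain ⟨l, hl⟩ := hg
    intro h0
    apply hl
    have h1 : f' (g.coeff l) = 0 := by
      have := congrArg (fun r => Polynomial.coeff r l) h0
      simpa using this
    have h2 : g.coeff l ∈ q' := Ideal.Quotient.eq_zero_iff_mem.mp h1
    exact h2
  apply hy
  refine Mp_key hinj (g.map f'.toRingHom) hG (μ y) ?_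
  rw [← hzy, map_mul]
  congr 1
  have hd : (g.map f'.toRingHom).natDegree < g.natDegree + 1 :=
    Nat.lt_succ_of_le Polynomial.natDegree_map_le
  rw [Polynomial.sum_over_range' _ (fun n => TensorProduct.tmul_zero _ _) (g.natDegree + 1) hd,
    Polynomial.sum_over_range' _ (fun n => TensorProduct.tmul_zero _ _) (g.natDegree + 1)
      (Nat.lt_succ_self _), map_sum]
  refine Finset.sum_congr rfl fun l _ => ?_
  rw [hμ, Algebra.TensorProduct.map_tmul, map_pow, Polynomial.coeff_map, hmap, Polynomial.aeval_X]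
  rfl

end Pool.Agent.Lib.MP_240c17_al.Q2.Abc
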