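import Pool.Agent.Lib.MP_240c17_al.Q2.Abc.Spec

/-!
# MP_240c17, project Q2, stage ABC: module N2a (evaluation at points)
-/

set_option autoImplicit false

namespace Pool.Agent.Lib.MP_240c17_al.Q2.Abc

universe u

open Pool.Agent.Lib.MP_240c17_al Pool.Agent.Lib.MP_240c17_al.Two TensorProduct

section
variable {k : Type u} [Field k] {n : ℕ}

/-- the evaluation `s ⊗ t` -/
private noncomputable def N2a_ev (s t : Fin n → k) : Pn k n ⊗[k] Pn k n →ₐ[k] k :=
  Algebra.TensorProduct.productMap (MvPolynomial.aeval s) (MvPolynomial.aeval t)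

private theorem N2a_ev_tmul (s t : Fin n → k) (a b : Pn k n) :
    N2a_ev s t (a ⊗ₜ[k] b) = MvPolynomial.eval s a * MvPolynomial.eval t b := by
  rw [N2a_ev, Algebra.TensorProduct.productMap_apply_tmul, MvPolynomial.aeval_eq_eval,
    MvPolynomial.aeval_eq_eval]

private theorem N2a_eval_fP (s : Fin n → k) (y : Fin n → k) :
    MvPolynomial.eval s (fP k n y) = ∑ i, y i * s i := by
  show MvPolynomial.eval s (∑ i, y i • MvPolynomial.X i) = _
  simp only [map_sum, MvPolynomial.smul_eval, MvPolynomial.eval_X]

private theorem N2a_ev_fN (s t : Fin n → k) (y : Fin n → k) :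
    N2a_ev s t (fN k n y) = ∑ i, y i * s i := by
  show N2a_ev s t (fP k n y ⊗ₜ[k] (1 : Pn k n)) = _
  rw [N2a_ev_tmul, N2a_eval_fP, map_one, mul_one]

private theorem N2a_ev_gN (s t : Fin n → k) (y : Fin n → k) :
    N2a_ev s t (gN k n y) = ∑ i, y i * t i := by
  show N2a_ev s t ((1 : Pn k n) ⊗ₜ[k] fP k n y) = _
  rw [N2a_ev_tmul, N2a_eval_fP, map_one, one_mul]

/-- an element killed by all evaluations is `0` -/
private theorem N2a_zero [Infinite k] (z : Pn k n ⊗[k] Pn k n) (h : ∀ s t, N2a_ev s t z = 0) :
    z = 0 := by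
  have key : ∀ (s t : Fin n → k) (z : Pn k n ⊗[k] Pn k n),
      MvPolynomial.eval t (MvPolynomial.map (MvPolynomial.eval s)
        (MvPolynomial.algebraTensorAlgEquiv k (Pn k n) z)) = N2a_ev s t z := by
    intro s t z
    induction z using TensorProduct.induction_on with
    | zero => simp
    | tmul a b =>
      rw [MvPolynomial.algebraTensorAlgEquiv_tmul, N2a_ev_tmul, MvPolynomial.smul_eq_C_mul, map_mul,
        map_mul, MvPolynomial.map_C, MvPolynomial.eval_C, MvPolynomial.map_map]
      congr 1
      have e : (MvPolynomial.eval s).comp (algebraMap k (Pn k n)) = RingHom.id k := by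
        ext x
        simp [MvPolynomial.algebraMap_eq]
      rw [e, MvPolynomial.map_id]
    | add a b ha hb => rw [map_add, map_add, map_add, map_add, ha, hb]
  have h1 : MvPolynomial.algebraTensorAlgEquiv k (Pn k n) z = 0 := by
    ext1 m
    rw [MvPolynomial.coeff_zero]
    apply MvPolynomial.funext
    intro s
    have h2 : MvPolynomial.map (MvPolynomial.eval s)
        (MvPolynomial.algebraTensorAlgEquiv k (Pn k n) z) = 0 := by
      apply MvPolynomial.funext
      intro t
      rw [key, h, map_zero]
    rw [← MvPolynomial.coeff_map, h2, MvPolynomial.coeff_zero, map_zero]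
  exact (map_eq_zero_iff _ (MvPolynomial.algebraTensorAlgEquiv k (Pn k n)).injective).mp h1

/-- the homomorphism given by two points -/
private noncomputable def N2a_psi (s t : Fin n → k) : GN k n →ₗ⁅k⁆ H2 k where
  toFun g := ⟨![∑ i, g.t i * s i, ∑ i, g.t i * t i], N2a_ev s t g.a, N2a_ev s t g.b, N2a_ev s t g.c⟩
  map_add' p q := by
    refine HL.ext ?_ ?_ ?_ ?_
    · funext j
      fin_cases j
      · simp [add_mul, Finset.sum_add_distrib]
      · simp [add_mul, Finset.sum_add_distrib]
    · simp
    · simp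
    · simp
  map_smul' r p := by
    refine HL.ext ?_ ?_ ?_ ?_
    · funext j
      fin_cases j
      · simp [mul_assoc, Finset.mul_sum]
      · simp [mul_assoc, Finset.mul_sum]
    · simp
    · simp
    · simp
  map_lie' := by
    intro p q
    refine HL.ext ?_ ?_ ?_ ?_
    · funext j
      fin_cases j
      · simp
      · simp
    · simp only [HL.lie_a, map_sub, map_mul, N2a_ev_fN]
      rfl
    · simp only [HL.lie_b, map_sub, map_mul, N2a_ev_gN]
      rfl
    · simp only [HL.lie_c, map_sub, map_add, map_mul, N2a_ev_fN, N2a_ev_gN]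
      rfl

private theorem N2a_abel (w : FreeLieAlgebra k (Fin n)) :
    ∃ y : Fin n → k, w - ∑ i, y i • FreeLieAlgebra.of k i ∈ D1 k (FreeLieAlgebra k (Fin n)) := by
  let K : LieSubalgebra k (FreeLieAlgebra k (Fin n)) :=
    { carrier := {w | ∃ y : Fin n → k,
        w - ∑ i, y i • FreeLieAlgebra.of k i ∈ D1 k (FreeLieAlgebra k (Fin n))}
      add_mem' := by
        rintro a b ⟨y, hy⟩ ⟨y', hy'⟩
        refine ⟨y + y', ?_⟩
        have e : a + b - ∑ i, (y + y') i • FreeLieAlgebra.of k i =
            (a - ∑ i, y i • FreeLieAlgebra.of k i) + (b - ∑ i, y' i • FreeLieAlgebra.of k i) := by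
          simp only [Pi.add_apply, add_smul, Finset.sum_add_distrib]
          abel
        rw [e]
        exact add_mem hy hy'
      zero_mem' := ⟨0, by simp⟩
      smul_mem' := by
        rintro c a ⟨y, hy⟩
        refine ⟨c • y, ?_⟩
        have e : c • a - ∑ i, (c • y) i • FreeLieAlgebra.of k i =
            c • (a - ∑ i, y i • FreeLieAlgebra.of k i) := by
          simp only [Pi.smul_apply, smul_eq_mul, mul_smul, smul_sub, Finset.smul_sum]
        rw [e]
        exact (D1 k (FreeLieAlgebra k (Fin n))).smul_mem c hy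
      lie_mem' := by
        rintro a b _ _
        refine ⟨0, ?_⟩
        simp only [Pi.zero_apply, zero_smul, Finset.sum_const_zero, sub_zero]
        exact LieSubmodule.lie_mem_lie (LieSubmodule.mem_top a) (LieSubmodule.mem_top b) }
  have hgen : ∀ i, FreeLieAlgebra.of k i ∈ K := by
    intro i
    refine ⟨Pi.single i 1, ?_⟩
    have e : FreeLieAlgebra.of k i - ∑ j, (Pi.single i 1 : Fin n → k) j • FreeLieAlgebra.of k j =
        0 := by
      rw [Finset.sum_eq_single i]
      · simp
      · intro j _ hj
        simp [hj]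
      · intro hi
        exact absurd (Finset.mem_univ i) hi
    rw [e]
    exact zero_mem _
  have h := lift_mem K (FreeLieAlgebra.of k) hgen w
  have hid : FreeLieAlgebra.lift k (FreeLieAlgebra.of k) =
      (LieHom.id : FreeLieAlgebra k (Fin n) →ₗ⁅k⁆ FreeLieAlgebra k (Fin n)) := by
    apply FreeLieAlgebra.hom_ext
    intro x
    rw [FreeLieAlgebra.lift_of_apply]
    rfl
  rw [hid] at h
  exact h

/-- the first component is additive and vanishes on commutators -/
private noncomputable def N2a_t : H2 k →ₗ[k] (Fin 2 → k) where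
  toFun g := g.t
  map_add' _ _ := rfl
  map_smul' _ _ := rfl

private theorem N2a_t_D1 (ρ : Fin n → H2 k) (w : FreeLieAlgebra k (Fin n))
    (hw : w ∈ D1 k (FreeLieAlgebra k (Fin n))) : (FreeLieAlgebra.lift k ρ w).t = 0 := by
  have hle : (D1 k (FreeLieAlgebra k (Fin n))).toSubmodule ≤
      LinearMap.ker (N2a_t.comp (FreeLieAlgebra.lift k ρ : FreeLieAlgebra k (Fin n) →ₗ[k] H2 k)) := by
    rw [LieSubmodule.lieIdeal_oper_eq_linear_span', Submodule.span_le]
    rintro _ ⟨x, _, y, _, rfl⟩
    show (FreeLieAlgebra.lift k ρ ⁅x, y⁆).t = 0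
    rw [LieHom.map_lie]
    rfl
  exact hle hw

end

theorem tN2a : S_Thd.{u} → S_N2a.{u} := by
  intro hT k _ _ n w hw
  have hpsi : ∀ (p q : Fin n) (s t : Fin n → k), N2a_psi s t (Th k p q w) = 0 := by
    intro p q s t
    have e : (N2a_psi s t).comp (Th k p q) = FreeLieAlgebra.lift k (fun i =>
        N2a_psi s t ⟨Pi.single i 1, if i = p then 1 else 0, if i = q then 1 else 0, 0⟩) := by
      apply FreeLieAlgebra.hom_ext
      intro i
      rw [LieHom.comp_apply, Th, FreeLieAlgebra.lift_of_apply, FreeLieAlgebra.lift_of_apply]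
    have h := hw (fun i =>
        N2a_psi s t ⟨Pi.single i 1, if i = p then 1 else 0, if i = q then 1 else 0, 0⟩)
    rw [← e] at h
    exact h
  refine ⟨?_, ?_, ?_⟩
  · obtain ⟨y, hy⟩ := N2a_abel w
    have hs : ∀ s : Fin n → k, ∑ i, y i * s i = 0 := by
      intro s
      let ρ : Fin n → H2 k := fun i => ⟨![s i, 0], 0, 0, 0⟩
      have h1 := N2a_t_D1 ρ _ hy
      rw [map_sub, hw ρ, zero_sub, map_sum] at h1
      have h2 : (-(∑ i, FreeLieAlgebra.lift k ρ (y i • FreeLieAlgebra.of k i))).t 0 =
          -(∑ i, y i * s i) := by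
        have h3 : ∀ i, FreeLieAlgebra.lift k ρ (y i • FreeLieAlgebra.of k i) = y i • ρ i := by
          intro i
          rw [map_smul, FreeLieAlgebra.lift_of_apply]
        simp only [h3]
        have h4 : (N2a_t (-(∑ i, y i • ρ i))) 0 = -(∑ i, y i * s i) := by
          rw [map_neg, map_sum]
          simp only [map_smul, Pi.neg_apply, Finset.sum_apply, Pi.smul_apply, smul_eq_mul]
          rfl
        exact h4
      have h5 : (-(∑ i, FreeLieAlgebra.lift k ρ (y i • FreeLieAlgebra.of k i))).t 0 = 0 := by
        rw [h1]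
        rfl
      rw [h2] at h5
      exact neg_eq_zero.mp h5
    have hy0 : y = 0 := by
      funext i
      have h := hs (Pi.single i 1)
      rw [Finset.sum_eq_single i] at h
      · simpa using h
      · intro j _ hj
        simp [hj]
      · intro hi
        exact absurd (Finset.mem_univ i) hi
    rw [hy0] at hy
    simpa using hy
  · intro p
    apply MvPolynomial.funext
    intro s
    have h := congrArg HL.a (hpsi p p s s)
    have h1 : N2a_ev s s (Th k p p w).a = 0 := h
    rw [(hT k n p p w).1, N2a_ev_tmul, map_one, mul_one] at h1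
    rw [h1, map_zero]
  · intro p q
    apply N2a_zero
    intro s t
    exact congrArg HL.c (hpsi p q s t)

end Pool.Agent.Lib.MP_240c17_al.Q2.Abc
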