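import Pool.Agent.Lib.MP_240c17_al.Q2.Abc.Spec

/-!
# MP_240c17, project Q2, stage ABC, module N2b: the kernel on the second derived algebra
-/

set_option autoImplicit false

namespace Pool.Agent.Lib.MP_240c17_al.Q2.Abc

universe u

open Pool.Agent.Lib.MP_240c17_al Pool.Agent.Lib.MP_240c17_al.Two TensorProduct

section

variable {k : Type u} [Field k] {P : Type u} [LieRing P] [LieAlgebra k P]

private theorem N2b_D1 (K : Submodule k P) (h : ∀ a b : P, ⁅a, b⁆ ∈ K) {x : P}
    (hx : x ∈ D1 k P) : x ∈ K := by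
  have h1 : (D1 k P).toSubmodule ≤ K := by
    rw [LieSubmodule.lieIdeal_oper_eq_linear_span', Submodule.span_le]
    rintro _ ⟨a, _, b, _, rfl⟩
    exact h a b
  exact h1 hx

private theorem N2b_D2 (K : Submodule k P) (h : ∀ a ∈ D1 k P, ∀ b ∈ D1 k P, ⁅a, b⁆ ∈ K) {x : P}
    (hx : x ∈ D2 k P) : x ∈ K := by
  have h1 : (D2 k P).toSubmodule ≤ K := by
    rw [LieSubmodule.lieIdeal_oper_eq_linear_span', Submodule.span_le]
    rintro _ ⟨a, ha, b, hb, rfl⟩
    exact h a ha b hb
  exact h1 hx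

end

section

variable {k : Type u} [Field k] {n : ℕ}

/-- the Fox derivative as a linear map -/
private noncomputable def N2b_d (p : Fin n) : FreeLieAlgebra k (Fin n) →ₗ[k] Pn k n where
  toFun w := dF p w
  map_add' a b := by
    unfold dF
    rw [map_add, HL.add_a]
  map_smul' c a := by
    unfold dF
    rw [map_smul, HL.smul_a]
    rfl

private theorem N2b_t (p : Fin n) {w : FreeLieAlgebra k (Fin n)}
    (hw : w ∈ D1 k (FreeLieAlgebra k (Fin n))) : (FX k p w).t = 0 := by
  let T : FreeLieAlgebra k (Fin n) →ₗ[k] (Fin n → k) :=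
    { toFun := fun w => (FX k p w).t
      map_add' := fun a b => by rw [map_add, HL.add_t]
      map_smul' := fun c a => by rw [map_smul, HL.smul_t]; rfl }
  have h : w ∈ LinearMap.ker T := N2b_D1 _ (fun a b => by
    rw [LinearMap.mem_ker]
    show (FX k p ⁅a, b⁆).t = 0
    rw [LieHom.map_lie, HL.lie_t]) hw
  exact LinearMap.mem_ker.1 h

private theorem N2b_dD2 (p : Fin n) {w : FreeLieAlgebra k (Fin n)}
    (hw : w ∈ D2 k (FreeLieAlgebra k (Fin n))) : dF p w = 0 := by
  have h : w ∈ LinearMap.ker (N2b_d (k := k) p) := N2b_D2 _ (fun a ha b hb => by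
    rw [LinearMap.mem_ker]
    show (FX k p ⁅a, b⁆).a = 0
    rw [LieHom.map_lie, HL.lie_a, N2b_t p ha, N2b_t p hb, map_zero, mul_zero, mul_zero,
      sub_zero]) hw
  exact LinearMap.mem_ker.1 h

/-- an element of `Pⁿ ⊗ Pⁿ` is determined by its components -/
private theorem N2b_pr {Q : Type u} [AddCommGroup Q] [Module k Q]
    (x : (Fin n → Q) ⊗[k] (Fin n → Q))
    (h : ∀ p q, TensorProduct.map (LinearMap.proj p : (Fin n → Q) →ₗ[k] Q)
      (LinearMap.proj q : (Fin n → Q) →ₗ[k] Q) x = 0) : x = 0 := by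
  have key : ∀ x : (Fin n → Q) ⊗[k] (Fin n → Q), x = ∑ p, ∑ q,
      TensorProduct.map (LinearMap.single k (fun _ : Fin n => Q) p)
        (LinearMap.single k (fun _ : Fin n => Q) q)
        (TensorProduct.map (LinearMap.proj p : (Fin n → Q) →ₗ[k] Q)
          (LinearMap.proj q : (Fin n → Q) →ₗ[k] Q) x) := by
    intro x
    induction x with
    | zero => simp
    | tmul a b =>
      simp only [TensorProduct.map_tmul, LinearMap.proj_apply, LinearMap.coe_single]
      have ha : ∑ p, Pi.single p (a p) = a := Finset.univ_sum_single a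
      have hb : ∑ q, Pi.single q (b q) = b := Finset.univ_sum_single b
      conv_lhs => rw [← ha, ← hb]
      rw [TensorProduct.sum_tmul]
      refine Finset.sum_congr rfl fun p _ => ?_
      rw [TensorProduct.tmul_sum]
    | add a b ha hb =>
      conv_lhs => rw [ha, hb]
      simp only [map_add, Finset.sum_add_distrib]
  rw [key x]
  refine Finset.sum_eq_zero fun p _ => Finset.sum_eq_zero fun q _ => ?_
  rw [h p q, map_zero]

private theorem N2b_top : LieSubalgebra.lieSpan k (FreeLieAlgebra k (Fin n))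
    (Set.range (FreeLieAlgebra.of k)) = ⊤ := by
  rw [eq_top_iff]
  intro w _
  have hf : ∀ i : Fin n, FreeLieAlgebra.of k i ∈ LieSubalgebra.lieSpan k (FreeLieAlgebra k (Fin n))
    (Set.range (FreeLieAlgebra.of k)) := fun i => LieSubalgebra.subset_lieSpan ⟨i, rfl⟩
  have h : (LieHom.id : FreeLieAlgebra k (Fin n) →ₗ⁅k⁆ FreeLieAlgebra k (Fin n)) =
      (LieSubalgebra.lieSpan k (FreeLieAlgebra k (Fin n)) (Set.range (FreeLieAlgebra.of k))).incl.comp
        (FreeLieAlgebra.lift k (fun x => ⟨FreeLieAlgebra.of k x, hf x⟩)) := by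
    apply FreeLieAlgebra.hom_ext
    intro x
    rw [LieHom.comp_apply, FreeLieAlgebra.lift_of_apply]
    rfl
  have h1 := LieHom.congr_fun h w
  change w = _ at h1
  rw [h1]
  exact (FreeLieAlgebra.lift k (fun x => (⟨FreeLieAlgebra.of k x, hf x⟩ :
    LieSubalgebra.lieSpan k (FreeLieAlgebra k (Fin n)) (Set.range (FreeLieAlgebra.of k)))) w).2

end

theorem tN2b : S_Thd.{u} → S_Fox.{u} → S_Der.{u} → S_N2b.{u} := by
  intro hThd hFox hDer k _ h2 n w hw hc
  obtain ⟨M, _, _, mk, X, hX, -, -⟩ := hDer k (FreeLieAlgebra k (Fin n)) n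
    (FreeLieAlgebra.of k) N2b_top
  obtain ⟨s, hs⟩ := mk.exists_rightInverse_of_surjective (LinearMap.range_eq_top.2 hX.surj)
  have hs' : ∀ m, mk (s m) = m := fun m => LinearMap.congr_fun hs m
  have hd : ∀ a : ↥(D1 k (FreeLieAlgebra k (Fin n))).toSubmodule,
      ((s (mk a) : FreeLieAlgebra k (Fin n)) - a) ∈ D2 k (FreeLieAlgebra k (Fin n)) := fun a =>
    (hX.ker (s (mk a) - a)).1 (by rw [map_sub, hs', sub_self])
  let C : LieIdeal k (FreeLieAlgebra k (Fin n)) :=
    ⁅D2 k (FreeLieAlgebra k (Fin n)), D1 k (FreeLieAlgebra k (Fin n))⁆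
  let B : M →ₗ[k] M →ₗ[k] (FreeLieAlgebra k (Fin n) ⧸ C.toSubmodule) := LinearMap.mk₂ k
    (fun m m' => C.toSubmodule.mkQ ⁅(s m : FreeLieAlgebra k (Fin n)), (s m' : FreeLieAlgebra k (Fin n))⁆)
    (fun a b c => by rw [map_add, Submodule.coe_add, add_lie, map_add])
    (fun r a b => by rw [map_smul, Submodule.coe_smul, smul_lie, map_smul])
    (fun a b c => by rw [map_add, Submodule.coe_add, lie_add, map_add])
    (fun r a b => by rw [map_smul, Submodule.coe_smul, lie_smul, map_smul])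
  let β : M ⊗[k] M →ₗ[k] (FreeLieAlgebra k (Fin n) ⧸ C.toSubmodule) := TensorProduct.lift B
  have hβ : ∀ m m', β (m ⊗ₜ[k] m') = C.toSubmodule.mkQ
      ⁅(s m : FreeLieAlgebra k (Fin n)), (s m' : FreeLieAlgebra k (Fin n))⁆ := fun _ _ => rfl
  have hβ2 : ∀ a b : ↥(D1 k (FreeLieAlgebra k (Fin n))).toSubmodule, β (mk a ⊗ₜ[k] mk b) =
      C.toSubmodule.mkQ ⁅(a : FreeLieAlgebra k (Fin n)), (b : FreeLieAlgebra k (Fin n))⁆ := by
    intro a b
    rw [hβ, ← sub_eq_zero, ← map_sub, Submodule.mkQ_apply, Submodule.Quotient.mk_eq_zero]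
    have e : ⁅(s (mk a) : FreeLieAlgebra k (Fin n)), (s (mk b) : FreeLieAlgebra k (Fin n))⁆ -
        ⁅(a : FreeLieAlgebra k (Fin n)), (b : FreeLieAlgebra k (Fin n))⁆ =
        ⁅(s (mk a) : FreeLieAlgebra k (Fin n)) - a, (s (mk b) : FreeLieAlgebra k (Fin n))⁆ -
          ⁅(s (mk b) : FreeLieAlgebra k (Fin n)) - b, (a : FreeLieAlgebra k (Fin n))⁆ := by
      rw [sub_lie, sub_lie, ← lie_skew (s (mk b) : FreeLieAlgebra k (Fin n)) a,
        ← lie_skew (b : FreeLieAlgebra k (Fin n)) a]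
      abel
    rw [e]
    exact C.toSubmodule.sub_mem (LieSubmodule.lie_mem_lie (hd a) (s (mk b)).2)
      (LieSubmodule.lie_mem_lie (hd b) a.2)
  have hβc : ∀ z, β (TensorProduct.comm k M M z) = -β z := by
    have h : β ∘ₗ (TensorProduct.comm k M M).toLinearMap = -β := by
      refine TensorProduct.ext' fun a b => ?_
      show β (TensorProduct.comm k M M (a ⊗ₜ[k] b)) = -β (a ⊗ₜ[k] b)
      rw [TensorProduct.comm_tmul, hβ, hβ, ← lie_skew, map_neg]
    exact fun z => LinearMap.congr_fun h z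
  let δ : Fin n → M →ₗ[k] Pn k n := fun p =>
    N2b_d p ∘ₗ (D1 k (FreeLieAlgebra k (Fin n))).toSubmodule.subtype ∘ₗ s
  have hδ : ∀ p (a : ↥(D1 k (FreeLieAlgebra k (Fin n))).toSubmodule), δ p (mk a) = dF p a := by
    intro p a
    show N2b_d p (s (mk a) : FreeLieAlgebra k (Fin n)) = N2b_d p a
    rw [← sub_eq_zero, ← map_sub]
    exact N2b_dD2 p (hd a)
  let K : Submodule k (FreeLieAlgebra k (Fin n)) :=
    { carrier := {w | ∃ z : M ⊗[k] M, β z = C.toSubmodule.mkQ w ∧ ∀ p q, (Th k p q w).c =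
        TensorProduct.map (δ p) (δ q) (z - TensorProduct.comm k M M z)}
      add_mem' := by
        rintro a b ⟨z, h1, h3⟩ ⟨z', h1', h3'⟩
        refine ⟨z + z', ?_, fun p q => ?_⟩
        · rw [map_add, map_add, h1, h1']
        · rw [map_add, HL.add_c, h3, h3', ← map_add]
          congr 1
          rw [map_add]
          abel
      zero_mem' := ⟨0, by rw [map_zero, map_zero], fun p q => by
        rw [map_zero, HL.zero_c, map_zero, sub_self, map_zero]⟩
      smul_mem' := by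
        rintro c a ⟨z, h1, h3⟩
        refine ⟨c • z, ?_, fun p q => ?_⟩
        · rw [map_smul, map_smul, h1]
        · rw [map_smul, HL.smul_c, h3, ← map_smul, smul_sub, map_smul] }
  have hK : w ∈ K := by
    refine N2b_D2 K (fun a ha b hb => ?_) hw
    refine ⟨mk ⟨a, ha⟩ ⊗ₜ[k] mk ⟨b, hb⟩, hβ2 ⟨a, ha⟩ ⟨b, hb⟩, fun p q => ?_⟩
    obtain ⟨a1, a2, a3⟩ := hThd k n p q a
    obtain ⟨b1, b2, b3⟩ := hThd k n p q b
    rw [LieHom.map_lie, HL.lie_c, a3 ha, b3 hb, a1, a2, b1, b2, TensorProduct.comm_tmul, map_sub,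
      TensorProduct.map_tmul, TensorProduct.map_tmul, hδ, hδ, hδ, hδ]
    simp only [Algebra.TensorProduct.tmul_mul_tmul, mul_one, one_mul, map_zero, add_zero, mul_zero,
      sub_self]
  obtain ⟨z, hz1, hz2⟩ := hK
  let D : M →ₗ[k] (Fin n → Pn k n) := LinearMap.pi δ
  have hD : LinearMap.ker D = ⊥ := by
    rw [LinearMap.ker_eq_bot']
    intro m hm
    obtain ⟨a, rfl⟩ := hX.surj m
    rw [hX.ker]
    refine hFox k n a a.2 fun p => ?_
    rw [← hδ]
    exact congrFun hm p
  obtain ⟨r, hr⟩ := LinearMap.exists_leftInverse_of_injective D hD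
  have hy : z - TensorProduct.comm k M M z = 0 := by
    have h3 : TensorProduct.map D D (z - TensorProduct.comm k M M z) = 0 := by
      refine N2b_pr _ fun p q => ?_
      rw [← LinearMap.comp_apply, ← TensorProduct.map_comp]
      show TensorProduct.map (δ p) (δ q) (z - TensorProduct.comm k M M z) = 0
      rw [← hz2, hc]
    have h4 : TensorProduct.map (r ∘ₗ D) (r ∘ₗ D) (z - TensorProduct.comm k M M z) =
        z - TensorProduct.comm k M M z := by
      rw [hr, TensorProduct.map_id]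
      rfl
    rw [← h4, TensorProduct.map_comp, LinearMap.comp_apply, h3, map_zero]
  have h5 : β z = -β z := by
    conv_lhs => rw [sub_eq_zero.1 hy]
    exact hβc z
  have h6 : (2 : k) • β z = 0 := by
    rw [two_smul]
    nth_rewrite 1 [h5]
    exact neg_add_cancel _
  have h7 : β z = 0 := (smul_eq_zero.1 h6).resolve_left h2
  rw [hz1, Submodule.mkQ_apply, Submodule.Quotient.mk_eq_zero] at h7
  exact h7

end Pool.Agent.Lib.MP_240c17_al.Q2.Abc
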