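import Pool.Agent.Lib.MP_240c17_al.Q2.Abc.Spec

/-!
# MP_240c17, project Q2, stage ABC, module N2c: the algebra `H2` generates the variety `N₂A`
-/

set_option autoImplicit false

namespace Pool.Agent.Lib.MP_240c17_al.Q2.Abc

universe u

open Pool.Agent.Lib.MP_240c17_al Pool.Agent.Lib.MP_240c17_al.Two TensorProduct

section

variable {k : Type u} [Field k] {P : Type u} [LieRing P] [LieAlgebra k P]

private theorem N2c_D1 (K : Submodule k P) (h : ∀ a b : P, ⁅a, b⁆ ∈ K) {x : P}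
    (hx : x ∈ D1 k P) : x ∈ K := by
  have h1 : (D1 k P).toSubmodule ≤ K := by
    rw [LieSubmodule.lieIdeal_oper_eq_linear_span', Submodule.span_le]
    rintro _ ⟨a, _, b, _, rfl⟩
    exact h a b
  exact h1 hx

private theorem N2c_D2 (K : Submodule k P) (h : ∀ a ∈ D1 k P, ∀ b ∈ D1 k P, ⁅a, b⁆ ∈ K) {x : P}
    (hx : x ∈ D2 k P) : x ∈ K := by
  have h1 : (D2 k P).toSubmodule ≤ K := by
    rw [LieSubmodule.lieIdeal_oper_eq_linear_span', Submodule.span_le]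
    rintro _ ⟨a, ha, b, hb, rfl⟩
    exact h a ha b hb
  exact h1 hx

private theorem N2c_kill {L : Type u} [LieRing L] [LieAlgebra k L] (f : P →ₗ⁅k⁆ L)
    (hL : IsN2A L) {x : P} (hx : x ∈ (⁅D2 k P, D1 k P⁆ : LieIdeal k P)) : f x = 0 := by
  have h0 : ∀ a b c d e g : P, f ⁅⁅⁅a, b⁆, ⁅c, d⁆⁆, ⁅e, g⁆⁆ = 0 := fun a b c d e g => by
    simp only [LieHom.map_lie]
    exact hL _ _ _ _ _ _
  have h1 : ∀ c d e g : P, ∀ u ∈ D1 k P, f ⁅⁅u, ⁅c, d⁆⁆, ⁅e, g⁆⁆ = 0 := fun c d e g u hu =>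
    N2c_D1 (LinearMap.ker ((f : P →ₗ[k] L) ∘ₗ adr k ⁅e, g⁆ ∘ₗ adr k ⁅c, d⁆))
      (fun a b => h0 a b c d e g) hu
  have h2 : ∀ e g : P, ∀ u ∈ D1 k P, ∀ v ∈ D1 k P, f ⁅⁅u, v⁆, ⁅e, g⁆⁆ = 0 := fun e g u hu v hv =>
    N2c_D1 (LinearMap.ker ((f : P →ₗ[k] L) ∘ₗ adr k ⁅e, g⁆ ∘ₗ (LieAlgebra.ad k P u : P →ₗ[k] P)))
      (fun c d => h1 c d e g u hu) hv
  have h3 : ∀ e g : P, ∀ y ∈ D2 k P, f ⁅y, ⁅e, g⁆⁆ = 0 := fun e g y hy =>
    N2c_D2 (LinearMap.ker ((f : P →ₗ[k] L) ∘ₗ adr k ⁅e, g⁆)) (fun u hu v hv => h2 e g u hu v hv) hy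
  have h4 : ∀ y ∈ D2 k P, ∀ z ∈ D1 k P, f ⁅y, z⁆ = 0 := fun y hy z hz =>
    N2c_D1 (LinearMap.ker ((f : P →ₗ[k] L) ∘ₗ (LieAlgebra.ad k P y : P →ₗ[k] P)))
      (fun e g => h3 e g y hy) hz
  have h5 : (⁅D2 k P, D1 k P⁆ : LieIdeal k P) ≤ f.ker := by
    rw [LieSubmodule.lie_le_iff]
    intro y hy z hz
    rw [LieHom.mem_ker]
    exact h4 y hy z hz
  exact (LieHom.mem_ker).1 (h5 hx)

private theorem N2c_comp {L : Type u} [LieRing L] [LieAlgebra k L] {n : ℕ} (ρ : ℕ → L)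
    (w : FreeLieAlgebra k (Fin n)) :
    FreeLieAlgebra.lift k ρ (FreeLieAlgebra.lift k (fun i : Fin n => FreeLieAlgebra.of k (i : ℕ)) w) =
      FreeLieAlgebra.lift k (fun i : Fin n => ρ i) w := by
  have h : (FreeLieAlgebra.lift k ρ).comp
      (FreeLieAlgebra.lift k (fun i : Fin n => FreeLieAlgebra.of k (i : ℕ))) =
      FreeLieAlgebra.lift k (fun i : Fin n => ρ i) := by
    apply FreeLieAlgebra.hom_ext
    intro i
    simp only [LieHom.comp_apply, FreeLieAlgebra.lift_of_apply]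
  exact LieHom.congr_fun h w

end

theorem tN2c : S_Fs.{u} → S_N2a.{u} → S_Fox.{u} → S_N2b.{u} → S_N2c.{u} := by
  intro hFs hN2a hFox hN2b k _ _ h2 Id hId L _ _ hL g hg ρ
  obtain ⟨n, w, rfl⟩ := hFs k g
  have h1 : ∀ ρ' : Fin n → H2 k, FreeLieAlgebra.lift k ρ' w = 0 := fun ρ' => by
    have h3 := hId _ hg (fun i => if h : i < n then ρ' ⟨i, h⟩ else 0)
    rw [N2c_comp] at h3
    have h4 : (fun i : Fin n => (fun i : ℕ => if h : i < n then ρ' ⟨i, h⟩ else (0 : H2 k)) i) = ρ' := by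
      funext i
      exact dif_pos i.2
    rw [h4] at h3
    exact h3
  obtain ⟨a1, a2, a3⟩ := hN2a k n w h1
  rw [N2c_comp]
  exact N2c_kill _ hL (hN2b k h2 n w (hFox k n w a1 a2) a3)

end Pool.Agent.Lib.MP_240c17_al.Q2.Abc
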