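import Pool.Agent.Lib.MP_240c17_al.Q2.Abc.Spec

/-!
# MP_240c17, project Q2, stage ABC, module Phi: from a line to a linear map
-/

set_option autoImplicit false

namespace Pool.Agent.Lib.MP_240c17_al.Q2.Abc

universe u

open Pool.Agent.Lib.MP_240c17_al Pool.Agent.Lib.MP_240c17_al.Two TensorProduct

/-- a finitely generated faithful module has a nonzero semilinear map to every field over the ring -/
theorem Phi_exists {A : Type u} [CommRing A] {M : Type u} [AddCommGroup M] [Module A M]
    [Module.Finite A M] (hf : ∀ a : A, (∀ m : M, a • m = 0) → a = 0)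
    {Ω : Type u} [Field Ω] (f : A →+* Ω) :
    ∃ φ : M →+ Ω, (∀ (a : A) (m : M), φ (a • m) = f a * φ m) ∧ ∃ m, φ m ≠ 0 := by
  classical
  have hp : (RingHom.ker f).IsPrime := RingHom.ker_isPrime f
  let p : PrimeSpectrum A := ⟨RingHom.ker f, hp⟩
  have hs : p ∈ Module.support A M := by
    rw [Module.support_eq_zeroLocus, PrimeSpectrum.mem_zeroLocus]
    intro a ha
    have h0 : a = 0 := hf a (Module.mem_annihilator.mp ha)
    rw [h0]
    exact p.asIdeal.zero_mem
  have hn : Nontrivial (p.asIdeal.ResidueField ⊗[A] M) :=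
    (Module.mem_support_iff_nontrivial_residueField_tensorProduct p).mp hs
  obtain ⟨v, hv⟩ := exists_ne (0 : p.asIdeal.ResidueField ⊗[A] M)
  have hg : ¬ ∀ g : Module.Dual p.asIdeal.ResidueField (p.asIdeal.ResidueField ⊗[A] M), g v = 0 :=
    fun h => hv ((Module.forall_dual_apply_eq_zero_iff p.asIdeal.ResidueField v).mp h)
  rw [not_forall] at hg
  obtain ⟨g, hg⟩ := hg
  let lf : p.asIdeal.ResidueField →+* Ω := Ideal.ResidueField.lift p.asIdeal f le_rfl (by
    intro a ha
    have h1 : f a ≠ 0 := fun h => ha (RingHom.mem_ker.mpr h)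
    exact (isUnit_iff_ne_zero.mpr h1 : IsUnit (f a)))
  have hlf : ∀ a, lf (algebraMap A p.asIdeal.ResidueField a) = f a := fun a =>
    Ideal.ResidueField.lift_algebraMap p.asIdeal f _ _ a
  have hc : ∀ (c : p.asIdeal.ResidueField) (m : M), g (c ⊗ₜ[A] m) = c * g (1 ⊗ₜ[A] m) := by
    intro c m
    have h1 : c ⊗ₜ[A] m = c • ((1 : p.asIdeal.ResidueField) ⊗ₜ[A] m) := by
      rw [TensorProduct.smul_tmul', smul_eq_mul, mul_one]
    rw [h1, map_smul, smul_eq_mul]
  refine ⟨lf.toAddMonoidHom.comp ((g.toAddMonoidHom).comp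
    (TensorProduct.mk A p.asIdeal.ResidueField M 1).toAddMonoidHom), ?_, ?_⟩
  · intro a m
    show lf (g ((1 : p.asIdeal.ResidueField) ⊗ₜ[A] (a • m))) =
      f a * lf (g ((1 : p.asIdeal.ResidueField) ⊗ₜ[A] m))
    have h1 : (1 : p.asIdeal.ResidueField) ⊗ₜ[A] (a • m) =
        (algebraMap A p.asIdeal.ResidueField a) ⊗ₜ[A] m := by
      rw [← TensorProduct.smul_tmul, Algebra.algebraMap_eq_smul_one]
    rw [h1, hc, map_mul, hlf]
  · by_contra h
    push Not at h
    have h2 : ∀ m : M, g ((1 : p.asIdeal.ResidueField) ⊗ₜ[A] m) = 0 := by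
      intro m
      have h3 : lf (g ((1 : p.asIdeal.ResidueField) ⊗ₜ[A] m)) = 0 := h m
      exact (map_eq_zero lf).mp h3
    have h4 : ∀ w : p.asIdeal.ResidueField ⊗[A] M, g w = 0 := by
      intro w
      induction w using TensorProduct.induction_on with
      | zero => exact map_zero g
      | tmul c m => rw [hc, h2, mul_zero]
      | add x y hx hy => rw [map_add, hx, hy, add_zero]
    exact hg (h4 v)

theorem tPhi : S_Phi.{u} := by
  intro k _ M _ _ A _ _ ι n x hι hS hL
  classical
  obtain ⟨L, iL, aL, θ, χ, hχ, hθ⟩ := hL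
  let mA : Module A M := Module.compHom M (ι : A →+* Module.End k M)
  have hsm : ∀ (a : A) (m : M), a • m = ι a m := fun _ _ => rfl
  obtain ⟨S, hS⟩ := hS
  -- the span of `S`
  have hspan : ∀ m : M, m ∈ Submodule.span A (S : Set M) := by
    let Y : Submodule k M :=
      { carrier := (Submodule.span A (S : Set M) : Set M)
        add_mem' := fun {a b} ha hb => Submodule.add_mem _ ha hb
        zero_mem' := Submodule.zero_mem _
        smul_mem' := by
          intro c m hm
          have h1 : c • m = (algebraMap k A c) • m := by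
            rw [hsm, AlgHom.commutes, Module.algebraMap_end_apply]
          rw [h1]
          exact Submodule.smul_mem _ _ hm }
    have h1 : Two.gen (fun i => ι (x i)) (S : Set M) ≤ Y := by
      refine Two.gen_le ?_ ?_
      · intro i m hm
        have h2 : x i • m ∈ Submodule.span A (S : Set M) := Submodule.smul_mem _ _ hm
        exact h2
      · exact Submodule.subset_span
    intro m
    have h3 : m ∈ Two.gen (fun i => ι (x i)) (S : Set M) := by
      rw [hS]
      exact Submodule.mem_top
    exact h1 h3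
  have hfin : Module.Finite A M := ⟨⟨S, by
    rw [eq_top_iff]
    exact fun m _ => hspan m⟩⟩
  have hfa : ∀ a : A, (∀ m : M, a • m = 0) → a = 0 := by
    intro a ha
    apply hι
    rw [map_zero]
    exact LinearMap.ext ha
  obtain ⟨φ₀, hφ, m₀, hm₀⟩ := Phi_exists hfa
    ((algebraMap (Polynomial L) (FractionRing (Polynomial L))).comp (χ : A →+* Polynomial L))
  have hφ' : ∀ (a : A) (m : M), φ₀ (a • m) =
      algebraMap (Polynomial L) (FractionRing (Polynomial L)) (χ a) * φ₀ m := hφ
  obtain ⟨b, hb⟩ := IsLocalization.exist_integer_multiples (nonZeroDivisors (Polynomial L)) S φ₀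
  have hinj : Function.Injective (algebraMap (Polynomial L) (FractionRing (Polynomial L))) :=
    IsFractionRing.injective _ _
  have hint : ∀ m : M, ∃ q : Polynomial L,
      algebraMap (Polynomial L) (FractionRing (Polynomial L)) q =
        algebraMap (Polynomial L) (FractionRing (Polynomial L)) b * φ₀ m := by
    intro m
    induction hspan m using Submodule.span_induction with
    | mem y hy =>
      obtain ⟨q, hq⟩ := hb y hy
      refine ⟨q, ?_⟩
      rw [hq, Algebra.smul_def]
    | zero => exact ⟨0, by rw [map_zero, map_zero, mul_zero]⟩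
    | add y z _ _ hy hz =>
      obtain ⟨q, hq⟩ := hy
      obtain ⟨r, hr⟩ := hz
      exact ⟨q + r, by rw [map_add, map_add, hq, hr, mul_add]⟩
    | smul a y _ hy =>
      obtain ⟨q, hq⟩ := hy
      exact ⟨χ a * q, by rw [map_mul, hq, hφ']; ring⟩
  choose ψ hψ using hint
  let φ : M →ₗ[k] Polynomial L :=
    { toFun := ψ
      map_add' := by
        intro y z
        apply hinj
        rw [map_add, hψ, hψ, hψ, map_add, mul_add]
      map_smul' := by
        intro c y
        apply hinj
        have h1 : c • y = (algebraMap k A c) • y := by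
          rw [hsm, AlgHom.commutes, Module.algebraMap_end_apply]
        rw [RingHom.id_apply, Algebra.smul_def, map_mul, hψ, hψ, h1, hφ', AlgHom.commutes]
        ring }
  refine ⟨L, iL, aL, θ, φ, ?_, ?_, hθ⟩
  · intro i m
    apply hinj
    have h1 : φ (ι (x i) m) = ψ (x i • m) := rfl
    have h2 : φ m = ψ m := rfl
    rw [h1, h2, hψ, hφ', map_mul, hψ, hχ]
    ring
  · intro h
    have h1 : ψ m₀ = 0 := LinearMap.congr_fun h m₀
    have h2 := hψ m₀
    rw [h1, map_zero] at h2
    have h3 : algebraMap (Polynomial L) (FractionRing (Polynomial L)) b ≠ 0 := by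
      intro h4
      have h5 : (b : Polynomial L) = 0 := by
        apply hinj
        rw [h4, map_zero]
      exact nonZeroDivisors.coe_ne_zero b h5
    exact (mul_ne_zero h3 hm₀) h2.symm

end Pool.Agent.Lib.MP_240c17_al.Q2.Abc
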