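import Pool.Agent.Lib.MP_240c17_al.Q2.Abc.Spec

/-!
# MP_240c17, project Q2, stage ABC: residual finiteness (module RF)
-/

set_option autoImplicit false
set_option linter.all false

namespace Pool.Agent.Lib.MP_240c17_al.Q2.Abc

universe u

open Pool.Agent.Lib.MP_240c17_al Pool.Agent.Lib.MP_240c17_al.Two TensorProduct

section

variable {k : Type u} [Field k] {G : Type u} [LieRing G] [LieAlgebra k G]

private theorem RF_leib (a b y : G) : ⁅⁅a, b⁆, y⁆ = ⁅⁅a, y⁆, b⁆ + ⁅a, ⁅b, y⁆⁆ := by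
  rw [lie_lie a b y, ← lie_skew b ⁅a, y⁆, sub_eq_add_neg, add_comm, neg_neg]

private theorem RF_D1_span : (D1 k G).toSubmodule =
    Submodule.span k {w | ∃ (a b : G), w = ⁅a, b⁆} := by
  have h1 : (D1 k G).toSubmodule =
      Submodule.span k {⁅(x : G), (y : G)⁆ | (x : (⊤ : LieIdeal k G)) (y : (⊤ : LieIdeal k G))} :=
    LieSubmodule.lieIdeal_oper_eq_linear_span _ _
  rw [h1]
  congr 1
  ext w
  constructor
  · rintro ⟨a, b, rfl⟩
    exact ⟨a, b, rfl⟩
  · rintro ⟨a, b, rfl⟩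
    exact ⟨⟨a, trivial⟩, ⟨b, trivial⟩, rfl⟩

private theorem RF_D2_span : (D2 k G).toSubmodule =
    Submodule.span k {w | ∃ (a b : G), a ∈ D1 k G ∧ b ∈ D1 k G ∧ w = ⁅a, b⁆} := by
  have h1 : (D2 k G).toSubmodule =
      Submodule.span k {⁅(x : G), (y : G)⁆ | (x : D1 k G) (y : D1 k G)} :=
    LieSubmodule.lieIdeal_oper_eq_linear_span _ _
  rw [h1]
  congr 1
  ext w
  constructor
  · rintro ⟨a, b, rfl⟩
    exact ⟨a, b, a.2, b.2, rfl⟩
  · rintro ⟨a, b, ha, hb, rfl⟩
    exact ⟨⟨a, ha⟩, ⟨b, hb⟩, rfl⟩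

private theorem RF_ind {p : G → Prop} (h : ∀ a b : G, p ⁅a, b⁆) (h0 : p 0)
    (hadd : ∀ u v, p u → p v → p (u + v)) (hsmul : ∀ (t : k) u, p u → p (t • u)) :
    ∀ a ∈ D1 k G, p a := by
  intro a ha
  have h1 : a ∈ (D1 k G).toSubmodule := ha
  rw [RF_D1_span] at h1
  clear ha
  induction h1 using Submodule.span_induction with
  | mem e he =>
    obtain ⟨c, d, rfl⟩ := he
    exact h c d
  | zero => exact h0
  | add u v _ _ ihu ihv => exact hadd _ _ ihu ihv
  | smul t u _ ihu => exact hsmul _ _ ihu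

private theorem RF_n2a (hG : IsN2A G) : ∀ a ∈ D2 k G, ∀ b ∈ D1 k G, ⁅a, b⁆ = 0 := by
  have h1 : ∀ a b c d : G, ∀ z ∈ D1 k G, ⁅⁅⁅a, b⁆, ⁅c, d⁆⁆, z⁆ = 0 := by
    intro a b c d
    refine RF_ind (k := k) (fun e f => hG a b c d e f) (lie_zero _) ?_ ?_
    · intro u v hu hv
      rw [lie_add, hu, hv, add_zero]
    · intro t u hu
      rw [lie_smul, hu, smul_zero]
  have h2 : ∀ a b : G, ∀ y ∈ D1 k G, ∀ z ∈ D1 k G, ⁅⁅⁅a, b⁆, y⁆, z⁆ = 0 := by
    intro a b y hy z hz
    refine RF_ind (k := k) (p := fun y => ⁅⁅⁅a, b⁆, y⁆, z⁆ = 0) (fun e f => h1 a b e f z hz) ?_ ?_ ?_ y hy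
    · rw [lie_zero, zero_lie]
    · intro u v hu hv
      rw [lie_add, add_lie, hu, hv, add_zero]
    · intro t u hu
      rw [lie_smul, smul_lie, hu, smul_zero]
  have h3 : ∀ x ∈ D1 k G, ∀ y ∈ D1 k G, ∀ z ∈ D1 k G, ⁅⁅x, y⁆, z⁆ = 0 := by
    intro x hx y hy z hz
    refine RF_ind (k := k) (p := fun x => ⁅⁅x, y⁆, z⁆ = 0) (fun e f => h2 e f y hy z hz) ?_ ?_ ?_ x hx
    · rw [zero_lie, zero_lie]
    · intro u v hu hv
      rw [add_lie, add_lie, hu, hv, add_zero]
    · intro t u hu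
      rw [smul_lie, smul_lie, hu, smul_zero]
  intro a ha b hb
  have h4 : a ∈ (D2 k G).toSubmodule := ha
  rw [RF_D2_span] at h4
  induction h4 using Submodule.span_induction with
  | mem e he =>
    obtain ⟨c, d, hc, hd, rfl⟩ := he
    exact h3 c hc d hd b hb
  | zero => exact zero_lie _
  | add p q hp hq ihp ihq =>
    rw [← RF_D2_span] at hp hq
    rw [add_lie, ihp hp, ihq hq, add_zero]
  | smul t p hp ihp =>
    rw [← RF_D2_span] at hp
    rw [smul_lie, ihp hp, smul_zero]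

/-- the bracket on the derived algebra -/
private def RF_bil (k : Type u) [Field k] (G : Type u) [LieRing G] [LieAlgebra k G] :
    ↥(D1 k G).toSubmodule →ₗ[k] ↥(D1 k G).toSubmodule →ₗ[k] G :=
  LinearMap.mk₂ k (fun a b => ⁅(a : G), (b : G)⁆) (fun a b c => add_lie _ _ _)
    (fun t a b => smul_lie _ _ _) (fun a b c => lie_add _ _ _) (fun t a b => lie_smul _ _ _)

private theorem RF_pairing (hG : IsN2A G) {M : Type u} [AddCommGroup M] [Module k M]
    (mk : ↥(D1 k G).toSubmodule →ₗ[k] M) (hs : Function.Surjective mk)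
    (hk : ∀ a, mk a = 0 ↔ (a : G) ∈ D2 k G) :
    ∃ β : M →ₗ[k] M →ₗ[k] G, ∀ a b : ↥(D1 k G).toSubmodule, β (mk a) (mk b) = ⁅(a : G), (b : G)⁆ := by
  obtain ⟨s, hs'⟩ := LinearMap.exists_rightInverse_of_surjective mk (LinearMap.range_eq_top.mpr hs)
  have h1 : ∀ m, mk (s m) = m := fun m => LinearMap.congr_fun hs' m
  have h2 : ∀ a, ((s (mk a) - a : ↥(D1 k G).toSubmodule) : G) ∈ D2 k G := by
    intro a
    rw [← hk, map_sub, h1, sub_self]
  refine ⟨(RF_bil k G).compl₁₂ s s, fun a b => ?_⟩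
  show ⁅((s (mk a) : ↥(D1 k G).toSubmodule) : G), ((s (mk b) : ↥(D1 k G).toSubmodule) : G)⁆ = _
  have e1 : ((s (mk a) : ↥(D1 k G).toSubmodule) : G) =
      ((s (mk a) - a : ↥(D1 k G).toSubmodule) : G) + (a : G) := by
    rw [Submodule.coe_sub, sub_add_cancel]
  have e2 : ((s (mk b) : ↥(D1 k G).toSubmodule) : G) =
      ((s (mk b) - b : ↥(D1 k G).toSubmodule) : G) + (b : G) := by
    rw [Submodule.coe_sub, sub_add_cancel]
  have e3 : ((s (mk b) - b : ↥(D1 k G).toSubmodule) : G) ∈ D1 k G := (s (mk b) - b).2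
  rw [e1, e2, add_lie, lie_add, lie_add, RF_n2a hG _ (h2 a) _ e3, RF_n2a hG _ (h2 a) _ b.2,
    ← lie_skew (a : G) _, RF_n2a hG _ (h2 b) _ a.2, neg_zero, zero_add, zero_add, zero_add]

private theorem RF_aeval_tmul {M : Type u} [AddCommGroup M] [Module k M] (f : Module.End k M)
    (p : Polynomial k) (a b : M) :
    Polynomial.aeval (Lt f) p (a ⊗ₜ[k] b) = (Polynomial.aeval f p a) ⊗ₜ[k] b := by
  have h1 : ∀ j : ℕ, ((Lt f) ^ j) (a ⊗ₜ[k] b) = ((f ^ j) a) ⊗ₜ[k] b := by
    intro j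
    induction j with
    | zero => rfl
    | succ j ih => rw [pow_succ', Module.End.mul_apply, ih, Lt_tmul, pow_succ', Module.End.mul_apply]
  induction p using Polynomial.induction_on' with
  | add g h hg hh =>
    rw [map_add, LinearMap.add_apply, hg, hh, map_add, LinearMap.add_apply, TensorProduct.add_tmul]
  | monomial e t =>
    rw [Polynomial.aeval_monomial, Polynomial.aeval_monomial, Module.End.mul_apply,
      Module.End.mul_apply, h1, Module.algebraMap_end_apply, Module.algebraMap_end_apply,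
      TensorProduct.smul_tmul']

private theorem RF_poly {X : Type u} [AddCommGroup X] [Module k X] (D : Submodule k X)
    (hD : FC D ⊤) (f : Module.End k X) (hf : ∀ d ∈ D, f d ∈ D) :
    ∃ p : Polynomial k, p ≠ 0 ∧ ∀ w, Polynomial.aeval f p w ∈ D := by
  have hfin : FiniteDimensional k (X ⧸ D) := (fc_top_iff D).mp hD
  have h1 : D ≤ D.comap f := hf
  let g : Module.End k (X ⧸ D) := D.mapQ D f h1
  refine ⟨minpoly k g, minpoly.ne_zero (Algebra.IsIntegral.isIntegral g), fun w => ?_⟩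
  have h2 : ∀ p : Polynomial k, D.mkQ (Polynomial.aeval f p w) = Polynomial.aeval g p (D.mkQ w) := by
    have h3 : ∀ j : ℕ, D.mkQ ((f ^ j) w) = (g ^ j) (D.mkQ w) := by
      intro j
      induction j with
      | zero => rfl
      | succ j ih =>
        rw [pow_succ', Module.End.mul_apply, pow_succ', Module.End.mul_apply, ← ih]
        rfl
    intro p
    induction p using Polynomial.induction_on' with
    | add a b ha hb => rw [map_add, LinearMap.add_apply, map_add, ha, hb, map_add, LinearMap.add_apply]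
    | monomial e t =>
      rw [Polynomial.aeval_monomial, Polynomial.aeval_monomial, Module.End.mul_apply,
        Module.End.mul_apply, Module.algebraMap_end_apply, Module.algebraMap_end_apply, map_smul, h3]
  have h4 := h2 (minpoly k g)
  rw [minpoly.aeval, LinearMap.zero_apply] at h4
  exact (Submodule.Quotient.mk_eq_zero D).mp h4

theorem tRF : RfdProp.{u} → AnnProp.{u} → PolyFdProp.{u} → StabIdealProp.{u} → DerFcProp.{u} →
    SepProp.{u} → S_RF.{u} := by
  classical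
  intro hrfd hann h5 c1a c1d hsep k _ G _ _ n x M _ _ mk X hgen hG hd hXX hMgen hMMgen ζ hζ
  -- enough: an ideal with `FC D ⊤`
  suffices hh : ∃ D : LieIdeal k G, FC D.toSubmodule ⊤ ∧ ζ ∉ D by
    obtain ⟨D, hD, hζD⟩ := hh
    exact ⟨D, (fc_top_iff D.toSubmodule).mp hD, hζD⟩
  have hD1fc : FC (D1 k G).toSubmodule ⊤ := c1d k G n x hgen
  by_cases hζ1 : ζ ∈ D1 k G
  swap
  · exact ⟨D1 k G, hD1fc, hζ1⟩
  by_cases hζ2 : ζ ∈ D2 k G
  swap
  · exact hsep k G n x hgen (D1 k G) ζ hD1fc hζ2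
  have hN := RF_n2a (k := k) hG
  obtain ⟨β, hβ⟩ := RF_pairing hG mk hd.surj hd.ker
  let T : M ⊗[k] M →ₗ[k] G := TensorProduct.lift β
  have hT : ∀ a b : ↥(D1 k G).toSubmodule, T (mk a ⊗ₜ[k] mk b) = ⁅(a : G), (b : G)⁆ := by
    intro a b
    show TensorProduct.lift β _ = _
    rw [TensorProduct.lift.tmul, hβ]
  -- the operator on classes
  have hact : ∀ (i : Fin n) (a : ↥(D1 k G).toSubmodule),
      ∃ b : ↥(D1 k G).toSubmodule, (b : G) = ⁅(a : G), x i⁆ ∧ X i (mk a) = mk b := by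
    intro i a
    exact ⟨⟨⁅(a : G), x i⁆, lie_mem_left k G _ _ _ a.2⟩, rfl, hd.act i a _ rfl⟩
  -- derivation property
  have hTσ : ∀ i w, T (Sg (X i) w) = ⁅T w, x i⁆ := by
    intro i w
    induction w with
    | zero => rw [map_zero, map_zero, zero_lie]
    | add u v hu hv => rw [map_add, map_add, hu, hv, map_add, add_lie]
    | tmul p q =>
      obtain ⟨a, rfl⟩ := hd.surj p
      obtain ⟨b, rfl⟩ := hd.surj q
      obtain ⟨a', ha', ha⟩ := hact i a
      obtain ⟨b', hb', hb⟩ := hact i b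
      rw [HM.Sg_tmul, map_add, ha, hb, hT, hT, hT, RF_leib (a : G) (b : G) (x i), ha', hb']
  let W : Submodule k (M ⊗[k] M) := LinearMap.ker T
  have hWs : Stab (fun i => Sg (X i)) W := by
    intro i w hw
    rw [LinearMap.mem_ker] at hw ⊢
    rw [hTσ, hw, zero_lie]
  -- the range of `T`
  have hrange : ∀ e ∈ D2 k G, ∃ w, T w = e := by
    intro e he
    have h3 : e ∈ (D2 k G).toSubmodule := he
    rw [RF_D2_span] at h3
    clear he
    induction h3 using Submodule.span_induction with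
    | mem e he =>
      obtain ⟨a, b, ha, hb, rfl⟩ := he
      exact ⟨_, hT ⟨a, ha⟩ ⟨b, hb⟩⟩
    | zero => exact ⟨0, map_zero T⟩
    | add p q hp hq ihp ihq =>
      obtain ⟨w1, hw1⟩ := ihp
      obtain ⟨w2, hw2⟩ := ihq
      exact ⟨w1 + w2, by rw [map_add, hw1, hw2]⟩
    | smul t p hp ihp =>
      obtain ⟨w1, hw1⟩ := ihp
      exact ⟨t • w1, by rw [map_smul, hw1]⟩
  obtain ⟨z, hz⟩ := hrange ζ hζ2
  have hzW : z ∉ W := by
    intro h
    rw [LinearMap.mem_ker, hz] at h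
    exact hζ h
  obtain ⟨SS, hSS⟩ := hMMgen
  have hSgcomm : ∀ i j, Commute (Sg (X i)) (Sg (X j)) := by
    intro i j
    have h1 := HM.Sg_comm hXX (Pi.single i 1) (Pi.single j 1)
    rw [actT_single, actT_single] at h1
    exact LinearMap.ext h1
  have hCM : CommMod (fun i => Sg (X i)) (⊥ : Submodule k (M ⊗[k] M)) ⊤ := by
    intro i j w _
    have h1 : Sg (X i) (Sg (X j) w) = Sg (X j) (Sg (X i) w) :=
      LinearMap.congr_fun (hSgcomm i j).eq w
    show Sg (X i) (Sg (X j) w) - Sg (X j) (Sg (X i) w) ∈ (⊥ : Submodule k (M ⊗[k] M))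
    rw [h1, sub_self]
    exact Submodule.zero_mem _
  obtain ⟨C, hC1, hC2, -, hC4, hC5⟩ := hrfd k (M ⊗[k] M) (Fin n) (fun i => Sg (X i)) ⊥ ⊤ W z
    (stab_bot _) hCM ⟨SS, by rw [hSS, top_sup_eq]⟩ hWs bot_le le_top Submodule.mem_top hzW
  obtain ⟨D0, -, hD2, hD3, hD4⟩ := hann k (M ⊗[k] M) (Fin n) (fun i => Sg (X i)) ⊥ C
    (stab_bot _) hCM ⟨SS, by rw [hSS, top_sup_eq]⟩ hC1 bot_le hC5
  have hLSg : ∀ i j, Commute (Lt (X i)) (Sg (X j)) := by
    intro i j
    have h1 : Lt (X i) * Lt (X j) = Lt (X j) * Lt (X i) := by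
      rw [← Lt_mul, ← Lt_mul, (hXX i j).eq]
    show Lt (X i) * Sg (X j) = Sg (X j) * Lt (X i)
    rw [Sg, mul_add, add_mul, h1, Lt_Rt]
  have hpoly : ∀ i, ∃ p : Polynomial k, p ≠ 0 ∧ ∀ w, Polynomial.aeval (Lt (X i)) p w ∈ D0 := by
    intro i
    exact RF_poly D0 hD3 (Lt (X i)) (hD4 (Lt (X i)) (fun j => hLSg i j) (by
      intro y hy
      rw [(Submodule.mem_bot k).mp hy, map_zero]
      exact Submodule.zero_mem _))
  choose p hp0 hp using hpoly
  have hpD : ∀ (i : Fin n) (a b : M), (Polynomial.aeval (X i) (p i) a) ⊗ₜ[k] b ∈ D0 := by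
    intro i a b
    rw [← RF_aeval_tmul]
    exact hp i _
  -- the ideal
  let M' : Submodule k M := ⨆ i, LinearMap.range (Polynomial.aeval (X i) (p i))
  have hM's : Stab X M' := by
    intro i q hq
    have h3 : M' ≤ M'.comap (X i) := by
      refine iSup_le fun j => ?_
      rintro _ ⟨q, rfl⟩
      show X i (Polynomial.aeval (X j) (p j) q) ∈ M'
      have h4 : Commute (X i) (Polynomial.aeval (X j) (p j)) := by
        induction p j using Polynomial.induction_on' with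
        | add f g hf hg => rw [map_add]; exact hf.add_right hg
        | monomial e t =>
          rw [Polynomial.aeval_monomial]
          exact (Algebra.commute_algebraMap_right t (X i)).mul_right ((hXX i j).pow_right e)
      have h5 : X i (Polynomial.aeval (X j) (p j) q) = Polynomial.aeval (X j) (p j) (X i q) :=
        LinearMap.congr_fun h4.eq q
      rw [h5]
      exact (le_iSup (fun j => LinearMap.range (Polynomial.aeval (X j) (p j))) j) ⟨_, rfl⟩
    exact h3 hq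
  let I0 : Submodule k G := (M'.comap mk).map (D1 k G).toSubmodule.subtype
  have hI0 : ∀ a : ↥(D1 k G).toSubmodule, (a : G) ∈ I0 ↔ mk a ∈ M' := by
    intro a
    constructor
    · rintro ⟨a', ha', haa⟩
      have : a' = a := Subtype.ext haa
      rw [← this]
      exact ha'
    · intro h
      exact ⟨a, h, rfl⟩
  have hI0D : ∀ a ∈ I0, a ∈ (D1 k G).toSubmodule := by
    rintro _ ⟨a, _, rfl⟩
    exact a.2
  have hI0s : Stab (fun i => adr k (x i)) I0 := by
    intro i a ha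
    have h3 := hI0D a ha
    obtain ⟨b, hb1, hb2⟩ := hact i ⟨a, h3⟩
    show ⁅a, x i⁆ ∈ I0
    have h4 : ⁅a, x i⁆ = (b : G) := hb1.symm
    rw [h4, hI0 b, ← hb2]
    exact hM's i _ ((hI0 ⟨a, h3⟩).mp ha)
  let I : LieIdeal k G := { I0 with
    lie_mem := by
      intro y a ha
      have h3 : ⁅a, y⁆ ∈ I0 := c1a k G n x hgen I0 hI0s a ha y
      have h4 : ⁅y, a⁆ = -⁅a, y⁆ := (lie_skew y a).symm
      show ⁅y, a⁆ ∈ I0
      rw [h4]
      exact I0.neg_mem h3 }
  refine hsep k G n x hgen I ζ ?_ ?_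
  · -- finite codimension
    show FC I0 ⊤
    refine FC.trans ?_ hD1fc
    obtain ⟨S, hS⟩ := hMgen
    obtain ⟨F, hF⟩ := h5 k M (Fin n) X M' ⊤ hM's (by
      intro i j q _
      have h3 : X i (X j q) = X j (X i q) := LinearMap.congr_fun (hXX i j).eq q
      rw [h3, sub_self]
      exact M'.zero_mem) ⟨S, by rw [hS, top_sup_eq]⟩ (by
      intro i
      exact ⟨p i, hp0 i, fun q _ =>
        (le_iSup (fun j => LinearMap.range (Polynomial.aeval (X j) (p j))) i) ⟨q, rfl⟩⟩)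
    choose g hg using hd.surj
    refine ⟨F.image fun m => ((g m : ↥(D1 k G).toSubmodule) : G), ?_⟩
    intro a ha
    obtain ⟨u, hu, v, hv, huv⟩ :=
      Submodule.mem_sup.mp (hF (Submodule.mem_top : mk ⟨a, ha⟩ ∈ (⊤ : Submodule k M)))
    have h3 : ∀ v ∈ Submodule.span k (F : Set M), ∃ b : ↥(D1 k G).toSubmodule,
        mk b = v ∧ (b : G) ∈ Submodule.span k
          ((F.image fun m => ((g m : ↥(D1 k G).toSubmodule) : G) : Finset G) : Set G) := by
      intro v hv
      induction hv using Submodule.span_induction with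
      | mem v hv => exact ⟨g v, hg v, Submodule.subset_span (by
          rw [Finset.coe_image]; exact ⟨v, hv, rfl⟩)⟩
      | zero => exact ⟨0, map_zero mk, Submodule.zero_mem _⟩
      | add v1 v2 _ _ ih1 ih2 =>
        obtain ⟨b1, e1, f1⟩ := ih1
        obtain ⟨b2, e2, f2⟩ := ih2
        exact ⟨b1 + b2, by rw [map_add, e1, e2], Submodule.add_mem _ f1 f2⟩
      | smul t v1 _ ih1 =>
        obtain ⟨b1, e1, f1⟩ := ih1
        exact ⟨t • b1, by rw [map_smul, e1], Submodule.smul_mem _ t f1⟩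
    obtain ⟨b, hbv, hbF⟩ := h3 v hv
    refine Submodule.mem_sup.mpr ⟨a - b, ?_, b, hbF, by abel⟩
    have h4 : a - (b : G) = (((⟨a, ha⟩ : ↥(D1 k G).toSubmodule) - b : ↥(D1 k G).toSubmodule) : G) := rfl
    rw [h4, hI0, map_sub, hbv, ← huv, add_sub_cancel_right]
    exact hu
  · -- `ζ` is not in `⁅I, D1⁆`
    intro hmem
    have h3 : (⁅I, D1 k G⁆ : LieIdeal k G).toSubmodule =
        Submodule.span k {⁅(a : G), (b : G)⁆ | (a : I) (b : D1 k G)} :=
      LieSubmodule.lieIdeal_oper_eq_linear_span _ _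
    have h4 : ζ ∈ (⁅I, D1 k G⁆ : LieIdeal k G).toSubmodule := hmem
    rw [h3] at h4
    have h5' : ∀ e ∈ Submodule.span k {⁅(a : G), (b : G)⁆ | (a : I) (b : D1 k G)},
        ∃ w ∈ D0, T w = e := by
      intro e he
      induction he using Submodule.span_induction with
      | mem e he =>
        obtain ⟨a, b, rfl⟩ := he
        have haD : (a : G) ∈ (D1 k G).toSubmodule := hI0D a a.2
        refine ⟨mk ⟨a, haD⟩ ⊗ₜ[k] mk ⟨b, b.2⟩, ?_, hT _ _⟩
        have h6 : mk ⟨(a : G), haD⟩ ∈ M' := (hI0 ⟨a, haD⟩).mp a.2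
        have h7 : M' ≤ D0.comap ((TensorProduct.mk k M M).flip (mk ⟨b, b.2⟩)) := by
          refine iSup_le fun i => ?_
          rintro _ ⟨q, rfl⟩
          exact hpD i q _
        exact h7 h6
      | zero => exact ⟨0, Submodule.zero_mem _, map_zero T⟩
      | add p q _ _ ihp ihq =>
        obtain ⟨w1, hw1, hw1'⟩ := ihp
        obtain ⟨w2, hw2, hw2'⟩ := ihq
        exact ⟨w1 + w2, Submodule.add_mem _ hw1 hw2, by rw [map_add, hw1', hw2']⟩
      | smul t p _ ihp =>
        obtain ⟨w1, hw1, hw1'⟩ := ihp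
        exact ⟨t • w1, Submodule.smul_mem _ t hw1, by rw [map_smul, hw1']⟩
    obtain ⟨w, hw, hwe⟩ := h5' ζ h4
    apply hC4
    have h6 : z = (z - w) + w := by abel
    rw [h6]
    refine Submodule.add_mem _ (hC2 ?_) (hD2 hw)
    rw [LinearMap.mem_ker, map_sub, hz, hwe, sub_self]

end

end Pool.Agent.Lib.MP_240c17_al.Q2.Abc
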