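import Pool.Agent.Lib.MP_240c17_al.Q2.Abc.Spec

set_option autoImplicit false

namespace Pool.Agent.Lib.MP_240c17_al.Q2.Abc

universe u

open Pool.Agent.Lib.MP_240c17_al Pool.Agent.Lib.MP_240c17_al.Two TensorProduct

private lemma St_map_rb {k : Type u} [Field k] {L L' : Type u} [LieRing L] [LieAlgebra k L]
    [LieRing L'] [LieAlgebra k L'] (f : L →ₗ⁅k⁆ L') (y : L) (i : ℕ) (l : L) :
    f (rb y i l) = rb (f y) i (f l) := by
  induction i with
  | zero => rfl
  | succ i ih => rw [rb_succ, rb_succ, LieHom.map_lie, ih]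

private lemma St_map_Jd {k : Type u} [Field k] {L L' : Type u} [LieRing L] [LieAlgebra k L]
    [LieRing L'] [LieAlgebra k L'] (f : L →ₗ⁅k⁆ L') (d : ℕ) (y1 y2 a b : L) :
    f (Jd k d y1 y2 a b) = Jd k d (f y1) (f y2) (f a) (f b) := by
  unfold Jd
  rw [map_sum]
  refine Finset.sum_congr rfl fun i _ => ?_
  rw [map_smul, LieHom.map_lie, St_map_rb, St_map_rb, St_map_rb, St_map_rb]

section tens
variable {k : Type u} [Field k] {M : Type u} [AddCommGroup M] [Module k M]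

private lemma St_pow (f g : Module.End k M) (m : ℕ) (a b : M) :
    ((Lt f * Rt g) ^ m) (a ⊗ₜ[k] b) = (f ^ m) a ⊗ₜ[k] (g ^ m) b := by
  induction m generalizing a b with
  | zero => rfl
  | succ m ih =>
    rw [pow_succ, Module.End.mul_apply, Module.End.mul_apply, Rt_tmul, Lt_tmul, ih, pow_succ,
      pow_succ, Module.End.mul_apply, Module.End.mul_apply]

private lemma St_comm {n : ℕ} {X : Fin n → Module.End k M} (hX : ∀ i j, Commute (X i) (X j))
    (p q : Fin n) : Commute (Lt (X p) * Rt (X q)) (Lt (X q) * Rt (X p)) := by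
  refine TensorProduct.ext' fun a b => ?_
  have e1 : X p (X q a) = X q (X p a) := LinearMap.congr_fun (hX p q) a
  have e2 : X q (X p b) = X p (X q b) := LinearMap.congr_fun (hX q p) b
  simp only [Module.End.mul_apply, Rt_tmul, Lt_tmul]
  rw [e1, e2]

private lemma St_sw {n : ℕ} {X : Fin n → Module.End k M} (hX : ∀ i j, Commute (X i) (X j))
    (p q : Fin n) (s t : ℕ) (m : M) :
    (X p ^ s) ((X q ^ t) m) = (X q ^ t) ((X p ^ s) m) :=
  LinearMap.congr_fun ((hX p q).pow_pow s t) m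

private lemma St_sw1 {n : ℕ} {X : Fin n → Module.End k M} (hX : ∀ i j, Commute (X i) (X j))
    (p q : Fin n) (s : ℕ) (m : M) :
    (X p ^ s) (X q m) = X q ((X p ^ s) m) :=
  LinearMap.congr_fun ((hX p q).pow_left s) m

private lemma St_exp {n : ℕ} {X : Fin n → Module.End k M} (hX : ∀ i j, Commute (X i) (X j))
    (d : ℕ) (p q j j' : Fin n) (u v : M) :
    ((Lt (X p) * Rt (X q) - Lt (X q) * Rt (X p)) ^ d) (X j u ⊗ₜ[k] X j' v) =
      ∑ i ∈ Finset.range (d + 1), ((-1 : k) ^ i * (d.choose i : k)) •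
        (X j ((X q ^ i) ((X p ^ (d - i)) u)) ⊗ₜ[k] X j' ((X q ^ (d - i)) ((X p ^ i) v))) := by
  have h1 : Lt (X p) * Rt (X q) - Lt (X q) * Rt (X p) =
      -(Lt (X q) * Rt (X p)) + Lt (X p) * Rt (X q) := by abel
  have h2 : Commute (-(Lt (X q) * Rt (X p))) (Lt (X p) * Rt (X q)) :=
    (St_comm hX q p).neg_left
  rw [h1, h2.add_pow, LinearMap.sum_apply]
  refine Finset.sum_congr rfl fun i _ => ?_
  have h3 : (-(Lt (X q) * Rt (X p))) ^ i * (Lt (X p) * Rt (X q)) ^ (d - i) * (d.choose i : ℕ) =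
      ((-1 : k) ^ i * (d.choose i : k)) •
        ((Lt (X q) * Rt (X p)) ^ i * (Lt (X p) * Rt (X q)) ^ (d - i)) := by
    have h4 : (-(Lt (X q) * Rt (X p))) ^ i = ((-1 : k) ^ i) • (Lt (X q) * Rt (X p)) ^ i := by
      rcases Nat.even_or_odd i with hi | hi
      · rw [hi.neg_pow (Lt (X q) * Rt (X p)), hi.neg_one_pow, one_smul]
      · rw [hi.neg_pow (Lt (X q) * Rt (X p)), hi.neg_one_pow]
        exact (neg_one_smul k _).symm
    rw [h4, ← nsmul_eq_mul', smul_mul_assoc, smul_comm, mul_smul, Nat.cast_smul_eq_nsmul]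
  rw [h3, LinearMap.smul_apply, Module.End.mul_apply, St_pow, St_pow, St_sw1 hX, St_sw1 hX,
    St_sw1 hX, St_sw1 hX, St_sw hX p q i (d - i) v]

private lemma St_e0 {n : ℕ} {X : Fin n → Module.End k M} (hX : ∀ i j, Commute (X i) (X j))
    (d : ℕ) (hd : Odd d) (p q j j' : Fin n) (u v : M) :
    e0 X d p q j j' (u ⊗ₜ[k] v + v ⊗ₜ[k] u) =
      ∑ i ∈ Finset.range (d + 1), ((-1 : k) ^ i * (d.choose i : k)) •
        (X j ((X q ^ i) ((X p ^ (d - i)) u)) ⊗ₜ[k] X j' ((X q ^ (d - i)) ((X p ^ i) v)) -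
         X j ((X q ^ (d - i)) ((X p ^ i) v)) ⊗ₜ[k] X j' ((X q ^ i) ((X p ^ (d - i)) u))) := by
  have h1 : ∀ a b : M, e0 X d p q j j' (a ⊗ₜ[k] b) =
      ((Lt (X p) * Rt (X q) - Lt (X q) * Rt (X p)) ^ d) (X j a ⊗ₜ[k] X j' b) := fun a b => rfl
  have h2 : (Lt (X p) * Rt (X q) - Lt (X q) * Rt (X p)) ^ d =
      -(Lt (X q) * Rt (X p) - Lt (X p) * Rt (X q)) ^ d := by
    have h3 : Lt (X p) * Rt (X q) - Lt (X q) * Rt (X p) =
        -(Lt (X q) * Rt (X p) - Lt (X p) * Rt (X q)) := by abel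
    rw [h3, hd.neg_pow (Lt (X q) * Rt (X p) - Lt (X p) * Rt (X q))]
  rw [map_add, h1, h1, St_exp hX, h2, LinearMap.neg_apply, St_exp hX, ← sub_eq_add_neg,
    ← Finset.sum_sub_distrib]
  refine Finset.sum_congr rfl fun i _ => ?_
  rw [← smul_sub, St_sw hX q p (d - i) i v, St_sw hX p q (d - i) i u]

end tens

private lemma St_mem {k : Type u} [Field k] {G : Type u} [LieRing G] [LieAlgebra k G] (y : G)
    (m : ℕ) {a : G} (ha : a ∈ D1 k G) : rb y m a ∈ D1 k G := by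
  induction m with
  | zero => exact ha
  | succ m ih =>
    rw [rb_succ]
    exact lie_mem_left k G (D1 k G) _ _ ih

private lemma St_mk {k : Type u} [Field k] {G : Type u} [LieRing G] [LieAlgebra k G] {n : ℕ}
    {x : Fin n → G} {M : Type u} [AddCommGroup M] [Module k M]
    {mk : ↥(D1 k G).toSubmodule →ₗ[k] M} {X : Fin n → Module.End k M} (h : IsDer x mk X)
    (i : Fin n) (m : ℕ) (a : ↥(D1 k G).toSubmodule) :
    mk ⟨rb (x i) m (a : G), St_mem (x i) m a.2⟩ = (X i ^ m) (mk a) := by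
  induction m with
  | zero => rfl
  | succ m ih =>
    rw [pow_succ', Module.End.mul_apply, ← ih]
    refine (h.act i _ _ ?_).symm
    exact rb_succ _ _ _

/-- the component `c` as a linear map -/
private def St_c {k : Type u} [Field k] {M : Type u} [AddCommGroup M] [Module k M] {n : ℕ}
    (X : Fin n → Module.End k M) (hX : ∀ i j, Commute (X i) (X j)) :
    HM X hX →ₗ[k] (M ⊗[k] M) where
  toFun := HM.c
  map_add' _ _ := rfl
  map_smul' _ _ := rfl

private lemma St_stab {k : Type u} [Field k] {M : Type u} [AddCommGroup M] [Module k M] {n : ℕ}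
    (X : Fin n → Module.End k M) (t : Fin n → k) (N : Submodule k (M ⊗[k] M))
    (hN : Stab (fun i => Sg (X i)) N) {z : M ⊗[k] M} (hz : z ∈ N) : Sg (actT X t) z ∈ N := by
  have h1 : Sg (actT X t) = ∑ i, t i • Sg (X i) := by
    unfold actT
    induction (Finset.univ : Finset (Fin n)) using Finset.induction_on with
    | empty => simp [HM.Sg_zero]
    | insert a s ha ih => rw [Finset.sum_insert ha, Finset.sum_insert ha, HM.Sg_add, ih, HM.Sg_smul]
  rw [h1, LinearMap.sum_apply]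
  refine Submodule.sum_mem _ fun i _ => ?_
  exact Submodule.smul_mem _ _ (hN i z hz)

theorem tSt : S_Th1.{u} → S_St.{u} := by
  classical
  intro hTh k _ G _ _ n π S M _ _ mk X d hX hπ hker hder hd hJ p q j j'
  obtain ⟨h1, h2, h3⟩ := hTh k G n π M mk X hX j j' hder
  obtain ⟨Θ, hΘ⟩ : ∃ Θ, Θ = ThM π mk hX j j' := ⟨_, rfl⟩
  rw [← hΘ] at h1 h2 h3
  obtain ⟨S', hS'⟩ : ∃ S' : Finset (M ⊗[k] M), S' = S.image fun r => (Θ r).c := ⟨_, rfl⟩
  refine ⟨S', fun u v => ?_⟩
  have hN := gen_stab (fun i => Sg (X i)) (S' : Set (M ⊗[k] M))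
  obtain ⟨N, hNe⟩ : ∃ N, N = Two.gen (fun i => Sg (X i)) (S' : Set (M ⊗[k] M)) := ⟨_, rfl⟩
  rw [← hNe] at hN ⊢
  let I : LieIdeal k (FreeLieAlgebra k (Fin n)) :=
    { carrier := {w | actT X (Θ w).t = 0 ∧ (Θ w).a = 0 ∧ (Θ w).b = 0 ∧ (Θ w).c ∈ N}
      add_mem' := by
        rintro w w' ⟨e1, e2, e3, e4⟩ ⟨e1', e2', e3', e4'⟩
        refine ⟨?_, ?_, ?_, ?_⟩
        · rw [map_add, HM.add_t, actT_add, e1, e1', add_zero]
        · rw [map_add, HM.add_a, e2, e2', add_zero]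
        · rw [map_add, HM.add_b, e3, e3', add_zero]
        · rw [map_add, HM.add_c]
          exact N.add_mem e4 e4'
      zero_mem' := by
        refine ⟨?_, ?_, ?_, ?_⟩
        · rw [map_zero, HM.zero_t, actT_zero]
        · rw [map_zero, HM.zero_a]
        · rw [map_zero, HM.zero_b]
        · rw [map_zero, HM.zero_c]
          exact N.zero_mem
      smul_mem' := by
        rintro c w ⟨e1, e2, e3, e4⟩
        refine ⟨?_, ?_, ?_, ?_⟩
        · rw [map_smul, HM.smul_t, actT_smul, e1, smul_zero]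
        · rw [map_smul, HM.smul_a, e2, smul_zero]
        · rw [map_smul, HM.smul_b, e3, smul_zero]
        · rw [map_smul, HM.smul_c]
          exact N.smul_mem c e4
      lie_mem := by
        rintro y w ⟨e1, e2, e3, e4⟩
        refine ⟨?_, ?_, ?_, ?_⟩
        · rw [LieHom.map_lie, HM.lie_t, actT_zero]
        · rw [LieHom.map_lie, HM.lie_a, e1, e2, map_zero, LinearMap.zero_apply, sub_zero]
        · rw [LieHom.map_lie, HM.lie_b, e1, e3, map_zero, LinearMap.zero_apply, sub_zero]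
        · rw [LieHom.map_lie, HM.lie_c, e1, e2, e3, TensorProduct.tmul_zero,
            TensorProduct.zero_tmul, HM.Sg_zero, LinearMap.zero_apply, sub_zero, zero_add,
            zero_sub]
          exact N.neg_mem (St_stab X _ N hN e4) }
  have hI : π.ker ≤ I := by
    rw [hker, LieSubmodule.lieSpan_le]
    intro r hr
    have hr0 : π r = 0 := by
      have : r ∈ π.ker := by
        rw [hker]
        exact LieSubmodule.subset_lieSpan hr
      exact LieHom.mem_ker.mp this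
    have hz1 : ∀ g : G, mk (brk2 k 0 g) = 0 := by
      intro g
      have : brk2 k 0 g = 0 := Subtype.ext (zero_lie g)
      rw [this, map_zero]
    have hz2 : ∀ g : G, mk (brk2 k g 0) = 0 := by
      intro g
      have : brk2 k g 0 = 0 := Subtype.ext (lie_zero g)
      rw [this, map_zero]
    refine ⟨?_, ?_, ?_, ?_⟩
    · ext m
      obtain ⟨μ, rfl⟩ := hder.surj m
      rw [h3, hr0, hz2]
      rfl
    · rw [h1, hr0, hz1]
    · rw [h2, hr0, hz1]
    · rw [hNe, hS']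
      refine subset_gen _ _ ?_
      rw [Finset.coe_image]
      exact ⟨r, hr, rfl⟩
  -- elements over `D1`
  have ht : ∀ l, π l ∈ D1 k G → actT X (Θ l).t = 0 := by
    intro l hl
    ext m
    obtain ⟨μ, rfl⟩ := hder.surj m
    rw [h3, LinearMap.zero_apply]
    exact (hder.ker _).mpr (LieSubmodule.lie_mem_lie μ.2 hl)
  have ha : ∀ l (hl : π l ∈ D1 k G), (Θ l).a = X j (mk ⟨π l, hl⟩) := by
    intro l hl
    rw [h1]
    exact (hder.act j ⟨π l, hl⟩ _ rfl).symm
  have hb : ∀ l (hl : π l ∈ D1 k G), (Θ l).b = X j' (mk ⟨π l, hl⟩) := by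
    intro l hl
    rw [h2]
    exact (hder.act j' ⟨π l, hl⟩ _ rfl).symm
  obtain ⟨α, rfl⟩ := hder.surj u
  obtain ⟨β, rfl⟩ := hder.surj v
  obtain ⟨a, ha0⟩ := hπ (α : G)
  obtain ⟨b, hb0⟩ := hπ (β : G)
  have hr : ∀ (s t : ℕ) (w : FreeLieAlgebra k (Fin n)) (γ : ↥(D1 k G).toSubmodule),
      π w = (γ : G) → ∃ hl : π (rb (FreeLieAlgebra.of k q) s (rb (FreeLieAlgebra.of k p) t w)) ∈
        D1 k G, mk ⟨_, hl⟩ = (X q ^ s) ((X p ^ t) (mk γ)) := by
    intro s t w γ hw
    have e1 : π (rb (FreeLieAlgebra.of k q) s (rb (FreeLieAlgebra.of k p) t w)) =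
        rb (π (FreeLieAlgebra.of k q)) s (rb (π (FreeLieAlgebra.of k p)) t (γ : G)) := by
      rw [St_map_rb, St_map_rb, hw]
    have e2 := St_mem (π (FreeLieAlgebra.of k p)) t γ.2
    have e3 := St_mem (π (FreeLieAlgebra.of k q)) s e2
    have hl : π (rb (FreeLieAlgebra.of k q) s (rb (FreeLieAlgebra.of k p) t w)) ∈ D1 k G := by
      rw [e1]
      exact e3
    refine ⟨hl, ?_⟩
    have e4 : (⟨_, hl⟩ : ↥(D1 k G).toSubmodule) =
        ⟨rb (π (FreeLieAlgebra.of k q)) s (rb (π (FreeLieAlgebra.of k p)) t (γ : G)), e3⟩ :=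
      Subtype.ext e1
    rw [e4, ← St_mk hder p t γ]
    exact St_mk hder q s ⟨_, e2⟩
  have hw : Jd k d (FreeLieAlgebra.of k p) (FreeLieAlgebra.of k q) a b ∈ π.ker := by
    rw [LieHom.mem_ker, St_map_Jd, ha0, hb0]
    exact hJ p q α β α.2 β.2
  have hc : (Θ (Jd k d (FreeLieAlgebra.of k p) (FreeLieAlgebra.of k q) a b)).c ∈ N :=
    (hI hw).2.2.2
  have key : (Θ (Jd k d (FreeLieAlgebra.of k p) (FreeLieAlgebra.of k q) a b)).c =
      e0 X d p q j j' (mk α ⊗ₜ[k] mk β + mk β ⊗ₜ[k] mk α) := by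
    rw [St_e0 hX d hd]
    have e1 : (Θ (Jd k d (FreeLieAlgebra.of k p) (FreeLieAlgebra.of k q) a b)).c =
        St_c X hX (Θ (Jd k d (FreeLieAlgebra.of k p) (FreeLieAlgebra.of k q) a b)) := rfl
    rw [e1, Jd, map_sum, map_sum]
    refine Finset.sum_congr rfl fun i _ => ?_
    rw [map_smul, map_smul]
    congr 1
    obtain ⟨hl1, hm1⟩ := hr i (d - i) a α ha0
    obtain ⟨hl2, hm2⟩ := hr (d - i) i b β hb0
    have e2 : St_c X hX (Θ ⁅rb (FreeLieAlgebra.of k q) i (rb (FreeLieAlgebra.of k p) (d - i) a),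
        rb (FreeLieAlgebra.of k q) (d - i) (rb (FreeLieAlgebra.of k p) i b)⁆) =
        (Θ ⁅rb (FreeLieAlgebra.of k q) i (rb (FreeLieAlgebra.of k p) (d - i) a),
        rb (FreeLieAlgebra.of k q) (d - i) (rb (FreeLieAlgebra.of k p) i b)⁆).c := rfl
    rw [e2, LieHom.map_lie, HM.lie_c, ht _ hl1, ht _ hl2, ha _ hl1, ha _ hl2, hb _ hl1, hb _ hl2,
      hm1, hm2, HM.Sg_zero, LinearMap.zero_apply, LinearMap.zero_apply, sub_zero, add_zero]
  rw [← key]
  exact hc

end Pool.Agent.Lib.MP_240c17_al.Q2.Abc
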