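import Pool.Agent.Lib.MP_240c17_al.Q2.Abc.Spec

/-!
# MP_240c17, project Q2, stage ABC: from symmetric to all tensors
-/

set_option autoImplicit false

namespace Pool.Agent.Lib.MP_240c17_al.Q2.Abc

universe u

open Pool.Agent.Lib.MP_240c17_al Pool.Agent.Lib.MP_240c17_al.Two TensorProduct

section
variable {k : Type u} [Field k] {M : Type u} [AddCommGroup M] [Module k M]

private theorem Sy_Lt_comm {f g : Module.End k M} (h : Commute f g) : Commute (Lt f) (Lt g) := by
  show Lt f * Lt g = Lt g * Lt f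
  rw [← Lt_mul, ← Lt_mul, h.eq]

private theorem Sy_Rt_comm {f g : Module.End k M} (h : Commute f g) : Commute (Rt f) (Rt g) := by
  show Rt f * Rt g = Rt g * Rt f
  rw [← Rt_mul, ← Rt_mul, h.eq]

private theorem Sy_LR (f g : Module.End k M) : Commute (Lt f) (Rt g) := Lt_Rt f g

private theorem Sy_RL (f g : Module.End k M) : Commute (Rt f) (Lt g) := (Lt_Rt g f).symm

private theorem Sy_DSg {f g : Module.End k M} (h : Commute f g) :
    Commute (Lt f - Rt f) (Sg g) := by
  unfold Sg
  exact ((Sy_Lt_comm h).add_right (Sy_LR f g)).sub_left ((Sy_RL f g).add_right (Sy_Rt_comm h))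

private theorem Sy_Lmul {n : ℕ} {X : Fin n → Module.End k M} (hX : ∀ i j, Commute (X i) (X j))
    (i a b : Fin n) : Commute (Lt (X i)) (Lt (X a) * Rt (X b)) :=
  (Sy_Lt_comm (hX i a)).mul_right (Sy_LR _ _)

private theorem Sy_Rmul {n : ℕ} {X : Fin n → Module.End k M} (hX : ∀ i j, Commute (X i) (X j))
    (i a b : Fin n) : Commute (Rt (X i)) (Lt (X a) * Rt (X b)) :=
  (Sy_RL _ _).mul_right (Sy_Rt_comm (hX i b))

private theorem Sy_De0 {n : ℕ} {X : Fin n → Module.End k M} (hX : ∀ i j, Commute (X i) (X j))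
    (d : ℕ) (p q j j' i : Fin n) : Commute (Lt (X i) - Rt (X i)) (e0 X d p q j j') := by
  unfold e0
  have hL : Commute (Lt (X i)) ((Lt (X p) * Rt (X q) - Lt (X q) * Rt (X p)) ^ d *
      (Lt (X j) * Rt (X j'))) :=
    (((Sy_Lmul hX i p q).sub_right (Sy_Lmul hX i q p)).pow_right d).mul_right (Sy_Lmul hX i j j')
  have hR : Commute (Rt (X i)) ((Lt (X p) * Rt (X q) - Lt (X q) * Rt (X p)) ^ d *
      (Lt (X j) * Rt (X j'))) :=
    (((Sy_Rmul hX i p q).sub_right (Sy_Rmul hX i q p)).pow_right d).mul_right (Sy_Rmul hX i j j')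
  exact hL.sub_left hR

private theorem Sy_flip (f : Module.End k M) (w : M ⊗[k] M) :
    (Lt f - Rt f) (TensorProduct.comm k M M w) =
      -(TensorProduct.comm k M M ((Lt f - Rt f) w)) := by
  induction w with
  | zero => simp only [map_zero, neg_zero]
  | add a b ha hb =>
    simp only [map_add]
    rw [ha, hb]
    abel
  | tmul a b =>
    simp only [TensorProduct.comm_tmul, LinearMap.sub_apply, Lt_tmul, Rt_tmul, map_sub, neg_sub]

private theorem Sy_sym {n : ℕ} {X : Fin n → Module.End k M} {d : ℕ} {p q j j' : Fin n}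
    {N : Submodule k (M ⊗[k] M)}
    (h : ∀ u v : M, e0 X d p q j j' (u ⊗ₜ[k] v + v ⊗ₜ[k] u) ∈ N) (w : M ⊗[k] M) :
    e0 X d p q j j' (w + TensorProduct.comm k M M w) ∈ N := by
  induction w with
  | zero =>
    rw [map_zero, add_zero, map_zero]
    exact N.zero_mem
  | add a b ha hb =>
    have e : a + b + TensorProduct.comm k M M (a + b) =
        (a + TensorProduct.comm k M M a) + (b + TensorProduct.comm k M M b) := by
      rw [map_add]
      abel
    rw [e, map_add]
    exact N.add_mem ha hb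
  | tmul a b =>
    rw [TensorProduct.comm_tmul]
    exact h a b

end

theorem tSy : S_Sy.{u} := by
  classical
  intro k _ h2 M _ _ n X d p q j j' hX hS i
  obtain ⟨S', hS'⟩ := hS
  have hsym := Sy_sym (X := X) (d := d) (p := p) (q := q) (j := j) (j' := j') hS'
  refine ⟨S' ∪ S'.image (fun z => (Lt (X i) - Rt (X i)) z), fun w => ?_⟩
  set S'' : Finset (M ⊗[k] M) := S' ∪ S'.image (fun z => (Lt (X i) - Rt (X i)) z) with hS''
  set D : Module.End k (M ⊗[k] M) := Lt (X i) - Rt (X i) with hD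
  have hsub : (S' : Set (M ⊗[k] M)) ⊆ (S'' : Set (M ⊗[k] M)) := by
    rw [hS'', Finset.coe_union]
    exact Set.subset_union_left
  have hN : Two.gen (fun i => Sg (X i)) (S' : Set (M ⊗[k] M)) ≤
      Two.gen (fun i => Sg (X i)) (S'' : Set (M ⊗[k] M)) := Two.gen_mono _ hsub
  have hDN : Two.gen (fun i => Sg (X i)) (S' : Set (M ⊗[k] M)) ≤
      (Two.gen (fun i => Sg (X i)) (S'' : Set (M ⊗[k] M))).comap D := by
    refine Two.gen_le ?_ ?_
    · intro l y hy
      rw [Submodule.mem_comap] at hy ⊢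
      have hc : D (Sg (X l) y) = Sg (X l) (D y) := LinearMap.congr_fun (Sy_DSg (hX i l)).eq y
      rw [hc]
      exact Two.gen_stab (fun i => Sg (X i)) (S'' : Set (M ⊗[k] M)) l _ hy
    · intro y hy
      rw [SetLike.mem_coe, Submodule.mem_comap]
      refine Two.subset_gen _ _ ?_
      rw [hS'', Finset.coe_union, Finset.coe_image]
      exact Or.inr ⟨y, hy, rfl⟩
  have h1 : D (e0 X d p q j j' (w + TensorProduct.comm k M M w)) ∈
      Two.gen (fun i => Sg (X i)) (S'' : Set (M ⊗[k] M)) := hDN (hsym w)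
  have h3 : e0 X d p q j j' (D w + TensorProduct.comm k M M (D w)) ∈
      Two.gen (fun i => Sg (X i)) (S'' : Set (M ⊗[k] M)) := hN (hsym (D w))
  have hcomm : ∀ z, D (e0 X d p q j j' z) = e0 X d p q j j' (D z) := fun z =>
    LinearMap.congr_fun (Sy_De0 hX d p q j j' i).eq z
  have hfl : TensorProduct.comm k M M (D w) = -(D (TensorProduct.comm k M M w)) := by
    rw [hD, Sy_flip, neg_neg]
  have h4 : (2 : k) • D (e0 X d p q j j' w) ∈
      Two.gen (fun i => Sg (X i)) (S'' : Set (M ⊗[k] M)) := by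
    have e : (2 : k) • D (e0 X d p q j j' w) =
        D (e0 X d p q j j' (w + TensorProduct.comm k M M w)) +
          e0 X d p q j j' (D w + TensorProduct.comm k M M (D w)) := by
      rw [hfl, map_add, map_add, map_add, map_neg, ← hcomm, ← hcomm, two_smul]
      abel
    rw [e]
    exact Submodule.add_mem _ h1 h3
  exact (Submodule.smul_mem_iff _ h2).mp h4

end Pool.Agent.Lib.MP_240c17_al.Q2.Abc
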