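import Pool.Agent.Lib.MP_240c17_al.Q2.Abc.Spec

/-!
# MP_240c17, project Q2, stage ABC: the generic homomorphism and Fox derivatives
-/

set_option autoImplicit false

namespace Pool.Agent.Lib.MP_240c17_al.Q2.Abc

universe u

open Pool.Agent.Lib.MP_240c17_al Pool.Agent.Lib.MP_240c17_al.Two TensorProduct

private theorem Thd_ind {k : Type u} [Field k] {n : ℕ}
    (K : LieSubalgebra k (FreeLieAlgebra k (Fin n))) (h : ∀ i, FreeLieAlgebra.of k i ∈ K)
    (w : FreeLieAlgebra k (Fin n)) : w ∈ K := by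
  have h1 : K.incl.comp (FreeLieAlgebra.lift k fun x => (⟨FreeLieAlgebra.of k x, h x⟩ : K)) =
      LieHom.id := by
    apply FreeLieAlgebra.hom_ext
    intro x
    rw [LieHom.comp_apply, FreeLieAlgebra.lift_of_apply]
    rfl
  have h2 : K.incl (FreeLieAlgebra.lift k (fun x => (⟨FreeLieAlgebra.of k x, h x⟩ : K)) w) = w :=
    LieHom.congr_fun h1 w
  rw [← h2]
  exact (FreeLieAlgebra.lift k (fun x => (⟨FreeLieAlgebra.of k x, h x⟩ : K)) w).2

private theorem Thd_fN {k : Type u} [Field k] {n : ℕ} (t : Fin n → k) :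
    fN k n t = fP k n t ⊗ₜ[k] (1 : Pn k n) := rfl

private theorem Thd_gN {k : Type u} [Field k] {n : ℕ} (t : Fin n → k) :
    gN k n t = (1 : Pn k n) ⊗ₜ[k] fP k n t := rfl

private theorem Thd_a (k : Type u) [Field k] (n : ℕ) (p q : Fin n)
    (w : FreeLieAlgebra k (Fin n)) :
    (Th k p q w).t = (FX k p w).t ∧ (Th k p q w).a = (FX k p w).a ⊗ₜ[k] (1 : Pn k n) := by
  let K : LieSubalgebra k (FreeLieAlgebra k (Fin n)) :=
    { carrier := {w | (Th k p q w).t = (FX k p w).t ∧
        (Th k p q w).a = (FX k p w).a ⊗ₜ[k] (1 : Pn k n)}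
      add_mem' := by
        rintro u v ⟨hu1, hu2⟩ ⟨hv1, hv2⟩
        refine ⟨?_, ?_⟩
        · rw [map_add, map_add, HL.add_t, HL.add_t, hu1, hv1]
        · rw [map_add, map_add, HL.add_a, HL.add_a, hu2, hv2, TensorProduct.add_tmul]
      zero_mem' := by
        refine ⟨?_, ?_⟩
        · rw [map_zero, map_zero]
          rfl
        · rw [map_zero, map_zero, HL.zero_a, HL.zero_a, TensorProduct.zero_tmul]
      smul_mem' := by
        rintro c u ⟨hu1, hu2⟩
        refine ⟨?_, ?_⟩
        · rw [map_smul, map_smul, HL.smul_t, HL.smul_t, hu1]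
        · rw [map_smul, map_smul, HL.smul_a, HL.smul_a, hu2, TensorProduct.smul_tmul']
      lie_mem' := by
        rintro u v ⟨hu1, hu2⟩ ⟨hv1, hv2⟩
        refine ⟨?_, ?_⟩
        · rw [LieHom.map_lie, LieHom.map_lie]
          rfl
        · rw [LieHom.map_lie, LieHom.map_lie, HL.lie_a, HL.lie_a, hu1, hu2, hv1, hv2, Thd_fN,
            Thd_fN, Algebra.TensorProduct.tmul_mul_tmul, Algebra.TensorProduct.tmul_mul_tmul,
            TensorProduct.sub_tmul, one_mul] }
  refine Thd_ind K (fun i => ?_) w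
  refine ⟨?_, ?_⟩
  · rw [Th, FX, FreeLieAlgebra.lift_of_apply, FreeLieAlgebra.lift_of_apply]
  · rw [Th, FX, FreeLieAlgebra.lift_of_apply, FreeLieAlgebra.lift_of_apply]
    by_cases h : i = p
    · simp only [if_pos h]
      rfl
    · simp only [if_neg h, TensorProduct.zero_tmul]

private theorem Thd_b (k : Type u) [Field k] (n : ℕ) (p q : Fin n)
    (w : FreeLieAlgebra k (Fin n)) :
    (Th k p q w).t = (FX k q w).t ∧ (Th k p q w).b = (1 : Pn k n) ⊗ₜ[k] (FX k q w).a := by
  let K : LieSubalgebra k (FreeLieAlgebra k (Fin n)) :=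
    { carrier := {w | (Th k p q w).t = (FX k q w).t ∧
        (Th k p q w).b = (1 : Pn k n) ⊗ₜ[k] (FX k q w).a}
      add_mem' := by
        rintro u v ⟨hu1, hu2⟩ ⟨hv1, hv2⟩
        refine ⟨?_, ?_⟩
        · rw [map_add, map_add, HL.add_t, HL.add_t, hu1, hv1]
        · rw [map_add, map_add, HL.add_b, HL.add_a, hu2, hv2, TensorProduct.tmul_add]
      zero_mem' := by
        refine ⟨?_, ?_⟩
        · rw [map_zero, map_zero]
          rfl
        · rw [map_zero, map_zero, HL.zero_b, HL.zero_a, TensorProduct.tmul_zero]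
      smul_mem' := by
        rintro c u ⟨hu1, hu2⟩
        refine ⟨?_, ?_⟩
        · rw [map_smul, map_smul, HL.smul_t, HL.smul_t, hu1]
        · rw [map_smul, map_smul, HL.smul_b, HL.smul_a, hu2, TensorProduct.tmul_smul]
      lie_mem' := by
        rintro u v ⟨hu1, hu2⟩ ⟨hv1, hv2⟩
        refine ⟨?_, ?_⟩
        · rw [LieHom.map_lie, LieHom.map_lie]
          rfl
        · rw [LieHom.map_lie, LieHom.map_lie, HL.lie_b, HL.lie_a, hu1, hu2, hv1, hv2, Thd_gN,
            Thd_gN, Algebra.TensorProduct.tmul_mul_tmul, Algebra.TensorProduct.tmul_mul_tmul,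
            TensorProduct.tmul_sub, one_mul] }
  refine Thd_ind K (fun i => ?_) w
  refine ⟨?_, ?_⟩
  · rw [Th, FX, FreeLieAlgebra.lift_of_apply, FreeLieAlgebra.lift_of_apply]
  · rw [Th, FX, FreeLieAlgebra.lift_of_apply, FreeLieAlgebra.lift_of_apply]
    by_cases h : i = q
    · simp only [if_pos h]
      rfl
    · simp only [if_neg h, TensorProduct.tmul_zero]

private theorem Thd_t (k : Type u) [Field k] (n : ℕ) (p q : Fin n)
    (w : FreeLieAlgebra k (Fin n)) (hw : w ∈ D1 k (FreeLieAlgebra k (Fin n))) :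
    (Th k p q w).t = 0 := by
  let N : LieIdeal k (FreeLieAlgebra k (Fin n)) :=
    { carrier := {w | (Th k p q w).t = 0}
      add_mem' := by
        intro u v hu hv
        change (Th k p q (u + v)).t = 0
        rw [map_add, HL.add_t, show (Th k p q u).t = 0 from hu, show (Th k p q v).t = 0 from hv,
          add_zero]
      zero_mem' := by
        change (Th k p q 0).t = 0
        rw [map_zero]
        rfl
      smul_mem' := by
        intro c u hu
        change (Th k p q (c • u)).t = 0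
        rw [map_smul, HL.smul_t, show (Th k p q u).t = 0 from hu, smul_zero]
      lie_mem := by
        intro u v _
        change (Th k p q ⁅u, v⁆).t = 0
        rw [LieHom.map_lie]
        rfl }
  have h : D1 k (FreeLieAlgebra k (Fin n)) ≤ N := by
    refine (LieSubmodule.lie_le_iff _ _ _).2 fun u _ v _ => ?_
    change (Th k p q ⁅u, v⁆).t = 0
    rw [LieHom.map_lie]
    rfl
  exact h hw

theorem tThd : S_Thd.{u} := fun k _ n p q w =>
  ⟨(Thd_a k n p q w).2, (Thd_b k n p q w).2, Thd_t k n p q w⟩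

end Pool.Agent.Lib.MP_240c17_al.Q2.Abc
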