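import Pool.Agent.Lib.MP_240c17_al.Q2.Abc.Spec

/-!
# MP_240c17, project Q2, stage ABC, module TrA: from operators to the algebra
-/

set_option autoImplicit false

namespace Pool.Agent.Lib.MP_240c17_al.Q2.Abc

universe u

open Pool.Agent.Lib.MP_240c17_al Pool.Agent.Lib.MP_240c17_al.Two TensorProduct

section rep

variable {k : Type u} [Field k] {M : Type u} [AddCommGroup M] [Module k M] {A : Type u}
  [CommRing A] [Algebra k A] (ι : A →ₐ[k] Module.End k M)

/-- the action of `A ⊗ A` on `M ⊗ M` -/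
noncomputable def TrA_rho : A ⊗[k] A →ₐ[k] Module.End k (M ⊗[k] M) :=
  (Module.endTensorEndAlgHom (R := k) (S := k) (A := k) (M := M) (N := M)).comp
    (Algebra.TensorProduct.map ι ι)

theorem TrA_rho_tmul (a b : A) : TrA_rho ι (a ⊗ₜ[k] b) = Lt (ι a) * Rt (ι b) := by
  refine TensorProduct.ext' fun m m' => ?_
  rfl

theorem TrA_rho_apply (a b : A) (m m' : M) :
    TrA_rho ι (a ⊗ₜ[k] b) (m ⊗ₜ[k] m') = ι a m ⊗ₜ[k] ι b m' := rfl

/-- the representation of `A ⊗ A` is faithful -/
theorem TrA_rho_inj (hι : Function.Injective ι) (z : A ⊗[k] A) (hz : TrA_rho ι z = 0) :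
    z = 0 := by
  classical
  let B := Module.Basis.ofVectorSpace k A
  let E := TensorProduct.equivFinsuppOfBasisRight (M := A) B
  have hz' : z = (E z).sum fun i a => a ⊗ₜ[k] B i := by
    rw [← TensorProduct.equivFinsuppOfBasisRight_symm_apply (M := A) B (E z)]
    exact (E.symm_apply_apply z).symm
  have key : ∀ i, (E z) i = 0 := by
    intro i
    by_contra hi
    have hi' : i ∈ (E z).support := Finsupp.mem_support_iff.2 hi
    refine hi (hι ?_)
    rw [map_zero]
    refine LinearMap.ext fun m => ?_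
    rw [LinearMap.zero_apply]
    refine (Module.forall_dual_apply_eq_zero_iff k _).1 fun φ => ?_
    have h1 : ∑ l ∈ (E z).support, φ (ι ((E z) l) m) • B l = 0 := by
      refine hι ?_
      rw [map_zero]
      refine LinearMap.ext fun m' => ?_
      have h2 : TensorProduct.lid k M (LinearMap.rTensor M φ (TrA_rho ι z (m ⊗ₜ[k] m'))) = 0 := by
        rw [hz, LinearMap.zero_apply, map_zero, map_zero]
      rw [hz', Finsupp.sum, map_sum, LinearMap.sum_apply, map_sum, map_sum] at h2
      rw [map_sum, LinearMap.sum_apply, LinearMap.zero_apply]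
      refine Eq.trans (Finset.sum_congr rfl fun l _ => ?_) h2
      rw [TrA_rho_apply, LinearMap.rTensor_tmul, TensorProduct.lid_tmul, map_smul,
        LinearMap.smul_apply]
    exact linearIndependent_iff'.1 B.linearIndependent (E z).support _ h1 i hi'
  rw [hz', Finsupp.sum]
  refine Finset.sum_eq_zero fun l _ => ?_
  rw [key l, TensorProduct.zero_tmul]

end rep

/-- the theorem of Cayley and Hamilton for a submodule of a finitely generated module -/
theorem TrA_CH {R T W : Type u} [CommRing R] [IsNoetherianRing R] [CommRing T] [Algebra R T]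
    [AddCommGroup W] [Module T W] [Module R W] [IsScalarTower R T W] (N : Submodule R W)
    (hN : N.FG) (Y : Submodule T W) (hY : ∀ y ∈ Y, y ∈ N) (t : T) :
    ∃ f : Polynomial R, f.Monic ∧ ∀ y ∈ Y, Polynomial.aeval t f • y = 0 := by
  have hN' : IsNoetherian R N := isNoetherian_of_fg_of_noetherian N hN
  let g : ↥Y →ₗ[R] ↥N :=
    { toFun := fun y => ⟨y.1, hY y.1 y.2⟩
      map_add' := fun _ _ => rfl
      map_smul' := fun _ _ => rfl }
  have hg : Function.Injective g := by
    intro y y' h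
    exact Subtype.ext (congrArg (fun z : ↥N => (z : W)) h)
  have hY' : IsNoetherian R ↥Y := isNoetherian_of_injective g hg
  obtain ⟨f, hf1, hf2⟩ := LinearMap.exists_monic_and_aeval_eq_zero R
    (Algebra.lsmul R R ↥Y t)
  refine ⟨f, hf1, fun y hy => ?_⟩
  rw [Polynomial.aeval_algHom_apply] at hf2
  have h := LinearMap.congr_fun hf2 ⟨y, hy⟩
  exact congrArg Subtype.val h

/-- **TrA** -/
theorem tTrA : S_TrA.{u} := by
  intro k _ M _ _ A _ _ ι n x d p q j j' i hι _ hS t
  obtain ⟨S, hS⟩ := hS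
  let ρ := TrA_rho ι
  let _ : Module (A ⊗[k] A) (M ⊗[k] M) := Module.compHom (M ⊗[k] M) ρ.toRingHom
  have hsm : ∀ (s : A ⊗[k] A) (w : M ⊗[k] M), s • w = ρ s w := fun _ _ => rfl
  have : IsScalarTower k (A ⊗[k] A) (M ⊗[k] M) := by
    refine ⟨fun c s w => ?_⟩
    rw [hsm, hsm, map_smul, LinearMap.smul_apply]
  have hfg : (Rd (k := k) x).FG := Subalgebra.fg_def.2 ⟨_, Set.finite_range _, rfl⟩
  have : IsNoetherianRing ↥(Rd (k := k) x) := isNoetherianRing_of_fg hfg
  let N : Submodule ↥(Rd (k := k) x) (M ⊗[k] M) := Submodule.span ↥(Rd (k := k) x) (S : Set (M ⊗[k] M))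
  have hN : N.FG := ⟨S, rfl⟩
  have hgen : ∀ w, w ∈ Two.gen (fun i => Sg (ι (x i))) (S : Set (M ⊗[k] M)) → w ∈ N := by
    intro w hw
    have h1 : Two.gen (fun i => Sg (ι (x i))) (S : Set (M ⊗[k] M)) ≤ N.restrictScalars k := by
      refine Two.gen_le ?_ Submodule.subset_span
      intro l y hy
      have h2 : Sg (ι (x l)) y =
          (⟨x l ⊗ₜ[k] (1 : A) + (1 : A) ⊗ₜ[k] x l,
            Algebra.subset_adjoin ⟨l, rfl⟩⟩ : ↥(Rd (k := k) x)) • y := by
        change Sg (ι (x l)) y = ρ (x l ⊗ₜ[k] (1 : A) + (1 : A) ⊗ₜ[k] x l) y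
        rw [map_add]
        change Sg (ι (x l)) y = (TrA_rho ι (x l ⊗ₜ[k] (1 : A)) +
          TrA_rho ι ((1 : A) ⊗ₜ[k] x l)) y
        rw [TrA_rho_tmul, TrA_rho_tmul, map_one, Sg]
        have h3 : Rt (1 : Module.End k M) = 1 := by
          refine TensorProduct.ext' fun a b => ?_
          rfl
        have h4 : Lt (1 : Module.End k M) = 1 := by
          refine TensorProduct.ext' fun a b => ?_
          rfl
        rw [h3, h4, mul_one, one_mul]
      rw [h2]
      exact N.smul_mem _ hy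
    exact h1 hw
  have he : ∀ w, ρ (eA x d p q j j' i) w ∈ N := by
    intro w
    refine hgen _ ?_
    have h1 : ρ (eA x d p q j j' i) =
        (Lt (ι (x i)) - Rt (ι (x i))) * e0 (fun i => ι (x i)) d p q j j' := by
      change TrA_rho ι (eA x d p q j j' i) = _
      unfold eA e0
      rw [mul_comm, map_mul, map_mul, map_pow, map_sub, map_sub, TrA_rho_tmul, TrA_rho_tmul,
        TrA_rho_tmul, TrA_rho_tmul, TrA_rho_tmul, map_one]
      have h3 : Rt (1 : Module.End k M) = 1 := by
        refine TensorProduct.ext' fun a b => ?_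
        rfl
      have h4 : Lt (1 : Module.End k M) = 1 := by
        refine TensorProduct.ext' fun a b => ?_
        rfl
      rw [h3, h4, mul_one, one_mul]
    rw [h1]
    exact hS w
  let Y : Submodule (A ⊗[k] A) (M ⊗[k] M) :=
    LinearMap.range (LinearMap.lsmul (A ⊗[k] A) (M ⊗[k] M) (eA x d p q j j' i))
  have hY : ∀ y ∈ Y, y ∈ N := by
    rintro y ⟨w, rfl⟩
    exact he w
  obtain ⟨f, hf1, hf2⟩ := TrA_CH N hN Y hY t
  refine ⟨f, hf1, TrA_rho_inj ι hι _ ?_⟩
  refine LinearMap.ext fun w => ?_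
  rw [map_mul, LinearMap.zero_apply]
  exact hf2 _ ⟨w, rfl⟩

end Pool.Agent.Lib.MP_240c17_al.Q2.Abc
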