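import Pool.Agent.Lib.MP_240c17_al.Q2.Abc.Spec

set_option autoImplicit false

namespace Pool.Agent.Lib.MP_240c17_al.Q2.Abc

universe u

open Pool.Agent.Lib.MP_240c17_al Pool.Agent.Lib.MP_240c17_al.Two TensorProduct

/-- the homomorphism `A ⊗ A → End (M ⊗ M)` -/
private noncomputable def TrB_rho {k : Type u} [Field k] {M : Type u} [AddCommGroup M] [Module k M]
    {A : Type u} [CommRing A] [Algebra k A] (ι : A →ₐ[k] Module.End k M) :
    A ⊗[k] A →ₐ[k] Module.End k (M ⊗[k] M) :=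
  (Module.endTensorEndAlgHom (R := k) (A := k) (M := M) (N := M)).comp
    (Algebra.TensorProduct.map ι ι)

private lemma TrB_rho_tmul {k : Type u} [Field k] {M : Type u} [AddCommGroup M] [Module k M]
    {A : Type u} [CommRing A] [Algebra k A] (ι : A →ₐ[k] Module.End k M) (a b : A) :
    TrB_rho ι (a ⊗ₜ[k] b) = Lt (ι a) * Rt (ι b) := by
  apply TensorProduct.ext'
  intro u v
  rfl

private lemma TrB_rho_l {k : Type u} [Field k] {M : Type u} [AddCommGroup M] [Module k M]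
    {A : Type u} [CommRing A] [Algebra k A] (ι : A →ₐ[k] Module.End k M) (a : A) :
    TrB_rho ι (a ⊗ₜ[k] (1 : A)) = Lt (ι a) := by
  rw [TrB_rho_tmul]
  apply TensorProduct.ext'
  intro u v
  rw [map_one]
  rfl

private lemma TrB_rho_r {k : Type u} [Field k] {M : Type u} [AddCommGroup M] [Module k M]
    {A : Type u} [CommRing A] [Algebra k A] (ι : A →ₐ[k] Module.End k M) (a : A) :
    TrB_rho ι ((1 : A) ⊗ₜ[k] a) = Rt (ι a) := by
  rw [TrB_rho_tmul]
  apply TensorProduct.ext'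
  intro u v
  rw [map_one]
  rfl

private lemma TrB_rho_s {k : Type u} [Field k] {M : Type u} [AddCommGroup M] [Module k M]
    {A : Type u} [CommRing A] [Algebra k A] (ι : A →ₐ[k] Module.End k M) (a : A) :
    TrB_rho ι (a ⊗ₜ[k] (1 : A) + (1 : A) ⊗ₜ[k] a) = Sg (ι a) := by
  rw [map_add, TrB_rho_l, TrB_rho_r]
  rfl

theorem tTrB : TensorGenProp.{u} → IntegralProp.{u} → S_TrB.{u} := by
  intro hT hI k _ M _ _ A _ _ ι n x hS hInt
  have hgen : ∃ S : Finset (M ⊗[k] M),
      Two.gen (Sum.elim (fun i => Sg (ι (x i))) fun i => Lt (ι (x i)))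
        (S : Set (M ⊗[k] M)) ⊔ ⊥ = ⊤ := by
    obtain ⟨S, hS1⟩ := hT k M n (fun i => ι (x i)) hS
    refine ⟨S, ?_⟩
    rw [sup_bot_eq, eq_top_iff, ← hS1]
    refine gen_le ?_ (subset_gen _ _)
    rw [stab_elim]
    have h1 := stab_elim.mp (gen_stab (Sum.elim (fun i => Sg (ι (x i))) fun i => Lt (ι (x i)))
      (S : Set (M ⊗[k] M)))
    refine ⟨h1.2, fun i y hy => ?_⟩
    have h2 := Submodule.sub_mem _ (h1.1 i y hy) (h1.2 i y hy)
    have h3 : Sg (ι (x i)) y - Lt (ι (x i)) y = LinearMap.lTensor M (ι (x i)) y := by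
      show (Lt (ι (x i)) + Rt (ι (x i))) y - Lt (ι (x i)) y = Rt (ι (x i)) y
      rw [LinearMap.add_apply, add_sub_cancel_left]
    rw [h3] at h2
    exact h2
  have hrho : ∀ j : Fin n ⊕ Fin n, ∃ t : A ⊗[k] A, TrB_rho ι t =
      Sum.elim (fun i => Sg (ι (x i))) (fun i => Lt (ι (x i))) j := by
    rintro (i | i)
    · exact ⟨_, TrB_rho_s ι (x i)⟩
    · exact ⟨_, TrB_rho_l ι (x i)⟩
  have key := hI k (M ⊗[k] M) (Fin n) (Fin n) (fun i => Sg (ι (x i))) (fun i => Lt (ι (x i)))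
    ⊥ ⊤ (stab_bot _) ?_ hgen ?_
  · obtain ⟨S, hS1⟩ := key
    exact ⟨S, by rwa [sup_bot_eq] at hS1⟩
  · intro i j y _
    obtain ⟨a, ha⟩ := hrho i
    obtain ⟨b, hb⟩ := hrho j
    rw [Submodule.mem_bot, ← ha, ← hb, ← Module.End.mul_apply, ← Module.End.mul_apply, ← map_mul,
      ← map_mul, mul_comm a b, sub_self]
  · intro j
    obtain ⟨p, hp, hp0⟩ := hInt (x j ⊗ₜ[k] (1 : A))
    refine ⟨p.natDegree, fun l => -TrB_rho ι (p.coeff l : A ⊗[k] A), fun l => ?_, ?_⟩
    · refine Subalgebra.neg_mem _ ?_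
      have h1 : TrB_rho ι (p.coeff l : A ⊗[k] A) ∈ (Rd x).map (TrB_rho ι) :=
        Subalgebra.mem_map.mpr ⟨_, (p.coeff l).2, rfl⟩
      rw [AlgHom.map_adjoin, ← Set.range_comp] at h1
      have h2 : (TrB_rho ι : A ⊗[k] A → Module.End k (M ⊗[k] M)) ∘
          (fun i => x i ⊗ₜ[k] (1 : A) + (1 : A) ⊗ₜ[k] x i) = fun i => Sg (ι (x i)) := by
        funext i
        exact TrB_rho_s ι (x i)
      rw [h2] at h1
      exact h1
    · intro y _
      rw [Submodule.mem_bot]
      rw [Polynomial.eval₂_eq_sum_range, Finset.sum_range_succ, hp.coeff_natDegree, map_one,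
        one_mul] at hp0
      have h1 := congrArg (TrB_rho ι) hp0
      rw [map_add, map_sum, map_pow, TrB_rho_l, map_zero] at h1
      have h2 := congrArg (fun f : Module.End k (M ⊗[k] M) => f y) h1
      simp only [LinearMap.add_apply, LinearMap.sum_apply, LinearMap.zero_apply, map_mul, map_pow,
        TrB_rho_l, Module.End.mul_apply] at h2
      rw [← h2]
      simp only [LinearMap.neg_apply, Finset.sum_neg_distrib, sub_neg_eq_add]
      rw [add_comm]
      rfl

end Pool.Agent.Lib.MP_240c17_al.Q2.Abc
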