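import Pool.Agent.Lib.MP_240c17_al.Q2.Abc.Asm
import Pool.Agent.Lib.MP_240c17_al.Q2.Abc.Fs
import Pool.Agent.Lib.MP_240c17_al.Q2.Abc.Thd
import Pool.Agent.Lib.MP_240c17_al.Q2.Abc.N2a
import Pool.Agent.Lib.MP_240c17_al.Q2.Abc.Fox
import Pool.Agent.Lib.MP_240c17_al.Q2.Abc.N2b
import Pool.Agent.Lib.MP_240c17_al.Q2.Abc.N2c
import Pool.Agent.Lib.MP_240c17_al.Q2.Abc.JD
import Pool.Agent.Lib.MP_240c17_al.Q2.Abc.Der
import Pool.Agent.Lib.MP_240c17_al.Q2.Abc.Th1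
import Pool.Agent.Lib.MP_240c17_al.Q2.Abc.St
import Pool.Agent.Lib.MP_240c17_al.Q2.Abc.Sy
import Pool.Agent.Lib.MP_240c17_al.Q2.Abc.Mp
import Pool.Agent.Lib.MP_240c17_al.Q2.Abc.C4
import Pool.Agent.Lib.MP_240c17_al.Q2.Abc.Int
import Pool.Agent.Lib.MP_240c17_al.Q2.Abc.CA
import Pool.Agent.Lib.MP_240c17_al.Q2.Abc.TrA
import Pool.Agent.Lib.MP_240c17_al.Q2.Abc.TrB
import Pool.Agent.Lib.MP_240c17_al.Q2.Abc.Phi
import Pool.Agent.Lib.MP_240c17_al.Q2.Abc.Fin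
import Pool.Agent.Lib.MP_240c17_al.Q2.Abc.E1
import Pool.Agent.Lib.MP_240c17_al.Q2.Abc.E2
import Pool.Agent.Lib.MP_240c17_al.Q2.Abc.E3
import Pool.Agent.Lib.MP_240c17_al.Q2.Abc.Ln
import Pool.Agent.Lib.MP_240c17_al.Q2.Abc.RF
import Pool.Agent.Lib.MP_240c17_al.Two.Mod
import Pool.Agent.Lib.MP_240c17_al.Two.Hilbert
import Pool.Agent.Lib.MP_240c17_al.Two.Rfd
import Pool.Agent.Lib.MP_240c17_al.Two.Ann
import Pool.Agent.Lib.MP_240c17_al.Two.Integral
import Pool.Agent.Lib.MP_240c17_al.Two.Lines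
import Pool.Agent.Lib.MP_240c17_al.Two.Closed
import Pool.Agent.Lib.MP_240c17_al.Two.Rec
import Pool.Agent.Lib.MP_240c17_al.Two.Abs
import Pool.Agent.Lib.MP_240c17_al.Two.LieGen
import Pool.Agent.Lib.MP_240c17_al.Two.Sep
import Pool.Agent.Lib.MP_240c17_al.Two.Norm
import Pool.Agent.Lib.MP_240c17_al.Two.Mc
import Pool.Agent.Lib.MP_240c17_al.Two.LieMain
import Pool.Agent.Lib.MP_240c17_al.Two.Final

/-!
# MP_240c17, project Q2, stage ABC: the theorem
-/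

set_option autoImplicit false

namespace Pool.Agent.Lib.MP_240c17_al.Q2.Abc

universe u

open Pool.Agent.Lib.MP_240c17_al Pool.Agent.Lib.MP_240c17_al.Two TensorProduct

/-- sufficiency in the relative reading -/
theorem rel_suff (k : Type u) [Field k] [Infinite k] (Id : Set (FreeLieAlgebra k ℕ))
    (hN : ∀ (L : Type u) [LieRing L] [LieAlgebra k L], InVariety Id L → IsN2A L)
    (h : ∃ (m : ℕ) (c : ℕ → k), (∃ i ≤ m, c i ≠ 0) ∧
      ∀ (L : Type u) [LieRing L] [LieAlgebra k L], InVariety Id L → ∀ a b y : L,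
        ∑ i ∈ Finset.range (m + 1),
          c i • ⁅(fun l => ⁅l, y⁆)^[i] a, (fun l => ⁅l, y⁆)^[m - i] b⁆ = 0) :
    ∀ (L : Type u) [LieRing L] [LieAlgebra k L], RelFinitelyPresented Id L →
      ResiduallyFiniteDimensional k L := by
  obtain ⟨m, c, hc, hI⟩ := h
  intro L _ _ hL
  have hAbs : AbsProp.{u} := abs_ integral (lines integral)
    (closed (hilbert mod_) (rfd mod_) (ann mod_) polyFd) rec_ tensorGen
  have hSep : SepProp.{u} := sep (rfd mod_) stabIdeal cofFg idealGen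
  have hMc : McProp.{u} := mc (hilbert mod_) polyFd hAbs stabIdeal cofFg derFc idealGen
  have hMain : LieMainProp.{u} := lieMain hSep hMc interFg derFc
  exact final_suff hMain (norm_ stabIdeal) Id hN m c hc hI L hL

theorem hDer : S_Der.{u} := tDer derFc cofFg idealGen
theorem hN2c : S_N2c.{u} :=
  tN2c tFs (tN2a tThd) (tFox hDer idealGen) (tN2b tThd (tFox hDer idealGen) hDer)
theorem hCA : S_CA.{u} := tCA (tC4 tMp) tInt
theorem hFin : S_Fin.{u} := tFin hCA tTrA (tTrB tensorGen integral) tPhi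
theorem hLn : S_Ln.{u} := tLn (tE2 tE1) tE3
theorem hRF : S_RF.{u} :=
  tRF (rfd mod_) (ann mod_) polyFd stabIdeal derFc (sep (rfd mod_) stabIdeal cofFg idealGen)

/-- sufficiency in the absolute reading -/
theorem abs_suff (k : Type u) [Field k] [Infinite k] (h2 : (2 : k) ≠ 0)
    (Id : Set (FreeLieAlgebra k ℕ))
    (hN : ∀ (L : Type u) [LieRing L] [LieAlgebra k L], InVariety Id L → IsN2A L)
    (L₀ : Type u) [LieRing L₀] [LieAlgebra k L₀] (hL₀ : IsN2A L₀) (hL₁ : ¬InVariety Id L₀)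
    (G : Type u) [LieRing G] [LieAlgebra k G] (hG : InVariety Id G) (hfp : AbsFP k G) :
    ResiduallyFiniteDimensional k G := by
  by_cases h : ∃ (m : ℕ) (c : ℕ → k), (∃ i ≤ m, c i ≠ 0) ∧
      ∀ (L : Type u) [LieRing L] [LieAlgebra k L], InVariety Id L → ∀ a b y : L,
        ∑ i ∈ Finset.range (m + 1),
          c i • ⁅(fun l => ⁅l, y⁆)^[i] a, (fun l => ⁅l, y⁆)^[m - i] b⁆ = 0
  · exact rel_suff k Id hN h G (Asm_rel hG hfp)
  · have hI : NoId Id := by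
      intro m c hc i hi
      by_contra hne
      exact h ⟨m, c, ⟨i, by simpa [Nat.lt_succ_iff] using hi, hne⟩, fun L _ _ hL a b y => hc L hL a b y⟩
    exact abc_of tGne (tGid tVer) tGL hN2c tJD hDer (tSt tTh1) tSy hFin hLn hRF k h2 Id hN hI L₀ hL₀
      hL₁ G hG hfp

end Pool.Agent.Lib.MP_240c17_al.Q2.Abc
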