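import Pool.Agent.Lib.MP_240c17_al.Q2.Abc.Defs2
import Pool.Agent.Lib.MP_240c17_al.Q2.Spec

/-!
# MP_240c17, project Q2, stage ABC: statements of the modules, with proofs in the docstrings

Theorem ABC: `k` infinite, `char k ≠ 2`, `V` a variety contained in `N₂A`.  All absolutely finitely presented
algebras of `V` are residually finite dimensional if and only if `V ≠ N₂A`.

Notation: `[l, y]` (right action) is written `l.y`.  `F` = free Lie algebra, `D1 k G = G'`, `D2 k G = G''`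
(`LieIdeal`s, `Two/Spec.lean`), `M = G'/G''` with the commuting operators `X i` = bracket with `x i` (`IsDer`).
From the landed library: `Two/Basic.lean` (`gen`, `Stab`, `FC`, `CommMod`, `subset_gen`, `gen_stab`, `gen_le`,
`gen_mono`, `gen_union`, `fc_top_iff`), and the proved propositions (with the names of the theorems)
`Two.mod_ : ModProp`, `Two.hilbert mod_ : HilbertProp`, `Two.rfd mod_ : RfdProp`, `Two.ann mod_ : AnnProp`,
`Two.integral : IntegralProp`, `Two.polyFd : PolyFdProp`, `Two.tensorGen : TensorGenProp`,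
`Two.stabIdeal : StabIdealProp`, `Two.cofFg : CofFgProp`, `Two.derFc : DerFcProp`, `Two.idealGen : IdealGenProp`,
`Two.sep (Two.rfd Two.mod_) Two.stabIdeal Two.cofFg Two.idealGen : SepProp`; they are hypotheses here
(e.g. `theorem tDer : DerFcProp.{u} → … → S_Der.{u}`) so that only this file has to be imported.
-/

set_option autoImplicit false

namespace Pool.Agent.Lib.MP_240c17_al.Q2.Abc

universe u v

open Pool.Agent.Lib.MP_240c17_al Pool.Agent.Lib.MP_240c17_al.Two TensorProduct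

/-! ## definitions -/

/-- `⁅g, h⁆` as an element of the derived algebra -/
def brk2 (k : Type u) [Field k] {G : Type u} [LieRing G] [LieAlgebra k G] (g h : G) :
    ↥(D1 k G).toSubmodule :=
  ⟨⁅g, h⁆, LieSubmodule.lie_mem_lie (LieSubmodule.mem_top g) (LieSubmodule.mem_top h)⟩

/-- the homomorphism `x_i ↦ (e_i, [x_i, x_j], [x_i, x_j'], 0)` into `V ⋉ (M ⊕ M ⊕ M ⊗ M)` -/
noncomputable def ThM {k : Type u} [Field k] {G : Type u} [LieRing G] [LieAlgebra k G] {n : ℕ}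
    (π : FreeLieAlgebra k (Fin n) →ₗ⁅k⁆ G) {M : Type u} [AddCommGroup M] [Module k M]
    (mk : ↥(D1 k G).toSubmodule →ₗ[k] M) {X : Fin n → Module.End k M}
    (hX : ∀ i j, Commute (X i) (X j)) (j j' : Fin n) : FreeLieAlgebra k (Fin n) →ₗ⁅k⁆ HM X hX :=
  FreeLieAlgebra.lift k fun i => ⟨Pi.single i 1,
    mk (brk2 k (π (FreeLieAlgebra.of k i)) (π (FreeLieAlgebra.of k j))),
    mk (brk2 k (π (FreeLieAlgebra.of k i)) (π (FreeLieAlgebra.of k j'))), 0⟩

/-- the coefficients of a polynomial -/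
def cfp {L : Type u} [Field L] (p : Polynomial L) : ℕ → L := fun i => p.coeff i

/-- the homomorphism `x_i ↦ (θ_i, φ [x_i, x_j], 0, 0)` into `ET L` -/
noncomputable def ThE {k : Type u} [Field k] {G : Type u} [LieRing G] [LieAlgebra k G] {n : ℕ}
    (π : FreeLieAlgebra k (Fin n) →ₗ⁅k⁆ G) {M : Type u} [AddCommGroup M] [Module k M]
    (mk : ↥(D1 k G).toSubmodule →ₗ[k] M) {L : Type u} [Field L] [Algebra k L] (θ : Fin n → L)
    (φ : M →ₗ[k] Polynomial L) (j : Fin n) : FreeLieAlgebra k (Fin n) →ₗ⁅k⁆ ET L :=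
  FreeLieAlgebra.lift k fun i => ⟨θ i,
    cfp (φ (mk (brk2 k (π (FreeLieAlgebra.of k i)) (π (FreeLieAlgebra.of k j))))), 0, 0⟩

/-- the subalgebra of `A ⊗ A` generated by the `x_i ⊗ 1 + 1 ⊗ x_i` -/
abbrev Rd {k : Type u} [Field k] {A : Type u} [CommRing A] [Algebra k A] {n : ℕ} (x : Fin n → A) :
    Subalgebra k (A ⊗[k] A) :=
  Algebra.adjoin k (Set.range fun i => x i ⊗ₜ[k] (1 : A) + (1 : A) ⊗ₜ[k] x i)

/-- integral over a subalgebra -/
def IsIntS {k : Type u} [Field k] {T : Type u} [CommRing T] [Algebra k T] (R' : Subalgebra k T)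
    (t : T) : Prop := IsIntegral R' t

/-- there is a monic polynomial `f` over `R'` with `f(t) e = 0` -/
def MonicKills {k : Type u} [Field k] {T : Type u} [CommRing T] [Algebra k T]
    (R' : Subalgebra k T) (t e : T) : Prop :=
  ∃ f : Polynomial R', f.Monic ∧ Polynomial.aeval t f * e = 0

/-- the multipliers -/
noncomputable def eA {k : Type u} [Field k] {A : Type u} [CommRing A] [Algebra k A] {n : ℕ}
    (x : Fin n → A) (d : ℕ) (p q j j' i : Fin n) : A ⊗[k] A :=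
  (x p ⊗ₜ[k] x q - x q ⊗ₜ[k] x p) ^ d * (x j ⊗ₜ[k] x j') *
    (x i ⊗ₜ[k] (1 : A) - (1 : A) ⊗ₜ[k] x i)

/-- there is a line in the support -/
def Line (k : Type u) [Field k] {A : Type u} [CommRing A] [Algebra k A] {n : ℕ} (x : Fin n → A) :
    Prop :=
  ∃ (L : Type u) (_ : Field L) (_ : Algebra k L) (θ : Fin n → L) (χ : A →ₐ[k] Polynomial L),
    (∀ i, χ (x i) = Polynomial.C (θ i) * Polynomial.X) ∧ ∃ j, θ j ≠ 0

/-- a homomorphism of `M` onto a line -/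
def LineM (k : Type u) [Field k] {M : Type u} [AddCommGroup M] [Module k M] {n : ℕ}
    (X : Fin n → Module.End k M) : Prop :=
  ∃ (L : Type u) (_ : Field L) (_ : Algebra k L) (θ : Fin n → L) (φ : M →ₗ[k] Polynomial L),
    (∀ i m, φ (X i m) = Polynomial.C (θ i) * Polynomial.X * φ m) ∧ φ ≠ 0 ∧ ∃ j, θ j ≠ 0

/-! ## A. the algebra `H2` generates `N₂A`; the identity `J_d` -/

/-- **Fs**.  Proof: let `ε_n : F(ℕ) → F(ℕ)` be the endomorphism `of i ↦ of i` for `i < n`, `of i ↦ 0` for `i ≥ n`.  The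
set of `g` with `∃ n₀, ∀ n ≥ n₀, ε_n g = g` is a Lie subalgebra containing the generators, hence everything (see
`lift_mem` in `Func.lean`, or use `exists_coeff` of `Mono.lean`).  `ε_n` factors through `F(Fin n)`:
`w = lift (fun i => if h : i < n then of ⟨i, h⟩ else 0) g`. -/
def S_Fs : Prop :=
  ∀ (k : Type u) [Field k] (g : FreeLieAlgebra k ℕ), ∃ (n : ℕ) (w : FreeLieAlgebra k (Fin n)),
    g = FreeLieAlgebra.lift k (fun i : Fin n => FreeLieAlgebra.of k (i : ℕ)) w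

/-- **Thd**.  Proof: the sets of the `w` with `(Th p q w).t = (FX p w).t ∧ (Th p q w).a = dF p w ⊗ 1` and with
`(Th p q w).t = (FX q w).t ∧ (Th p q w).b = 1 ⊗ dF q w` are Lie subalgebras containing the generators (or: they are
compositions of homomorphisms, `FreeLieAlgebra.hom_ext`).  `t` vanishes on commutators (`HL.lie_t`), so on
`D1` (span of commutators). -/
def S_Thd : Prop :=
  ∀ (k : Type u) [Field k] (n : ℕ) (p q : Fin n) (w : FreeLieAlgebra k (Fin n)),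
    (Th k p q w).a = dF p w ⊗ₜ[k] (1 : Pn k n) ∧ (Th k p q w).b = (1 : Pn k n) ⊗ₜ[k] dF q w ∧
      (w ∈ D1 k (FreeLieAlgebra k (Fin n)) → (Th k p q w).t = 0)

/-- **N2a**.  Available: `S_Thd`.  Proof.  Let `s, t : Fin n → k` be points.  The map `GN k n → H2 k`,
`⟨y,a,b,c⟩ ↦ ⟨![∑ y i * s i, ∑ y i * t i], ε a, ε b, ε c⟩`, `ε = eval s ⊗ eval t : Pn ⊗ Pn → k`, is a homomorphism, so its
composition with `Th p q` kills `w`.  An element of `Pn ⊗ Pn` killed by all the `ε` is `0` (`z = ∑ p_l ⊗ q_l` with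
`q_l` linearly independent; `∑ p_l(s) q_l` vanishes at all `t`, so it is `0` (`MvPolynomial.funext`), so
`p_l(s) = 0` for all `s`); in particular `dF p w = 0` and `(Th p q w).c = 0`.  `w ∈ D1`: modulo `D1` the free algebra is
spanned by the generators, `w = ∑ y i • of i + d`, `d ∈ D1`; evaluate at `ρ i = ⟨![s i, 0], 0, 0, 0⟩`:
`∑ y i * s i = 0` for all `s`, so `y = 0`. -/
def S_N2a : Prop :=
  ∀ (k : Type u) [Field k] [Infinite k] (n : ℕ) (w : FreeLieAlgebra k (Fin n)),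
    (∀ ρ : Fin n → H2 k, FreeLieAlgebra.lift k ρ w = 0) →
      w ∈ D1 k (FreeLieAlgebra k (Fin n)) ∧ (∀ p, dF p w = 0) ∧ ∀ p q, (Th k p q w).c = 0

/-- **Fox** (Magnus embedding of the free metabelian Lie algebra).  Available: `S_Der`, `IdealGenProp`.
Proof.  `G = F`, `x = of`, `N = M`, `mk`, `X` from `S_Der`; `X^τ = ∏ i, X i ^ τ i` for `τ : Fin n →₀ ℕ` (e.g.
`MvPolynomial.aeval`-like, the `X i` commute).  `ν p q = mk ⁅x p, x q⁆`; `N` is spanned by the `X^τ ν p q` (`D1` is the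
ideal generated by the `⁅x p, x q⁆`, as modulo this ideal the algebra is abelian; `IdealGenProp`).  Jacobi:
`X l (ν p q) + X p (ν q l) + X q (ν l p) = 0`.  Let `h p : Pn k n → N` be linear with, for a monomial `x^τ`:
`h p (x^τ) = X^(τ - e_j) (ν p j)` if `τ ≠ 0` and `j = min (supp τ) < p`, and `0` otherwise.
CLAIM: `mk w = ∑ p, h p (dF p w)` for `w ∈ D1`.  Both sides are linear and vanish on `D2` (`dF p ⁅u, v⁆ = 0` for
`u, v ∈ D1`, because `t = 0`), so check it on `X^τ ν p q`, `q < p` (`ν q p = - ν p q`, `ν p p = 0`): `dF i` of this element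
is `δ_ip x^(τ+e_q) - δ_iq x^(τ+e_p)`.  Let `j = min (supp τ ∪ {q})`.  `h p (x^(τ+e_q)) = X^(τ+e_q-e_j) (ν p j)`.
If `j = q`: this is `X^τ ν p q` and `h q (x^(τ+e_p)) = 0`, because `min (supp τ ∪ {p}) ≥ q`.  If `j < q`: then
`h q (x^(τ+e_p)) = X^(τ+e_p-e_j) (ν q j)` and the difference is `X^(τ-e_j) (X q (ν p j) - X p (ν q j)) = X^(τ-e_j) (X j (ν p q))`
by Jacobi.  So `dF p w = 0` for all `p` gives `mk w = 0`, `w ∈ D2`. -/
def S_Fox : Prop :=
  ∀ (k : Type u) [Field k] (n : ℕ) (w : FreeLieAlgebra k (Fin n)),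
    w ∈ D1 k (FreeLieAlgebra k (Fin n)) → (∀ p, dF p w = 0) → w ∈ D2 k (FreeLieAlgebra k (Fin n))

/-- **N2b**.  Available: `S_Thd`, `S_Fox`, `S_Der`.  Proof.  `G = F`, `N, mk` from `S_Der`.  `w = ∑ l, ⁅u l, v l⁆` with
`u l, v l ∈ D1`; `z = ∑ mk (u l) ⊗ mk (v l) ∈ N ⊗ N`.  `δ p : N → Pn` induced by `dF p` (`dF p` vanishes on `D2`).
`(Th p q w).c = ∑ (dF p (u l) ⊗ dF q (v l) - dF p (v l) ⊗ dF q (u l)) = (δ p ⊗ δ q) (z - τ z)`, `τ` the flip.  The map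
`N → (Fin n → Pn)`, `(δ p)_p`, is injective (`S_Fox`), so `N ⊗ N → (Fin n → Fin n → Pn ⊗ Pn)` is injective
(tensor products over a field); hence `z = τ z`.  Let `C = ⁅D2, D1⁆` and `β : N ⊗ N → F / C` with
`β (mk a ⊗ mk b) = ⁅a, b⁆ + C`: `β z = w + C`, `β (τ z) = -(w + C)`, so `2 • w ∈ C`, `w ∈ C`. -/
def S_N2b : Prop :=
  ∀ (k : Type u) [Field k], (2 : k) ≠ 0 → ∀ (n : ℕ) (w : FreeLieAlgebra k (Fin n)),
    w ∈ D2 k (FreeLieAlgebra k (Fin n)) → (∀ p q, (Th k p q w).c = 0) →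
      w ∈ (⁅D2 k (FreeLieAlgebra k (Fin n)), D1 k (FreeLieAlgebra k (Fin n))⁆ :
        LieIdeal k (FreeLieAlgebra k (Fin n)))

/-- **N2c**.  Available: `S_Fs`, `S_N2a`, `S_Fox`, `S_N2b`.  Proof: `g ∈ Id`, `ρ : ℕ → L`; `g` comes from `w` on `n`
generators (`S_Fs`).  For `ρ' : Fin n → H2 k` extend `ρ'` to `ℕ` by `0`: `lift ρ' w = 0`.  So
`w ∈ ⁅D2, D1⁆` and `lift ρ g = lift (ρ ∘ val) w ∈ ⁅D2 L, D1 L⁆ = 0`. -/
def S_N2c : Prop :=
  ∀ (k : Type u) [Field k] [Infinite k], (2 : k) ≠ 0 → ∀ (Id : Set (FreeLieAlgebra k ℕ)),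
    InVariety Id (H2 k) → ∀ (L : Type u) [LieRing L] [LieAlgebra k L], IsN2A L → InVariety Id L

/-- **JD**.  Uses `exists_coeff`, `component_eq_zero`, `evM`, `degF` of `Mono.lean`.  Proof.  `v ∈ verbalIdeal Id 4`,
`Psi v = ⟨0,0,0,det4^d⟩`, `c` the coefficients of `v` (`exists_coeff`), `f = ![y1, y2, a, b]`.  For all `t : Fin 4 → k`:
`lift (t • f) v = 0` (`L` in the variety: the kernel of `lift (t • f)` is an ideal containing the values), so by
`component_eq_zero`, summing over the multidegrees `δ` with `δ 2 = 1 = δ 3`: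
`∑ ω with degF ω 2 = 1 = degF ω 3, c ω • evM f ω = 0`.
Let `Pa : U4 k → L` be linear with `x^μ ↦ a.y1^(μ 0).y2^(μ 1)` (first `y1`), `Pb` with `x^μ ↦ b.y1^(μ 2).y2^(μ 3)`, `Pc` with
`x^μ ↦ ⁅a.y1^(μ 0).y2^(μ 1), b.y1^(μ 2).y2^(μ 3)⁆`.  As `⁅⁅l, y2⁆, y1⁆ - ⁅⁅l, y1⁆, y2⁆ ∈ D2` for `l ∈ D1` and `⁅D2, D1⁆ = 0`:
`⁅Pa χ, y1⁆ ≡ Pa (X 0 χ)`, `⁅Pa χ, y2⁆ ≡ Pa (X 1 χ)` modulo `D2` for `χ ∈ k[X 0, X 1]` (similarly `Pb`, `X 2`, `X 3`), and
`⁅Pc χ, y1⁆ = Pc ((X 0 + X 2) χ)`, `⁅Pc χ, y2⁆ = Pc ((X 1 + X 3) χ)`, `⁅Pa χ, Pb χ'⁆ = Pc (χ χ')`.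
By induction on the monomial `ω`, with `e = evM (gens4 k) ω ∈ GG k` and `m = evM f ω`:
degrees `(0,0)` in `(a,b)`: `e = ⟨t,0,0,0⟩`, `m ≡ t 0 • y1 + t 1 • y2` modulo `D1`;  `(1,0)`: `e = ⟨0,χ,0,0⟩`, `χ ∈ k[X 0, X 1]`,
`m ≡ Pa χ` modulo `D2`;  `(0,1)`: `e = ⟨0,0,χ,0⟩`, `m ≡ Pb χ`;  `(1,1)`: `e = ⟨0,0,0,χ⟩`, `m = Pc χ`; in all other degrees
`e = 0`.  So `0 = ∑ c ω • m = Pc (∑ c ω • e.c) = Pc (det4^d)`, and this is `Jd d y1 y2 a b` (binomial formula). -/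
def S_JD : Prop :=
  ∀ (k : Type u) [Field k] [Infinite k] (Id : Set (FreeLieAlgebra k ℕ)) (d : ℕ),
    det4 k ^ d ∈ VG Id → ∀ (L : Type u) [LieRing L] [LieAlgebra k L], InVariety Id L → IsN2A L →
      ∀ y1 y2 a b : L, a ∈ D1 k L → b ∈ D1 k L → Jd k d y1 y2 a b = 0

/-! ## B. the consequences of a finite absolute presentation -/

/-- **Der**.  Available: `DerFcProp`, `CofFgProp`, `IdealGenProp`.  Proof: `M = ↥D1 ⧸ (D2.comap D1.subtype)`, `X i`
induced by the bracket with `x i`; they commute: `⁅⁅a, x j⁆, x i⁆ - ⁅⁅a, x i⁆, x j⁆ = ⁅a, ⁅x j, x i⁆⁆ ∈ D2`.  `D1` is an ideal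
of finite codimension, so it is generated as an ideal by a finite set, and as a subspace by this set under
the operators `adr k (x i)`; take the images in `M`. -/
def S_Der : Prop :=
  ∀ (k : Type u) [Field k] (G : Type u) [LieRing G] [LieAlgebra k G] (n : ℕ) (x : Fin n → G),
    LieSubalgebra.lieSpan k G (Set.range x) = ⊤ →
    ∃ (M : Type u) (_ : AddCommGroup M) (_ : Module k M) (mk : ↥(D1 k G).toSubmodule →ₗ[k] M)
      (X : Fin n → Module.End k M), IsDer x mk X ∧ (∀ i j, Commute (X i) (X j)) ∧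
      ∃ S : Finset M, Two.gen X (S : Set M) = ⊤

/-- **Th1**.  Proof.  (3) For `m ∈ D1`: the set of the `w` with `∀ m, actT X (Θ w).t (mk m) = mk ⁅m, π w⁆` is a Lie
subalgebra: for a commutator `t = 0`, and `⁅m, ⁅π u, π v⁆⁆ ∈ D2`; generators by `IsDer.act`, `actT_single`.
(1) The set of the `w` with `(Θ w).a = mk ⁅π w, x j⁆` (and (3)) is a Lie subalgebra:
`mk ⁅⁅π u, π v⁆, x j⁆ = mk ⁅⁅π u, x j⁆, π v⁆ - mk ⁅⁅π v, x j⁆, π u⁆` (Jacobi).  (2) in the same way. -/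
def S_Th1 : Prop :=
  ∀ (k : Type u) [Field k] (G : Type u) [LieRing G] [LieAlgebra k G] (n : ℕ)
    (π : FreeLieAlgebra k (Fin n) →ₗ⁅k⁆ G) (M : Type u) [AddCommGroup M] [Module k M]
    (mk : ↥(D1 k G).toSubmodule →ₗ[k] M) (X : Fin n → Module.End k M)
    (hX : ∀ i j, Commute (X i) (X j)) (j j' : Fin n),
    IsDer (fun i => π (FreeLieAlgebra.of k i)) mk X →
    (∀ w, (ThM π mk hX j j' w).a = mk (brk2 k (π w) (π (FreeLieAlgebra.of k j)))) ∧
    (∀ w, (ThM π mk hX j j' w).b = mk (brk2 k (π w) (π (FreeLieAlgebra.of k j')))) ∧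
    ∀ w (m : ↥(D1 k G).toSubmodule),
      actT X (ThM π mk hX j j' w).t (mk m) = mk (brk2 k (m : G) (π w))

/-- **St**.  Available: `S_Th1`.  Proof.  `Θ = ThM π mk hX j j'`, `S' = {(Θ r).c : r ∈ S}`, `N = gen (Sg (X i)) S'`.
The set `I = {w | actT X (Θ w).t = 0, (Θ w).a = 0, (Θ w).b = 0, (Θ w).c ∈ N}` is an ideal (`N` is stable under
`Sg (actT X t)`) containing `S` (`π r = 0`; `S_Th1`; `mk` is onto), so it contains `ker π`.
Let `u = mk α`, `v = mk β`, `α, β ∈ D1`, `α = π a`, `β = π b`.  The word `w = Jd d (of p) (of q) a b` is in `ker π`, since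
`π w = Jd d x_p x_q α β = 0`.  So `(Θ w).c ∈ N`.  For `l ∈ F` with `π l ∈ D1`: `actT X (Θ l).t = 0`,
`(Θ l).a = X j (mk (π l))`, `(Θ l).b = X j' (mk (π l))`; so `(Θ ⁅l, l'⁆).c = X j (mk l) ⊗ X j' (mk l') - X j (mk l') ⊗ X j' (mk l)`.
With `l = rb (of q) i (rb (of p) (d-i) a)`: `mk (π l) = X q ^ i (X p ^ (d-i) u)`, etc.  By the binomial formula for the
commuting operators `P = Lt (X p) * Rt (X q)`, `Q = Lt (X q) * Rt (X p)` the sum is
`(P - Q)^d (Lt (X j) * Rt (X j')) (u ⊗ v) - (Q - P)^d (Lt (X j) * Rt (X j')) (v ⊗ u)`, and `d` is odd. -/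
def S_St : Prop :=
  ∀ (k : Type u) [Field k] (G : Type u) [LieRing G] [LieAlgebra k G] (n : ℕ)
    (π : FreeLieAlgebra k (Fin n) →ₗ⁅k⁆ G) (S : Finset (FreeLieAlgebra k (Fin n)))
    (M : Type u) [AddCommGroup M] [Module k M]
    (mk : ↥(D1 k G).toSubmodule →ₗ[k] M) (X : Fin n → Module.End k M) (d : ℕ),
    (∀ i j, Commute (X i) (X j)) → Function.Surjective π →
    π.ker = LieSubmodule.lieSpan k (FreeLieAlgebra k (Fin n)) (S : Set (FreeLieAlgebra k (Fin n))) →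
    IsDer (fun i => π (FreeLieAlgebra.of k i)) mk X → Odd d →
    (∀ (p q : Fin n) (a b : G), a ∈ D1 k G → b ∈ D1 k G →
      Jd k d (π (FreeLieAlgebra.of k p)) (π (FreeLieAlgebra.of k q)) a b = 0) →
    ∀ p q j j' : Fin n, ∃ S' : Finset (M ⊗[k] M), ∀ u v : M,
      e0 X d p q j j' (u ⊗ₜ[k] v + v ⊗ₜ[k] u) ∈ Two.gen (fun i => Sg (X i)) (S' : Set (M ⊗[k] M))

/-- **Sy**.  Proof.  `N = gen (Sg (X i)) S'`, `τ` = flip.  For all `w`: `e0 (w + τ w) ∈ N`.  `D = Lt (X i) - Rt (X i)` and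
`e0` commute with the `Sg (X l)` and with each other; `S'' = S' ∪ D S'`: `D N ⊆ gen S''`.
`2 • D (e0 w) = D (e0 (w + τ w)) + e0 (D (w - τ w))`, and `D (w - τ w) = D w + τ (D w)`. -/
def S_Sy : Prop :=
  ∀ (k : Type u) [Field k], (2 : k) ≠ 0 → ∀ (M : Type u) [AddCommGroup M] [Module k M] (n : ℕ)
    (X : Fin n → Module.End k M) (d : ℕ) (p q j j' : Fin n), (∀ i j, Commute (X i) (X j)) →
    (∃ S' : Finset (M ⊗[k] M), ∀ u v : M,
      e0 X d p q j j' (u ⊗ₜ[k] v + v ⊗ₜ[k] u) ∈ Two.gen (fun i => Sg (X i)) (S' : Set (M ⊗[k] M))) →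
    ∀ i : Fin n, ∃ S'' : Finset (M ⊗[k] M), ∀ w : M ⊗[k] M,
      (Lt (X i) - Rt (X i)) (e0 X d p q j j' w) ∈ Two.gen (fun i => Sg (X i)) (S'' : Set (M ⊗[k] M))

/-! ## C. commutative algebra -/

/-- **Mp** (minimal primes and flatness).  Proof.  `q`, `q'` = preimages of `Q` in `A` (left and right),
`B = A ⧸ q`, `B' = A ⧸ q'` domains, `μ : A ⊗ A → B ⊗ B'`, `ker μ ≤ Q` (`Algebra.TensorProduct.map_ker`), so `Q` is minimal
over `ker μ`.  If `z = ∑ b^l ⊗ g_l ∈ Q`, then there is `y ∉ ker μ` with `z * y ∈ ker μ`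
(`Ideal.exists_mul_mem_of_mem_minimalPrimes`), `μ y ≠ 0`, `μ z * μ y = 0`.  `b̄ ∈ B` is transcendental over `k`, so `B` is a
torsion free module over the principal ideal domain `k[Y]` (`Y ↦ b̄`), hence flat.  The multiplication
with `G = ∑ ḡ_l Y^l ≠ 0` on the domain `B'[Y]` is injective and `k[Y]`-linear, so it is injective after `B ⊗_{k[Y]} -`, and
`B ⊗_{k[Y]} B'[Y] ≅ B ⊗_{k[Y]} (k[Y] ⊗_k B') ≅ B ⊗_k B'` (`TensorProduct.AlgebraTensorModule.cancelBaseChange`), where it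
becomes the multiplication with `μ z`.  Contradiction.  (Elementary version: the `k[b̄]`-submodule of `B`
generated by the left components of `μ y` is free.) -/
def S_Mp : Prop :=
  ∀ (k : Type u) [Field k] (A : Type u) [CommRing A] [Algebra k A] (Q : Ideal (A ⊗[k] A)) (b : A),
    Q ∈ minimalPrimes (A ⊗[k] A) →
    (∀ p : Polynomial k, p ≠ 0 → (Polynomial.aeval b p) ⊗ₜ[k] (1 : A) ∉ Q) →
    ∀ g : Polynomial A, (∃ l, (1 : A) ⊗ₜ[k] g.coeff l ∉ Q) →
      (g.sum fun l c => (b ^ l) ⊗ₜ[k] c) ∉ Q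

/-- **C4**.  Available: `S_Mp`.  Proof.  `C = (A ⊗ A) ⧸ Q` a domain, `u i`, `v i` = images of `x i ⊗ 1`, `1 ⊗ x i`:
`u p v q = u q v p`, some `u j ≠ 0`, some `v j' ≠ 0`; `u j v j' = u j' v j ≠ 0`; so `u i = 0 ↔ v i = 0`.  Left statement for `i`:
if `u i = 0` take `p = X`.  Otherwise let `B'` = image of `1 ⊗ A`, `L = Frac B'` inside `Frac C`.  `u l = (v l / v i) u i` for all `l`.
If `u i` is transcendental over `L`: `A → C`, `a ↦ a ⊗ 1`, has its image in `L[u i] ≅ L[Y]`, `x l ↦ (v l / v i) Y`: a line,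
contradiction.  So `u i` is algebraic over `L`: `∑ g_l u_i^l = 0` in `C` with `g_l ∈ B'` not all `0`, and `S_Mp` with `b = x i` gives
`p ≠ 0` with `aeval (x i) p ⊗ 1 ∈ Q`.  Right statement: apply the left one to the image of `Q` under the flip
`Algebra.TensorProduct.comm`. -/
def S_C4 : Prop :=
  ∀ (k : Type u) [Field k] (A : Type u) [CommRing A] [Algebra k A] (n : ℕ) (x : Fin n → A)
    (Q : Ideal (A ⊗[k] A)), Algebra.adjoin k (Set.range x) = ⊤ → ¬Line k x →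
    Q ∈ minimalPrimes (A ⊗[k] A) → (∀ p q, x p ⊗ₜ[k] x q - x q ⊗ₜ[k] x p ∈ Q) →
    (∃ j, x j ⊗ₜ[k] (1 : A) ∉ Q) → (∃ j, (1 : A) ⊗ₜ[k] x j ∉ Q) →
    ∀ i, (∃ p : Polynomial k, p ≠ 0 ∧ (Polynomial.aeval (x i) p) ⊗ₜ[k] (1 : A) ∈ Q) ∧
      ∃ p : Polynomial k, p ≠ 0 ∧ (1 : A) ⊗ₜ[k] (Polynomial.aeval (x i) p) ∈ Q

/-- **Int**.  Proof: `T` has finitely many minimal primes; the product of the monic polynomials maps `t` into
the nilradical; take a power. -/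
def S_Int : Prop :=
  ∀ (R T : Type u) [CommRing R] [CommRing T] [Algebra R T] [IsNoetherianRing T],
    (∀ Q ∈ minimalPrimes T, ∀ t : T, ∃ f : Polynomial R, f.Monic ∧ Polynomial.aeval t f ∈ Q) →
    ∀ t : T, IsIntegral R t

/-- **CA**.  Available: `S_C4`, `S_Int`.  Proof.  `A ⊗ A` is generated by the `x i ⊗ 1`, `1 ⊗ x i`, so it is Noetherian.
Let `Q` be a minimal prime; it suffices (integral elements of `(A ⊗ A) ⧸ Q` over `Rd x` form a ring) to treat all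
`t` if some `eA … ∉ Q` (`aeval t f * eA = 0 ∈ Q`, so `aeval t f ∈ Q`), and otherwise `t = x i ⊗ 1` and `t = 1 ⊗ x i`.
If all `eA … ∈ Q`: either all `x p ⊗ x q - x q ⊗ x p ∈ Q`, or all `x j ⊗ 1 ∈ Q`, or all `1 ⊗ x j ∈ Q`, or all `x i ⊗ 1 - 1 ⊗ x i ∈ Q`.
In the second case `x i ⊗ 1 ≡ 0`, `1 ⊗ x i ≡ x i ⊗ 1 + 1 ⊗ x i ∈ Rd x`; the third is similar; in the fourth case
`2 • (x i ⊗ 1) ≡ x i ⊗ 1 + 1 ⊗ x i`; in the first case (not the second or third) `S_C4` gives polynomials over `k` (divide by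
the leading coefficient). -/
def S_CA : Prop :=
  ∀ (k : Type u) [Field k], (2 : k) ≠ 0 → ∀ (A : Type u) [CommRing A] [Algebra k A] (n : ℕ)
    (x : Fin n → A) (d : ℕ), Algebra.adjoin k (Set.range x) = ⊤ → ¬Line k x →
    (∀ (p q j j' i : Fin n) (t : A ⊗[k] A), MonicKills (Rd x) t (eA x d p q j j' i)) →
    ∀ t : A ⊗[k] A, IsIntS (Rd x) t

/-- **TrA**.  Proof.  `ρ : A ⊗ A → End (M ⊗ M)`, `a ⊗ b ↦ Lt (ι a) * Rt (ι b)` (`Module.endTensorEndAlgHom`) is injective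
(`ι` is; over a field `End M ⊗ End M → End (M ⊗ M)` is injective: `∑ f_l ⊗ g_l` with `g_l` linearly independent and
`f_1 m ≠ 0`: apply a functional to the first factor).  `M ⊗ M` is a module over `A ⊗ A` and over `Rd x`
(a finitely generated `k`-algebra, Noetherian); `gen (Sg (ι (x i))) S` is the `Rd x`-span of `S`.  `Y = ρ (eA) (M ⊗ M)` is an
`A ⊗ A`-submodule contained in it, so it is a finitely generated `Rd x`-module.  Cayley-Hamilton
(`LinearMap.exists_monic_and_aeval_eq_zero`) for the multiplication with `t` on `Y`: `f` monic, `ρ (aeval t f * eA) = 0`. -/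
def S_TrA : Prop :=
  ∀ (k : Type u) [Field k] (M : Type u) [AddCommGroup M] [Module k M] (A : Type u) [CommRing A]
    [Algebra k A] (ι : A →ₐ[k] Module.End k M) (n : ℕ) (x : Fin n → A) (d : ℕ)
    (p q j j' i : Fin n), Function.Injective ι → Algebra.adjoin k (Set.range x) = ⊤ →
    (∃ S : Finset (M ⊗[k] M), ∀ w : M ⊗[k] M,
      (Lt (ι (x i)) - Rt (ι (x i))) (e0 (fun i => ι (x i)) d p q j j' w) ∈
        Two.gen (fun i => Sg (ι (x i))) (S : Set (M ⊗[k] M))) →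
    ∀ t : A ⊗[k] A, MonicKills (Rd x) t (eA x d p q j j' i)

/-- **TrB**.  Available: `TensorGenProp`, `IntegralProp`.  Proof: `IntegralProp` for the space `M ⊗ M`, `φ = Sg (X i)`,
`ψ = Lt (X i)`, `X i = ι (x i)`, `Y = ⊥`, `Z = ⊤` (all commute); generation under `Lt (X i)`, `Rt (X i)` by `TensorGenProp`, and
`Rt = Sg - Lt`.  The integral equation of `x i ⊗ 1` over `Rd x` gives, via the homomorphism
`A ⊗ A → End (M ⊗ M)`, `a ⊗ b ↦ Lt (ι a) * Rt (ι b)`, the relation `(Lt (X i))^d = ∑ r_l (Lt (X i))^l` with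
`r_l ∈ adjoin (Sg (X i))`. -/
def S_TrB : Prop :=
  ∀ (k : Type u) [Field k] (M : Type u) [AddCommGroup M] [Module k M] (A : Type u) [CommRing A]
    [Algebra k A] (ι : A →ₐ[k] Module.End k M) (n : ℕ) (x : Fin n → A),
    (∃ S : Finset M, Two.gen (fun i => ι (x i)) (S : Set M) = ⊤) →
    (∀ t : A ⊗[k] A, IsIntS (Rd x) t) →
    ∃ S : Finset (M ⊗[k] M), Two.gen (fun i => Sg (ι (x i))) (S : Set (M ⊗[k] M)) = ⊤

/-- **Phi**.  Proof.  `χ : A → L[Y]` of the line, `Ω = L(Y)` (`FractionRing`).  `M` is a finitely generated faithful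
`A`-module, so every prime is in its support (`Module.support_eq_zeroLocus`), so for `𝔭 = ker χ` the space
`κ(𝔭) ⊗_A M` is nonzero (`Module.mem_support_iff_nontrivial_residueField_tensorProduct`), and so is
`Ω ⊗_A M` (`κ(𝔭) → Ω`).  A nonzero linear functional of `Ω ⊗_A M` gives `φ₀ : M → Ω`, nonzero, `φ₀ (a m) = χ(a) φ₀ m`.  If
`m_1, …, m_r` generate `M`, let `h` be a common denominator of the `φ₀ m_s` (`IsLocalization.exist_integer_multiples`);
`φ = h φ₀` has values in `L[Y]`. -/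
def S_Phi : Prop :=
  ∀ (k : Type u) [Field k] (M : Type u) [AddCommGroup M] [Module k M] (A : Type u) [CommRing A]
    [Algebra k A] (ι : A →ₐ[k] Module.End k M) (n : ℕ) (x : Fin n → A),
    Function.Injective ι → (∃ S : Finset M, Two.gen (fun i => ι (x i)) (S : Set M) = ⊤) →
    Line k x → LineM k (fun i => ι (x i))

/-- **Fin**.  Available: `S_CA`, `S_TrA`, `S_TrB`, `S_Phi`.  Proof: `A = Algebra.adjoin k (Set.range X) ⊆ End M`, commutative
(`Algebra.adjoinCommRingOfComm`), `ι` the inclusion. -/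
def S_Fin : Prop :=
  ∀ (k : Type u) [Field k], (2 : k) ≠ 0 → ∀ (M : Type u) [AddCommGroup M] [Module k M] (n : ℕ)
    (X : Fin n → Module.End k M) (d : ℕ), (∀ i j, Commute (X i) (X j)) →
    (∃ S : Finset M, Two.gen X (S : Set M) = ⊤) →
    (∀ p q j j' i : Fin n, ∃ S : Finset (M ⊗[k] M), ∀ w : M ⊗[k] M,
      (Lt (X i) - Rt (X i)) (e0 X d p q j j' w) ∈
        Two.gen (fun i => Sg (X i)) (S : Set (M ⊗[k] M))) →
    (∃ S : Finset (M ⊗[k] M), Two.gen (fun i => Sg (X i)) (S : Set (M ⊗[k] M)) = ⊤) ∨ LineM k X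

/-! ## D. no line -/

/-- **E1**.  Proof.  As `S_Th1`.  (2) the set of the `w` with `∀ m, φ (mk ⁅m, π w⁆) = C (Θ w).t * X * φ (mk m)` is a Lie
subalgebra (for commutators both sides are `0`), generators by `IsDer.act` and `hφ`.  (1) the set of the `w`
with (1) and (2) is a Lie subalgebra: `(Θ ⁅u,v⁆).a = (Θ v).t • sh1 (Θ u).a - (Θ u).t • sh1 (Θ v).a`,
`cfp (X * p) = sh1 (cfp p)`, Jacobi. -/
def S_E1 : Prop :=
  ∀ (k : Type u) [Field k] (G : Type u) [LieRing G] [LieAlgebra k G] (n : ℕ)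
    (π : FreeLieAlgebra k (Fin n) →ₗ⁅k⁆ G) (M : Type u) [AddCommGroup M] [Module k M]
    (mk : ↥(D1 k G).toSubmodule →ₗ[k] M) (X : Fin n → Module.End k M) (L : Type u) [Field L]
    [Algebra k L] (θ : Fin n → L) (φ : M →ₗ[k] Polynomial L) (j : Fin n),
    IsDer (fun i => π (FreeLieAlgebra.of k i)) mk X →
    (∀ i m, φ (X i m) = Polynomial.C (θ i) * Polynomial.X * φ m) →
    (∀ w, (ThE π mk θ φ j w).a = cfp (φ (mk (brk2 k (π w) (π (FreeLieAlgebra.of k j)))))) ∧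
    ∀ w (m : ↥(D1 k G).toSubmodule), φ (mk (brk2 k (m : G) (π w))) =
      Polynomial.C (ThE π mk θ φ j w).t * Polynomial.X * φ (mk m)

/-- **E2**.  Available: `S_E1`.  Proof.  `Θ = ThE π mk θ φ j`; `ρ r = (Θ r).b`, `τ r = (Θ r).c` for `r ∈ S` (numbered by
`Fin m`, `Finset.equivFin`), `J = JT ρ τ`.  `J` is stable under `(sh2, sh3)` (`sh3_cm`) and `(0, cm b a) ∈ J` for `(b, c) ∈ J`.
`I = {w | (Θ w).t = 0, (Θ w).a = 0, ((Θ w).b, (Θ w).c) ∈ J}` is an ideal (for `w ∈ I`: `⁅Θ v, Θ w⁆ = (0, 0, -v.t • sh2 w.b,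
-cm w.b v.a - v.t • sh3 w.c)`) containing `S`: `π r = 0`, so `(Θ r).a = 0` and `(Θ r).t X φ (mk m) = 0` for all `m`, `φ ≠ 0`,
`mk` onto, so `(Θ r).t = 0`.  So `ker π ≤ I`.  Let `m_i = mk α_i`, `α_i ∈ D1`, `α_i = π u_i`.  `w = ⁅⁅u₁, u₂⁆, u₃⁆ ∈ ker π` (`IsN2A`; `D1` is
spanned by commutators).  `(Θ u_i).t = 0` (as `⁅m, α_i⁆ ∈ D2`), `(Θ u_i).a = cfp (φ (mk ⁅α_i, x_j⁆)) = cfp (C (θ j) * X * φ m_i)`.
`(Θ w).b = 0`, `(Θ w).c = cm (wdg a₁ a₂) a₃`. -/
def S_E2 : Prop :=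
  ∀ (k : Type u) [Field k] (G : Type u) [LieRing G] [LieAlgebra k G] (n : ℕ)
    (π : FreeLieAlgebra k (Fin n) →ₗ⁅k⁆ G) (S : Finset (FreeLieAlgebra k (Fin n)))
    (M : Type u) [AddCommGroup M] [Module k M]
    (mk : ↥(D1 k G).toSubmodule →ₗ[k] M) (X : Fin n → Module.End k M) (L : Type u) [Field L]
    [Algebra k L] (θ : Fin n → L) (φ : M →ₗ[k] Polynomial L) (j : Fin n),
    Function.Surjective π →
    π.ker = LieSubmodule.lieSpan k (FreeLieAlgebra k (Fin n)) (S : Set (FreeLieAlgebra k (Fin n))) →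
    IsDer (fun i => π (FreeLieAlgebra.of k i)) mk X → IsN2A G →
    (∀ i m, φ (X i m) = Polynomial.C (θ i) * Polynomial.X * φ m) → φ ≠ 0 →
    ∃ (m : ℕ) (ρ : Fin m → (ℕ → ℕ → L)) (τ : Fin m → (ℕ → ℕ → ℕ → L)), ∀ m₁ m₂ m₃ : M,
      ((0, cm (wdg (cfp (Polynomial.C (θ j) * Polynomial.X * φ m₁))
        (cfp (Polynomial.C (θ j) * Polynomial.X * φ m₂)))
        (cfp (Polynomial.C (θ j) * Polynomial.X * φ m₃))) :
        (ℕ → ℕ → L) × (ℕ → ℕ → ℕ → L)) ∈ JT ρ τ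

/-- **E3** (dimension count).  Proof.  `q = X^v q₁`, `q₁(0) ≠ 0`.  Let `K ≥ 1`, `N = v + 3 K`, and let `J_N` be the image of
`JT ρ τ` under the restriction to indices `< N`, in `(Fin N → Fin N → L) × (Fin N → Fin N → Fin N → L)`.  `(sh2 ^ e) b` and
`(sh3 ^ e) c` restrict to `0` for `e ≥ 3 N` (`(sh2 ^ e) b i j` is a combination of the `b (i - e₁) (j - e₂)`, `e₁ + e₂ = e`, with the
convention `0` for negative indices: induction on `e`: `(sh2 ^ e) b i j = 0` if `i + j < e`; same for `sh3`), and the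
restriction of `cm b a` depends only on the restrictions of `a`, `b`, linearly.  So `dim J_N ≤ 3 N m + 3 N m N`.
If all the elements were in `JT ρ τ`: for `v ≤ i < N` there is `f_i` with `q f_i ≡ X^i` modulo `X^N` (`q₁` is
invertible modulo `X^N`: `IsCoprime q₁ (X^N)`), so `J_N` contains the restrictions of `(0, cm (wdg E_i E_j) E_l)`,
`E_i = Pi.single i 1`, for `v ≤ i < v+K ≤ j < v+2K ≤ l < N`; their values at the points `(i', j', l')` of the same ranges are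
`δ`, so they are linearly independent: `K³ ≤ 3 N m (1 + N)`, false for large `K`. -/
def S_E3 : Prop :=
  ∀ (L : Type u) [Field L] (m : ℕ) (ρ : Fin m → (ℕ → ℕ → L)) (τ : Fin m → (ℕ → ℕ → ℕ → L))
    (q : Polynomial L), q ≠ 0 → ∃ f g h : Polynomial L,
      ((0, cm (wdg (cfp (q * f)) (cfp (q * g))) (cfp (q * h))) :
        (ℕ → ℕ → L) × (ℕ → ℕ → ℕ → L)) ∉ JT ρ τ

/-- **Ln**.  Available: `S_E2`, `S_E3`.  Proof: a line `(L, θ, φ)`, `θ j ≠ 0`; `S_E2` gives `J = JT ρ τ`.  Let `V` be the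
`L`-span of the polynomials `C (θ j) * X * φ m`.  By trilinearity `(0, cm (wdg (cfp f) (cfp g)) (cfp h)) ∈ J` for all
`f, g, h ∈ V`.  `V` is stable under multiplication with `X` (`C (θ j) * X * φ (X j m) = C (θ j) * X * (C (θ j) * X * φ m)`, divide by
`θ j`), so it contains `q L[X]` with `q = C (θ j) * X * φ m₀ ≠ 0`.  Contradiction to `S_E3`. -/
def S_Ln : Prop :=
  ∀ (k : Type u) [Field k] (G : Type u) [LieRing G] [LieAlgebra k G] (n : ℕ)
    (π : FreeLieAlgebra k (Fin n) →ₗ⁅k⁆ G) (S : Finset (FreeLieAlgebra k (Fin n)))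
    (M : Type u) [AddCommGroup M] [Module k M]
    (mk : ↥(D1 k G).toSubmodule →ₗ[k] M) (X : Fin n → Module.End k M),
    Function.Surjective π →
    π.ker = LieSubmodule.lieSpan k (FreeLieAlgebra k (Fin n)) (S : Set (FreeLieAlgebra k (Fin n))) →
    IsDer (fun i => π (FreeLieAlgebra.of k i)) mk X → IsN2A G → ¬LineM k X

/-! ## E. residual finiteness -/

/-- **RF**.  Available: `RfdProp`, `AnnProp`, `PolyFdProp`, `StabIdealProp`, `DerFcProp`, `SepProp`.  Proof.  Let `ζ ≠ 0`; it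
suffices to find an ideal `D` with `FC D ⊤`, `ζ ∉ D` (`fc_top_iff`).  If `ζ ∉ D1`: `D = D1`.  If `ζ ∈ D1`, `ζ ∉ D2 = ⁅D1, D1⁆`:
`SepProp` with `I = D1`.  Let `ζ ∈ D2`.  `β : M ⊗ M → G` linear with `β (mk a ⊗ mk b) = ⁅a, b⁆` (well defined because
`⁅D2, D1⁆ = 0`), with image `D2`; `W = ker β` is stable under `Sg (X i)`; `ζ = β z`, `z ∉ W`.  `RfdProp` for `M ⊗ M`, `φ = Sg (X i)`,
`Y = ⊥`, `Z = ⊤`, `U = W`, `x = z`: a stable `C ≥ W`, `FC C ⊤`, `z ∉ C`.  `AnnProp` for `Y = ⊥`, `C`: `D₀ ≤ C`, `FC D₀ ⊤`, stable under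
the `Lt (X i)`.  The operator induced by `Lt (X i)` on the finite dimensional space `(M ⊗ M) / D₀` is killed by a
polynomial `p i ≠ 0`: `(aeval (X i) (p i) a) ⊗ b ∈ D₀` for all `a, b`.  `I = D2 + ∑ i, aeval (adr (x i)) (p i) D1` is stable under the
`adr (x l)` (they commute on `D1` modulo `D2`), so it is an ideal (`StabIdealProp`); `FC I D1` (`PolyFdProp` with
`X = G`, `Y = I`, `Z = D1`, `D1` generated by a finite set modulo `D2`: `IsDer`, `gen X S = ⊤`), so `FC I ⊤` (`DerFcProp`).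
`ζ ∉ ⁅I, D1⁆`: an element of `⁅I, D1⁆` is `β w` with `w ∈ D₀` (spanned by the `(aeval (X i) (p i) a) ⊗ b`), and `β z = β w` gives
`z - w ∈ W ≤ C`, `z ∈ C`.  `SepProp` for `I`. -/
def S_RF : Prop :=
  ∀ (k : Type u) [Field k] (G : Type u) [LieRing G] [LieAlgebra k G] (n : ℕ) (x : Fin n → G)
    (M : Type u) [AddCommGroup M] [Module k M] (mk : ↥(D1 k G).toSubmodule →ₗ[k] M)
    (X : Fin n → Module.End k M), LieSubalgebra.lieSpan k G (Set.range x) = ⊤ → IsN2A G →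
    IsDer x mk X → (∀ i j, Commute (X i) (X j)) → (∃ S : Finset M, Two.gen X (S : Set M) = ⊤) →
    (∃ S : Finset (M ⊗[k] M), Two.gen (fun i => Sg (X i)) (S : Set (M ⊗[k] M)) = ⊤) →
    ResiduallyFiniteDimensional k G

end Pool.Agent.Lib.MP_240c17_al.Q2.Abc
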