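import Pool.Agent.Lib.MP_240c17_al.Q2.Abc.Spec

/-!
# MP_240c17, project Q2, stage ABC: the homomorphism into `HM`
-/

set_option autoImplicit false

namespace Pool.Agent.Lib.MP_240c17_al.Q2.Abc

universe u

open Pool.Agent.Lib.MP_240c17_al Pool.Agent.Lib.MP_240c17_al.Two TensorProduct

/-- A Lie subalgebra of the free Lie algebra which contains the generators is everything. -/
private theorem Th1_free {k : Type u} [Field k] {n : ℕ}
    (K : LieSubalgebra k (FreeLieAlgebra k (Fin n))) (h : ∀ i, FreeLieAlgebra.of k i ∈ K)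
    (w : FreeLieAlgebra k (Fin n)) : w ∈ K := by
  let f : FreeLieAlgebra k (Fin n) →ₗ⁅k⁆ K :=
    FreeLieAlgebra.lift k fun i => ⟨FreeLieAlgebra.of k i, h i⟩
  have e : K.incl.comp f = LieHom.id := by
    refine FreeLieAlgebra.hom_ext fun i => ?_
    change K.incl (f (FreeLieAlgebra.of k i)) = FreeLieAlgebra.of k i
    rw [FreeLieAlgebra.lift_of_apply]
    rfl
  have e2 : K.incl (f w) = w := by
    have := congrArg (fun g : FreeLieAlgebra k (Fin n) →ₗ⁅k⁆ FreeLieAlgebra k (Fin n) => g w) e
    exact this
  rw [← e2]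
  exact (f w).2

section
variable {k : Type u} [Field k] {G : Type u} [LieRing G] [LieAlgebra k G]

private theorem Th1_brk_ext {a b c d : G} (h : ⁅a, b⁆ = ⁅c, d⁆) : brk2 k a b = brk2 k c d :=
  Subtype.ext h

private theorem Th1_brk_zero_left (b : G) : brk2 k (0 : G) b = 0 := Subtype.ext (zero_lie b)

private theorem Th1_brk_zero_right (a : G) : brk2 k a (0 : G) = 0 := Subtype.ext (lie_zero a)

private theorem Th1_brk_add_left (a a' b : G) : brk2 k (a + a') b = brk2 k a b + brk2 k a' b :=
  Subtype.ext (add_lie a a' b)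

private theorem Th1_brk_add_right (a b b' : G) : brk2 k a (b + b') = brk2 k a b + brk2 k a b' :=
  Subtype.ext (lie_add a b b')

private theorem Th1_brk_smul_left (c : k) (a b : G) : brk2 k (c • a) b = c • brk2 k a b :=
  Subtype.ext (smul_lie c a b)

private theorem Th1_brk_smul_right (c : k) (a b : G) : brk2 k a (c • b) = c • brk2 k a b :=
  Subtype.ext (lie_smul c a b)

private theorem Th1_jac (a b c : G) :
    brk2 k ⁅a, b⁆ c = brk2 k ((brk2 k a c : ↥(D1 k G).toSubmodule) : G) b -
      brk2 k ((brk2 k b c : ↥(D1 k G).toSubmodule) : G) a := by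
  refine Subtype.ext ?_
  change ⁅⁅a, b⁆, c⁆ = ⁅⁅a, c⁆, b⁆ - ⁅⁅b, c⁆, a⁆
  have h1 : ⁅⁅a, b⁆, c⁆ = ⁅a, ⁅b, c⁆⁆ - ⁅b, ⁅a, c⁆⁆ := lie_lie a b c
  rw [h1, ← lie_skew b ⁅a, c⁆, ← lie_skew a ⁅b, c⁆]
  abel

end

theorem tTh1 : S_Th1.{u} := by
  intro k _ G _ _ n π M _ _ mk X hX j j' hD
  -- the third claim
  have h3 : ∀ w (m : ↥(D1 k G).toSubmodule),
      actT X (ThM π mk hX j j' w).t (mk m) = mk (brk2 k (m : G) (π w)) := by
    intro w
    let K : LieSubalgebra k (FreeLieAlgebra k (Fin n)) :=
      { carrier := {w | ∀ m : ↥(D1 k G).toSubmodule,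
          actT X (ThM π mk hX j j' w).t (mk m) = mk (brk2 k (m : G) (π w))}
        zero_mem' := by
          intro m
          change actT X (ThM π mk hX j j' 0).t (mk m) = mk (brk2 k (m : G) (π 0))
          rw [map_zero, map_zero, Th1_brk_zero_right, map_zero, HM.zero_t, actT_zero]
          rfl
        add_mem' := by
          intro u v hu hv m
          change actT X (ThM π mk hX j j' (u + v)).t (mk m) = mk (brk2 k (m : G) (π (u + v)))
          rw [map_add, map_add, Th1_brk_add_right, map_add, HM.add_t, actT_add,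
            LinearMap.add_apply, hu m, hv m]
        smul_mem' := by
          intro c u hu m
          change actT X (ThM π mk hX j j' (c • u)).t (mk m) = mk (brk2 k (m : G) (π (c • u)))
          rw [map_smul, map_smul, Th1_brk_smul_right, map_smul, HM.smul_t, actT_smul,
            LinearMap.smul_apply, hu m]
        lie_mem' := by
          intro u v hu hv m
          rw [LieHom.map_lie, LieHom.map_lie, HM.lie_t, actT_zero, LinearMap.zero_apply]
          symm
          rw [hD.ker]
          exact LieSubmodule.lie_mem_lie m.2 (brk2 k (π u) (π v)).2 }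
    refine Th1_free K (fun i => ?_) w
    intro m
    have e : (ThM π mk hX j j' (FreeLieAlgebra.of k i)).t = Pi.single i 1 := by
      unfold ThM
      rw [FreeLieAlgebra.lift_of_apply]
    change actT X (ThM π mk hX j j' (FreeLieAlgebra.of k i)).t (mk m) = _
    rw [e, actT_single]
    exact hD.act i m _ rfl
  -- the first two claims
  have h12 : ∀ (c : HM X hX →ₗ[k] M) (l : Fin n),
      (∀ p q, c ⁅p, q⁆ = actT X q.t (c p) - actT X p.t (c q)) →
      (∀ i, c (ThM π mk hX j j' (FreeLieAlgebra.of k i)) =
        mk (brk2 k (π (FreeLieAlgebra.of k i)) (π (FreeLieAlgebra.of k l)))) →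
      ∀ w, c (ThM π mk hX j j' w) = mk (brk2 k (π w) (π (FreeLieAlgebra.of k l))) := by
    intro c l hc hg w
    let K : LieSubalgebra k (FreeLieAlgebra k (Fin n)) :=
      { carrier := {w | c (ThM π mk hX j j' w) =
          mk (brk2 k (π w) (π (FreeLieAlgebra.of k l)))}
        zero_mem' := by
          change c (ThM π mk hX j j' 0) = mk (brk2 k (π 0) (π (FreeLieAlgebra.of k l)))
          rw [map_zero, map_zero, map_zero, Th1_brk_zero_left, map_zero]
        add_mem' := by
          intro u v hu hv
          change c (ThM π mk hX j j' (u + v)) =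
            mk (brk2 k (π (u + v)) (π (FreeLieAlgebra.of k l)))
          rw [map_add, map_add, map_add, Th1_brk_add_left, map_add]
          exact congrArg₂ (· + ·) hu hv
        smul_mem' := by
          intro r u hu
          change c (ThM π mk hX j j' (r • u)) =
            mk (brk2 k (π (r • u)) (π (FreeLieAlgebra.of k l)))
          rw [map_smul, map_smul, map_smul, Th1_brk_smul_left, map_smul]
          exact congrArg (r • ·) hu
        lie_mem' := by
          intro u v hu hv
          have hu' : c (ThM π mk hX j j' u) =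
            mk (brk2 k (π u) (π (FreeLieAlgebra.of k l))) := hu
          have hv' : c (ThM π mk hX j j' v) =
            mk (brk2 k (π v) (π (FreeLieAlgebra.of k l))) := hv
          change c (ThM π mk hX j j' ⁅u, v⁆) =
            mk (brk2 k (π ⁅u, v⁆) (π (FreeLieAlgebra.of k l)))
          rw [LieHom.map_lie, LieHom.map_lie, hc, hu', hv', h3, h3, Th1_jac, map_sub] }
    exact Th1_free K hg w
  refine ⟨?_, ?_, h3⟩
  · let c : HM X hX →ₗ[k] M :=
      { toFun := fun p => p.a
        map_add' := fun _ _ => rfl
        map_smul' := fun _ _ => rfl }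
    refine h12 c j (fun _ _ => rfl) fun i => ?_
    change (ThM π mk hX j j' (FreeLieAlgebra.of k i)).a = _
    unfold ThM
    rw [FreeLieAlgebra.lift_of_apply]
  · let c : HM X hX →ₗ[k] M :=
      { toFun := fun p => p.b
        map_add' := fun _ _ => rfl
        map_smul' := fun _ _ => rfl }
    refine h12 c j' (fun _ _ => rfl) fun i => ?_
    change (ThM π mk hX j j' (FreeLieAlgebra.of k i)).b = _
    unfold ThM
    rw [FreeLieAlgebra.lift_of_apply]

end Pool.Agent.Lib.MP_240c17_al.Q2.Abc
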